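import Pool.Agent.RelC.Bridge
import Pool.Agent.CITNF.Basic

set_option autoImplicit false

/-! The number of elements of small height in a group of rank at most two of a number field, from
the lower bounds of Lehmer type. (The abstract part is by helper35, `M05Full/Count.lean`.) -/

namespace Pool.Agent.RelC

open NumberField Height Real Module

/-! ### Abstract groups with a height -/

section Abs

variable {A : Type} [AddCommGroup A]

/-- a height on a commutative group -/
private structure CtH (h : A → ℝ) : Prop where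
  zs : ∀ (n : ℤ) (g : A), h (n • g) = |(n : ℝ)| * h g
  add : ∀ g g', h (g + g') ≤ h g + h g'
  nn : ∀ g, 0 ≤ h g
  tors : ∀ g, h g = 0 → ∃ n : ℤ, 0 < n ∧ n • g = 0
  fin : ∀ B : ℝ, {g | h g ≤ B}.Finite

/-- independent elements -/
private def CtI (g g' : A) : Prop := ∀ m n : ℤ, m • g + n • g' = 0 → m = 0 ∧ n = 0

/-- dependent on `a` and `b` -/
private def CtG (a b g : A) : Prop := ∃ n p q : ℤ, 0 < n ∧ n • g = p • a + q • b

variable {h : A → ℝ}

private theorem CtH.sub (H : CtH h) (g g' : A) : h (g - g') ≤ h g + h g' := by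
  have h1 := H.add g ((-1 : ℤ) • g')
  rw [H.zs] at h1
  have h2 : g + (-1 : ℤ) • g' = g - g' := by module
  rw [h2] at h1
  simpa using h1

private theorem CtH.zero (H : CtH h) {g : A} {n : ℤ} (hn : n ≠ 0) (hg : n • g = 0) : h g = 0 := by
  have h1 := H.zs n g
  have h2 : h (0 : A) = 0 := by
    have := H.zs 0 g
    simpa using this
  rw [hg, h2] at h1
  rcases mul_eq_zero.1 h1.symm with h3 | h3
  · exact absurd (Int.cast_eq_zero.1 (abs_eq_zero.1 h3)) hn
  · exact h3

private theorem CtH.sum (H : CtH h) {ι : Type} (s : Finset ι) (f : ι → A) :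
    h (∑ i ∈ s, f i) ≤ ∑ i ∈ s, h (f i) := by
  classical
  induction s using Finset.induction_on with
  | empty =>
    rw [Finset.sum_empty, Finset.sum_empty]
    have := H.zs 0 (0 : A)
    simp only [Int.cast_zero, abs_zero, zero_mul, smul_zero] at this
    exact this.le
  | insert i s hi ih =>
    rw [Finset.sum_insert hi, Finset.sum_insert hi]
    exact (H.add _ _).trans (by linarith)

private theorem ctG_left (a b : A) : CtG a b a := ⟨1, 1, 0, one_pos, by module⟩

private theorem ctG_right (a b : A) : CtG a b b := ⟨1, 0, 1, one_pos, by module⟩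

private theorem ctG_add {a b g g' : A} (hg : CtG a b g) (hg' : CtG a b g') :
    CtG a b (g + g') := by
  obtain ⟨n, p, q, hn, h1⟩ := hg
  obtain ⟨n', p', q', hn', h2⟩ := hg'
  refine ⟨n * n', p * n' + p' * n, q * n' + q' * n, mul_pos hn hn', ?_⟩
  have h3 : (n * n') • (g + g') = n' • (n • g) + n • (n' • g') := by module
  rw [h3, h1, h2]
  module

private theorem ctG_zsmul {a b g : A} (hg : CtG a b g) (t : ℤ) : CtG a b (t • g) := by
  obtain ⟨n, p, q, hn, h1⟩ := hg
  refine ⟨n, t * p, t * q, hn, ?_⟩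
  have h3 : n • (t • g) = t • (n • g) := by module
  rw [h3, h1]
  module

private theorem ctG_sum {ι : Type} {a b : A} (s : Finset ι) (f : ι → A)
    (hf : ∀ i, CtG a b (f i)) : CtG a b (∑ i ∈ s, f i) := by
  classical
  induction s using Finset.induction_on with
  | empty => exact ⟨1, 0, 0, one_pos, by simp⟩
  | insert i s hi ih =>
    rw [Finset.sum_insert hi]
    exact ctG_add (hf i) ih

/-- a multiple of `g` is a combination -/
private theorem ctG_of {a b g : A} {n p q : ℤ} (hn : n ≠ 0) (hg : n • g = p • a + q • b) :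
    CtG a b g := by
  refine ⟨n * n, n * p, n * q, mul_self_pos.2 hn, ?_⟩
  rw [mul_smul, hg]
  module

private theorem ctI_left (H : CtH h) {g g' : A} (hi : CtI g g') : h g ≠ 0 := by
  intro h0
  obtain ⟨n, hn, h1⟩ := H.tors g h0
  have := (hi n 0 (by rw [h1]; simp)).1
  omega

/-- change of the basis -/
private theorem ctG_change {a b g₁ g₂ g : A} (hi : CtI g₁ g₂) (h1 : CtG a b g₁)
    (h2 : CtG a b g₂) (hg : CtG a b g) : CtG g₁ g₂ g := by
  obtain ⟨n₁, p₁, q₁, hn₁, e₁⟩ := h1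
  obtain ⟨n₂, p₂, q₂, hn₂, e₂⟩ := h2
  obtain ⟨n, p, q, hn, e⟩ := hg
  have ha : (q₂ * n₁) • g₁ - (q₁ * n₂) • g₂ = (p₁ * q₂ - p₂ * q₁) • a := by
    have h3 : (q₂ * n₁) • g₁ - (q₁ * n₂) • g₂ = q₂ • (n₁ • g₁) - q₁ • (n₂ • g₂) := by module
    rw [h3, e₁, e₂]
    module
  have hb : (p₁ * n₂) • g₂ - (p₂ * n₁) • g₁ = (p₁ * q₂ - p₂ * q₁) • b := by
    have h3 : (p₁ * n₂) • g₂ - (p₂ * n₁) • g₁ = p₁ • (n₂ • g₂) - p₂ • (n₁ • g₁) := by module
    rw [h3, e₁, e₂]
    module
  have hD : p₁ * q₂ - p₂ * q₁ ≠ 0 := by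
    intro hD
    rw [hD, zero_smul] at ha hb
    have h3 := hi (q₂ * n₁) (-(q₁ * n₂)) (by rw [← ha]; module)
    have h4 := hi (-(p₂ * n₁)) (p₁ * n₂) (by rw [← hb]; module)
    have hq : q₁ = 0 := by
      have := neg_eq_zero.1 h3.2
      rcases mul_eq_zero.1 this with h5 | h5
      · exact h5
      · omega
    have hp : p₁ = 0 := by
      rcases mul_eq_zero.1 h4.2 with h5 | h5
      · exact h5
      · omega
    rw [hp, hq] at e₁
    have h6 := (hi n₁ 0 (by rw [e₁]; module)).1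
    omega
  refine ctG_of (n := (p₁ * q₂ - p₂ * q₁) * n) (p := p * (q₂ * n₁) - q * (p₂ * n₁))
    (q := q * (p₁ * n₂) - p * (q₁ * n₂)) (mul_ne_zero hD (by omega)) ?_
  rw [mul_smul, e]
  have h5 : (p₁ * q₂ - p₂ * q₁) • (p • a + q • b) =
      p • ((p₁ * q₂ - p₂ * q₁) • a) + q • ((p₁ * q₂ - p₂ * q₁) • b) := by module
  rw [h5, ← ha, ← hb]
  module

private theorem ctI_or (H : CtH h) {a b g : A} (hi : CtI a b) (hg : CtG a b g) (h0 : h g ≠ 0) :
    CtI g a ∨ CtI g b := by
  obtain ⟨n, p, q, hn, e⟩ := hg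
  by_cases hq : q = 0
  · right
    have hp : p ≠ 0 := by
      rintro rfl
      rw [hq] at e
      exact h0 (H.zero (by omega) (e.trans (by module)))
    intro s t hst
    have h1 : (s * p) • a + (s * q + n * t) • b = 0 := by
      have h2 : (s * p) • a + (s * q + n * t) • b = s • (p • a + q • b) + (n * t) • b := by module
      rw [h2, ← e]
      have h3 : s • n • g + (n * t) • b = n • (s • g + t • b) := by module
      rw [h3, hst, smul_zero]
    have h2 := hi _ _ h1
    have hs : s = 0 := by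
      rcases mul_eq_zero.1 h2.1 with h3 | h3
      · exact h3
      · exact absurd h3 hp
    have h3 := h2.2
    rw [hs, zero_mul, zero_add] at h3
    rcases mul_eq_zero.1 h3 with h4 | h4
    · omega
    · exact ⟨hs, h4⟩
  · left
    intro s t hst
    have h1 : (s * p + n * t) • a + (s * q) • b = 0 := by
      have h2 : (s * p + n * t) • a + (s * q) • b = s • (p • a + q • b) + (n * t) • a := by module
      rw [h2, ← e]
      have h3 : s • n • g + (n * t) • a = n • (s • g + t • a) := by module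
      rw [h3, hst, smul_zero]
    have h2 := hi _ _ h1
    have hs : s = 0 := by
      rcases mul_eq_zero.1 h2.2 with h3 | h3
      · exact h3
      · exact absurd h3 hq
    have h3 := h2.1
    rw [hs, zero_mul, zero_add] at h3
    rcases mul_eq_zero.1 h3 with h4 | h4
    · omega
    · exact ⟨hs, h4⟩

private theorem ct_min (H : CtH h) {S : Set A} (hS : S.Nonempty) :
    ∃ g ∈ S, ∀ g' ∈ S, h g ≤ h g' := by
  obtain ⟨x, hx⟩ := hS
  have hfin : {g | g ∈ S ∧ h g ≤ h x}.Finite := (H.fin (h x)).subset fun g hg => hg.2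
  obtain ⟨g, hg, hmin⟩ := Set.exists_min_image _ h hfin ⟨x, hx, le_refl _⟩
  refine ⟨g, hg.1, fun g' hg' => ?_⟩
  by_cases h1 : h g' ≤ h x
  · exact hmin g' ⟨hg', h1⟩
  · exact hg.2.trans (not_le.1 h1).le

/-- the nearest integer -/
private theorem ct_near (p q : ℤ) (hq : q ≠ 0) :
    ∃ t : ℤ, 2 * |((p - q * t : ℤ) : ℝ)| ≤ |(q : ℝ)| := by
  have hq' : (q : ℝ) ≠ 0 := Int.cast_ne_zero.2 hq
  refine ⟨round ((p : ℝ) / q), ?_⟩
  have h1 := abs_sub_round ((p : ℝ) / q)
  have h2 : ((p - q * round ((p : ℝ) / q) : ℤ) : ℝ) =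
      q * ((p : ℝ) / q - round ((p : ℝ) / q)) := by
    push_cast
    field_simp
  rw [h2, abs_mul]
  have h3 : 0 ≤ |(q : ℝ)| := abs_nonneg _
  nlinarith

/-- minimal elements -/
private structure CtM (h : A → ℝ) (g₁ g₂ : A) : Prop where
  ind : CtI g₁ g₂
  m1 : ∀ g, CtG g₁ g₂ g → h g ≠ 0 → h g₁ ≤ h g
  m2 : ∀ g, CtG g₁ g₂ g → CtI g₁ g → h g₂ ≤ h g

private theorem CtM.p1 (H : CtH h) {g₁ g₂ : A} (M : CtM h g₁ g₂) : 0 < h g₁ :=
  lt_of_le_of_ne (H.nn _) (ctI_left H M.ind).symm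

private theorem CtI.symm {g g' : A} (hi : CtI g g') : CtI g' g := fun m n h0 =>
  (hi n m (by rw [add_comm]; exact h0)).symm

private theorem CtM.le (H : CtH h) {g₁ g₂ : A} (M : CtM h g₁ g₂) : h g₁ ≤ h g₂ :=
  M.m1 g₂ (ctG_right _ _) (ctI_left H M.ind.symm)

private theorem CtM.fa (H : CtH h) {g₁ g₂ : A} (M : CtM h g₁ g₂) {u : A} {n p : ℤ} (hn : 0 < n)
    (hu : n • u = p • g₁) : ∃ t : ℤ, h (u - t • g₁) = 0 := by
  obtain ⟨t, ht⟩ := ct_near p n (by omega)
  refine ⟨t, ?_⟩
  by_contra hne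
  have hG : CtG g₁ g₂ (u - t • g₁) := ⟨n, p - n * t, 0, hn, by
    have h1 : n • (u - t • g₁) = n • u - (n * t) • g₁ := by module
    rw [h1, hu]
    module⟩
  have h1 := M.m1 _ hG hne
  have h2 : h (n • (u - t • g₁)) = h ((p - n * t) • g₁) := by
    congr 1
    have h1 : n • (u - t • g₁) = n • u - (n * t) • g₁ := by module
    rw [h1, hu]
    module
  rw [H.zs, H.zs] at h2
  have hn' : (0 : ℝ) < n := Int.cast_pos.2 hn
  rw [abs_of_pos hn'] at h2 ht
  have h3 := M.p1 H
  nlinarith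

private theorem CtM.fb (H : CtH h) {g₁ g₂ : A} (M : CtM h g₁ g₂) {u : A} {n p q : ℤ}
    (hn : 0 < n) (hq : q ≠ 0) (hu : n • u = p • g₁ + q • g₂) : (n : ℝ) ≤ 2 * |(q : ℝ)| := by
  obtain ⟨t, ht⟩ := ct_near p n (by omega)
  have e : n • (u - t • g₁) = (p - n * t) • g₁ + q • g₂ := by
    have h1 : n • (u - t • g₁) = n • u - (n * t) • g₁ := by module
    rw [h1, hu]
    module
  have hG : CtG g₁ g₂ (u - t • g₁) := ⟨n, p - n * t, q, hn, e⟩
  have hI : CtI g₁ (u - t • g₁) := by
    intro m l hml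
    have h1 : (n * m + l * (p - n * t)) • g₁ + (l * q) • g₂ = 0 := by
      have h2 : (n * m + l * (p - n * t)) • g₁ + (l * q) • g₂ =
          (n * m) • g₁ + l • ((p - n * t) • g₁ + q • g₂) := by module
      rw [h2, ← e]
      have h3 : (n * m) • g₁ + l • n • (u - t • g₁) = n • (m • g₁ + l • (u - t • g₁)) := by module
      rw [h3, hml, smul_zero]
    have h2 := M.ind _ _ h1
    have hl : l = 0 := by
      rcases mul_eq_zero.1 h2.2 with h3 | h3
      · exact h3
      · exact absurd h3 hq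
    have h3 := h2.1
    rw [hl, zero_mul, add_zero] at h3
    rcases mul_eq_zero.1 h3 with h4 | h4
    · omega
    · exact ⟨h4, hl⟩
  have h1 := M.m2 _ hG hI
  have h2 := H.zs n (u - t • g₁)
  have h3 := H.add ((p - n * t) • g₁) (q • g₂)
  rw [← e, h2, H.zs, H.zs] at h3
  have hn' : (0 : ℝ) < n := Int.cast_pos.2 hn
  rw [abs_of_pos hn'] at h3 ht
  have h4 := M.p1 H
  have h5 := M.le H
  have h6 : 0 ≤ |(q : ℝ)| := abs_nonneg _
  have h7 : |((p - n * t : ℤ) : ℝ)| * h g₁ ≤ (n / 2) * h g₂ := by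
    have h8 : |((p - n * t : ℤ) : ℝ)| ≤ n / 2 := by linarith
    exact mul_le_mul h8 h5 h4.le (by positivity)
  have h8 : (n : ℝ) * h g₂ ≤ (n / 2 + |(q : ℝ)|) * h g₂ := by nlinarith
  have h9 : (n : ℝ) ≤ n / 2 + |(q : ℝ)| := le_of_mul_le_mul_right h8 (by linarith)
  linarith

private theorem CtM.fc (H : CtH h) {g₁ g₂ : A} (M : CtM h g₁ g₂) {g : A} {n p q : ℤ}
    (hn : 0 < n) (hg : n • g = p • g₁ + q • g₂) : |(q : ℝ)| * h g₂ ≤ 2 * (n * h g) := by
  have hn' : (0 : ℝ) < n := Int.cast_pos.2 hn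
  by_cases hq : q = 0
  · rw [hq]
    simp only [Int.cast_zero, abs_zero, zero_mul]
    have := H.nn g
    positivity
  obtain ⟨t, ht⟩ := ct_near p q hq
  have e : q • (g₂ + t • g₁) = n • g - (p - q * t) • g₁ := by
    rw [hg]
    module
  have hG : CtG g₁ g₂ (g₂ + t • g₁) := ctG_add (ctG_right _ _) (ctG_zsmul (ctG_left _ _) t)
  have hI : CtI g₁ (g₂ + t • g₁) := by
    intro m l hml
    have h1 : (m + l * t) • g₁ + l • g₂ = 0 := by
      rw [← hml]
      module
    have h2 := M.ind _ _ h1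
    refine ⟨?_, h2.2⟩
    have h3 := h2.1
    rw [h2.2, zero_mul, add_zero] at h3
    exact h3
  have h1 := M.m2 _ hG hI
  have h2 := H.zs q (g₂ + t • g₁)
  have h3 := H.sub (n • g) ((p - q * t) • g₁)
  rw [← e, h2, H.zs, H.zs, abs_of_pos hn'] at h3
  have h4 := M.p1 H
  have h5 := M.le H
  have h6 : 0 ≤ |(q : ℝ)| := abs_nonneg _
  have h7 : |((p - q * t : ℤ) : ℝ)| * h g₁ ≤ (|(q : ℝ)| / 2) * h g₂ := by
    have h8 : |((p - q * t : ℤ) : ℝ)| ≤ |(q : ℝ)| / 2 := by linarith
    exact mul_le_mul h8 h5 h4.le (by positivity)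
  have h8 : |(q : ℝ)| * h g₂ ≤ |(q : ℝ)| * h (g₂ + t • g₁) := mul_le_mul_of_nonneg_left h1 h6
  linarith

/-- the elements with almost the same second coordinate -/
private theorem CtM.fiber (H : CtH h) {g₁ g₂ : A} (M : CtM h g₁ g₂) {W : ℕ}
    (hW : Set.ncard {g : A | h g = 0} ≤ W) {X : ℝ} (S : Finset A) (F : A → ℤ)
    (n p q : A → ℤ) (hn : ∀ g ∈ S, 0 < n g) (hg : ∀ g ∈ S, n g • g = p g • g₁ + q g • g₂)
    (hF : ∀ g ∈ S, F g = ⌊2 * (q g : ℝ) / n g⌋) (hh : ∀ g ∈ S, h g ≤ X) (v : ℤ) :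
    ({g ∈ S | F g = v} : Finset A).card ≤ W * (2 * ⌊2 * X / h g₁⌋₊ + 1) := by
  classical
  have hfin : {g : A | h g = 0}.Finite := (H.fin 0).subset fun g hg => (le_of_eq hg)
  have hp1 := M.p1 H
  rcases ({g ∈ S | F g = v} : Finset A).eq_empty_or_nonempty with he | ⟨g₀, hg₀⟩
  · rw [he]
    simp
  rw [Finset.mem_filter] at hg₀
  set R : ℕ := ⌊2 * X / h g₁⌋₊ with hR
  have hsub : ({g ∈ S | F g = v} : Finset A) ⊆
      (hfin.toFinset ×ˢ Finset.Icc (-(R : ℤ)) R).image fun c => g₀ + c.1 + c.2 • g₁ := by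
    intro g hgS
    rw [Finset.mem_filter] at hgS
    have hn1 := hn g hgS.1
    have hn2 := hn g₀ hg₀.1
    have hn1' : (0 : ℝ) < n g := Int.cast_pos.2 hn1
    have hn2' : (0 : ℝ) < n g₀ := Int.cast_pos.2 hn2
    have e : (n g * n g₀) • (g - g₀) = (p g * n g₀ - p g₀ * n g) • g₁ +
        (q g * n g₀ - q g₀ * n g) • g₂ := by
      have h1 : (n g * n g₀) • (g - g₀) = n g₀ • (n g • g) - n g • (n g₀ • g₀) := by module
      rw [h1, hg g hgS.1, hg g₀ hg₀.1]
      module
    have hq0 : q g * n g₀ - q g₀ * n g = 0 := by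
      by_contra hne
      have h1 := M.fb H (mul_pos hn1 hn2) hne e
      have h2 : ⌊2 * (q g : ℝ) / n g⌋ = ⌊2 * (q g₀ : ℝ) / n g₀⌋ := by
        rw [← hF g hgS.1, ← hF g₀ hg₀.1, hgS.2, hg₀.2]
      have h3 := Int.abs_sub_lt_one_of_floor_eq_floor h2
      have h4 : 2 * (q g : ℝ) / n g - 2 * (q g₀ : ℝ) / n g₀ =
          2 * ((q g * n g₀ - q g₀ * n g : ℤ) : ℝ) / (n g * n g₀) := by
        push_cast
        field_simp
      rw [h4, abs_div, abs_mul, abs_of_pos (mul_pos hn1' hn2'), abs_of_pos (two_pos),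
        div_lt_one (mul_pos hn1' hn2')] at h3
      push_cast at h1 h3
      linarith
    rw [hq0, zero_smul, add_zero] at e
    obtain ⟨t, ht⟩ := M.fa H (mul_pos hn1 hn2) e
    rw [Finset.mem_image]
    refine ⟨((g - g₀) - t • g₁, t), ?_, ?_⟩
    · rw [Finset.mem_product]
      refine ⟨hfin.mem_toFinset.2 ht, ?_⟩
      have h1 : h (t • g₁) ≤ 2 * X := by
        have h2 : t • g₁ = (g - g₀) - ((g - g₀) - t • g₁) := by module
        rw [h2]
        have h3 := H.sub (g - g₀) ((g - g₀) - t • g₁)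
        have h4 := H.sub g g₀
        have h5 := hh g hgS.1
        have h6 := hh g₀ hg₀.1
        rw [ht] at h3
        linarith
      rw [H.zs] at h1
      have h2 : |(t : ℝ)| ≤ 2 * X / h g₁ := by
        rw [le_div_iff₀ hp1]
        exact h1
      have h3 : (t.natAbs : ℝ) ≤ 2 * X / h g₁ := by
        rw [Nat.cast_natAbs]
        push_cast
        exact h2
      have h4 : t.natAbs ≤ R := Nat.le_floor h3
      rw [Finset.mem_Icc]
      omega
    · simp only
      module
  refine (Finset.card_le_card hsub).trans (Finset.card_image_le.trans ?_)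
  rw [Finset.card_product, Int.card_Icc]
  have h1 : hfin.toFinset.card ≤ W := by
    rw [← Set.ncard_eq_toFinset_card _ hfin]
    exact hW
  refine Nat.mul_le_mul h1 ?_
  omega

private theorem CtM.count (H : CtH h) {g₁ g₂ : A} (M : CtM h g₁ g₂) {W : ℕ}
    (hW : Set.ncard {g : A | h g = 0} ≤ W) {X : ℝ} (hX : h g₂ ≤ X) :
    (Set.ncard {g : A | CtG g₁ g₂ g ∧ h g ≤ X} : ℝ) * (h g₁ * h g₂) ≤ 50 * W * X ^ 2 := by
  classical
  have hp1 := M.p1 H
  have hle := M.le H
  have hp2 : 0 < h g₂ := by linarith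
  have hX0 : 0 < X := by linarith
  have hfin : {g : A | CtG g₁ g₂ g ∧ h g ≤ X}.Finite := (H.fin X).subset fun g hg => hg.2
  rw [Set.ncard_eq_toFinset_card _ hfin]
  set S := hfin.toFinset with hS
  have hSm : ∀ g ∈ S, CtG g₁ g₂ g ∧ h g ≤ X := fun g hg => hfin.mem_toFinset.1 hg
  have hrep : ∀ g : A, ∃ n p q : ℤ, g ∈ S → 0 < n ∧ n • g = p • g₁ + q • g₂ := by
    intro g
    by_cases hg : g ∈ S
    · obtain ⟨n, p, q, hn, e⟩ := (hSm g hg).1
      exact ⟨n, p, q, fun _ => ⟨hn, e⟩⟩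
    · exact ⟨0, 0, 0, fun h => absurd h hg⟩
  choose n p q hnpq using hrep
  set F : A → ℤ := fun g => ⌊2 * (q g : ℝ) / n g⌋ with hF
  set R : ℕ := ⌊2 * X / h g₁⌋₊ with hR
  set L : ℕ := ⌊4 * X / h g₂⌋₊ with hL
  have h1 : S.card ≤ W * (2 * R + 1) * (S.image F).card := by
    refine Finset.card_le_mul_card_image S _ fun v _ => ?_
    exact M.fiber H hW S F n p q (fun g hg => (hnpq g hg).1) (fun g hg => (hnpq g hg).2)
      (fun g _ => rfl) (fun g hg => (hSm g hg).2) v
  have h2 : S.image F ⊆ Finset.Icc (-(L : ℤ) - 1) L := by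
    intro v hv
    obtain ⟨g, hg, rfl⟩ := Finset.mem_image.1 hv
    have h3 := M.fc H (hnpq g hg).1 (hnpq g hg).2
    have hn' : (0 : ℝ) < n g := Int.cast_pos.2 (hnpq g hg).1
    have h4 := (hSm g hg).2
    have h5 : |2 * (q g : ℝ) / n g| ≤ 4 * X / h g₂ := by
      rw [abs_div, abs_mul, abs_of_pos (two_pos), abs_of_pos hn', div_le_div_iff₀ hn' hp2]
      nlinarith
    have h6 : 4 * X / h g₂ < L + 1 := Nat.lt_floor_add_one _
    have h7 := abs_le.1 h5
    rw [Finset.mem_Icc]
    constructor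
    · rw [hF]
      simp only
      rw [Int.le_floor]
      push_cast
      linarith
    · rw [hF]
      simp only
      rw [← Int.lt_add_one_iff, Int.floor_lt]
      push_cast
      linarith
  have h3 : (S.image F).card ≤ 2 * L + 2 := by
    refine (Finset.card_le_card h2).trans ?_
    rw [Int.card_Icc]
    omega
  have h4 : (S.card : ℝ) ≤ W * (2 * R + 1) * (2 * L + 2) := by
    have := h1.trans (Nat.mul_le_mul_left _ h3)
    exact_mod_cast this
  have h5 : (R : ℝ) * h g₁ ≤ 2 * X := by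
    rw [← le_div_iff₀ hp1]
    exact Nat.floor_le (by positivity)
  have h6 : (L : ℝ) * h g₂ ≤ 4 * X := by
    rw [← le_div_iff₀ hp2]
    exact Nat.floor_le (by positivity)
  have h7 : (2 * (R : ℝ) + 1) * h g₁ ≤ 5 * X := by nlinarith
  have h8 : (2 * (L : ℝ) + 2) * h g₂ ≤ 10 * X := by nlinarith
  have h9 : ((2 * (R : ℝ) + 1) * h g₁) * ((2 * (L : ℝ) + 2) * h g₂) ≤ (5 * X) * (10 * X) :=
    mul_le_mul h7 h8 (by positivity) (by positivity)
  have h10 : (W : ℝ) * (((2 * (R : ℝ) + 1) * h g₁) * ((2 * (L : ℝ) + 2) * h g₂)) ≤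
      W * ((5 * X) * (10 * X)) := mul_le_mul_of_nonneg_left h9 (Nat.cast_nonneg W)
  have h11 : (S.card : ℝ) * (h g₁ * h g₂) ≤
      (W * (2 * R + 1) * (2 * L + 2)) * (h g₁ * h g₂) :=
    mul_le_mul_of_nonneg_right h4 (by positivity)
  nlinarith

/-- the number of elements of small height in a group of rank two -/
private theorem ct_main (H : CtH h) {a b : A} (hab : CtI a b) {W : ℕ}
    (hW : Set.ncard {g : A | h g = 0} ≤ W) :
    ∃ g₁ g₂ : A, CtI g₁ g₂ ∧ ∀ X : ℝ, h a ≤ X → h b ≤ X →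
      (Set.ncard {g : A | CtG a b g ∧ h g ≤ X} : ℝ) * (h g₁ * h g₂) ≤ 50 * W * X ^ 2 := by
  obtain ⟨g₁, ⟨hg1, hg1'⟩, m1⟩ := ct_min H (S := {g | CtG a b g ∧ h g ≠ 0})
    ⟨a, ctG_left a b, ctI_left H hab⟩
  have hor := ctI_or H hab hg1 hg1'
  obtain ⟨g₂, ⟨hg2, hg2'⟩, m2⟩ := ct_min H (S := {g | CtG a b g ∧ CtI g₁ g}) (by
    rcases hor with h1 | h1
    · exact ⟨a, ctG_left a b, h1⟩
    · exact ⟨b, ctG_right a b, h1⟩)
  have hsub : ∀ g, CtG a b g → CtG g₁ g₂ g := fun g hg => ctG_change hg2' hg1 hg2 hg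
  have hsub' : ∀ g, CtG g₁ g₂ g → CtG a b g := by
    rintro g ⟨n, p, q, hn, e⟩
    have h1 := ctG_add (ctG_zsmul hg1 p) (ctG_zsmul hg2 q)
    rw [← e] at h1
    obtain ⟨n', p', q', hn', e'⟩ := h1
    refine ⟨n' * n, p', q', mul_pos hn' hn, ?_⟩
    rw [mul_smul, e']
  have M : CtM h g₁ g₂ := ⟨hg2', fun g hg h0 => m1 g ⟨hsub' g hg, h0⟩,
    fun g hg hi => m2 g ⟨hsub' g hg, hi⟩⟩
  refine ⟨g₁, g₂, hg2', fun X ha hb => ?_⟩
  have hX : h g₂ ≤ X := by
    rcases hor with h1 | h1
    · exact (m2 a ⟨ctG_left a b, h1⟩).trans ha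
    · exact (m2 b ⟨ctG_right a b, h1⟩).trans hb
  have he : {g : A | CtG a b g ∧ h g ≤ X} = {g : A | CtG g₁ g₂ g ∧ h g ≤ X} := by
    ext g
    exact ⟨fun hg => ⟨hsub g hg.1, hg.2⟩, fun hg => ⟨hsub' g hg.1, hg.2⟩⟩
  rw [he]
  exact M.count H hW hX

end Abs

/-! ### Number fields -/

section Fld

private theorem ctI_or' {A : Type} [AddCommGroup A] {h : A → ℝ} (H : CtH h) {a b c : A}
    (hbc : CtI b c) (ha : h a ≠ 0) : CtI a b ∨ CtI a c := by
  by_contra hcon
  rw [not_or] at hcon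
  obtain ⟨h1, h2⟩ := hcon
  unfold CtI at h1 h2
  push Not at h1 h2
  obtain ⟨m, n, e, hmn⟩ := h1
  obtain ⟨m', n', e', hmn'⟩ := h2
  have hm : m ≠ 0 := by
    rintro rfl
    refine hmn rfl (hbc n 0 ?_).1
    rw [← e]
    module
  have hm' : m' ≠ 0 := by
    rintro rfl
    refine hmn' rfl (hbc 0 n' ?_).2
    rw [← e']
    module
  have h3 := hbc (m' * n) (-(m * n')) (by
    have h4 : (m' * n) • b + (-(m * n')) • c =
        m' • (m • a + n • b) - m • (m' • a + n' • c) := by module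
    rw [h4, e, e', smul_zero, smul_zero, sub_zero])
  have hn : n = 0 := by
    rcases mul_eq_zero.1 h3.1 with h4 | h4
    · exact absurd h4 hm'
    · exact h4
  rw [hn, zero_smul, add_zero] at e
  exact ha (H.zero hm e)

variable {K : Type} [Field K] [NumberField K]

private noncomputable def kh (g : Additive Kˣ) : ℝ := logHeight₁ ((Additive.toMul g : Kˣ) : K)

omit [NumberField K] in
private theorem ki_iff (g g' : Additive Kˣ) (m n : ℤ) : m • g + n • g' = 0 ↔
    ((Additive.toMul g : Kˣ) : K) ^ m * ((Additive.toMul g' : Kˣ) : K) ^ n = 1 := by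
  rw [← toMul_eq_one, toMul_add, toMul_zsmul, toMul_zsmul, Units.ext_iff, Units.val_mul,
    Units.val_zpow_eq_zpow_val, Units.val_zpow_eq_zpow_val, Units.val_one]

private theorem kh_H : CtH (kh (K := K)) where
  zs n g := by
    unfold kh
    rw [toMul_zsmul, Units.val_zpow_eq_zpow_val, logHeight₁_zpow, Nat.cast_natAbs, Int.cast_abs]
  add g g' := by
    unfold kh
    rw [toMul_add, Units.val_mul]
    exact logHeight₁_mul_le _ _
  nn g := zero_le_logHeight₁ _
  tors g h0 := by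
    obtain ⟨m, hm, h1⟩ := Pool.Agent.CITNF.torsion_of_height_zero _
      (Units.ne_zero (Additive.toMul g : Kˣ)) h0
    refine ⟨m, by exact_mod_cast hm, ?_⟩
    have h2 := (ki_iff g g (m : ℤ) 0).2 (by
      rw [zpow_zero, mul_one, zpow_natCast]
      exact h1)
    rwa [zero_smul, add_zero] at h2
  fin B := by
    have h1 := NumberField.finite_setOfPred_logHeight₁_le K B
    refine h1.preimage (f := fun g : Additive Kˣ => ((Additive.toMul g : Kˣ) : K)) ?_
    intro g _ g' _ hgg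
    exact Additive.toMul.injective (Units.ext hgg)

private theorem kh_tors : Set.ncard {g : Additive Kˣ | kh g = 0} ≤ Units.torsionOrder K := by
  classical
  have hw : 0 < Units.torsionOrder K := Units.torsionOrder_pos K
  have h1 : Set.ncard {g : Additive Kˣ | kh g = 0} ≤
      Set.ncard (Polynomial.nthRootsFinset (Units.torsionOrder K) (1 : K) : Set K) := by
    refine Set.ncard_le_ncard_of_injOn
      (fun g : Additive Kˣ => ((Additive.toMul g : Kˣ) : K)) ?_ ?_ (Finset.finite_toSet _)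
    · intro g hg
      obtain ⟨m, hm, h2⟩ := Pool.Agent.CITNF.torsion_of_height_zero _
        (Units.ne_zero (Additive.toMul g : Kˣ)) hg
      rw [Finset.mem_coe, Polynomial.mem_nthRootsFinset hw]
      have h3 : 0 < orderOf ((Additive.toMul g : Kˣ) : K) :=
        orderOf_pos_iff.2 (isOfFinOrder_iff_pow_eq_one.2 ⟨m, hm, h2⟩)
      have : NeZero (orderOf ((Additive.toMul g : Kˣ) : K)) := ⟨h3.ne'⟩
      have h4 := Units.dvd_torsionOrder_of_isPrimitiveRoot
        (IsPrimitiveRoot.orderOf ((Additive.toMul g : Kˣ) : K))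
      exact orderOf_dvd_iff_pow_eq_one.1 h4
    · intro g _ g' _ hgg
      exact Additive.toMul.injective (Units.ext hgg)
  refine h1.trans ?_
  rw [Set.ncard_coe_finset]
  unfold Polynomial.nthRootsFinset
  exact (Multiset.toFinset_card_le _).trans (Polynomial.card_nthRoots _ _)

private theorem kh_le (x : Kˣ) (hx : (x : K) = 2 ∨ (x : K) = 3) :
    kh (Additive.ofMul x) ≤ 2 * finrank ℚ K := by
  have hd : (0 : ℝ) < finrank ℚ K := by exact_mod_cast finrank_pos
  have hlog : Real.log 2 < 1 := by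
    have := Real.log_two_lt_d9
    linarith
  have h2 : logHeight₁ (2 : K) ≤ finrank ℚ K * Real.log 2 := by
    have h1 := logHeight₁_add_le (1 : K) 1
    rw [NumberField.totalWeight_eq_finrank, logHeight₁_one, add_zero, add_zero] at h1
    have e : (1 : K) + 1 = 2 := by norm_num
    rwa [e] at h1
  have h3 : logHeight₁ (3 : K) ≤ 2 * (finrank ℚ K * Real.log 2) := by
    have h1 := logHeight₁_add_le (2 : K) 1
    rw [NumberField.totalWeight_eq_finrank, logHeight₁_one, add_zero] at h1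
    have e : (2 : K) + 1 = 3 := by norm_num
    rw [e] at h1
    linarith
  have h4 : (finrank ℚ K : ℝ) * Real.log 2 ≤ finrank ℚ K := by nlinarith
  unfold kh
  rw [toMul_ofMul]
  rcases hx with hx | hx
  · rw [hx]
    linarith
  · rw [hx]
    linarith

private theorem k23 (x y : Kˣ) (hx : (x : K) = 2) (hy : (y : K) = 3) :
    CtI (Additive.ofMul x) (Additive.ofMul y) := by
  intro m n h
  rw [ki_iff, toMul_ofMul, toMul_ofMul, hx, hy] at h
  have h1 : (2 : ℚ) ^ m * 3 ^ n = 1 := by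
    apply (algebraMap ℚ K).injective
    rw [map_mul, map_zpow₀, map_zpow₀, map_one, map_ofNat, map_ofNat]
    exact h
  have p2 : Fact (Nat.Prime 2) := ⟨by norm_num⟩
  have p3 : Fact (Nat.Prime 3) := ⟨by norm_num⟩
  have z2 : (2 : ℚ) ^ m ≠ 0 := zpow_ne_zero _ (by norm_num)
  have z3 : (3 : ℚ) ^ n ≠ 0 := zpow_ne_zero _ (by norm_num)
  have e2 : padicValRat 2 (2 : ℚ) = 1 := by
    have := padicValRat.self (p := 2) (by norm_num)
    simpa using this
  have e3 : padicValRat 3 (3 : ℚ) = 1 := by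
    have := padicValRat.self (p := 3) (by norm_num)
    simpa using this
  have e23 : padicValRat 2 (3 : ℚ) = 0 := by
    have h2 := padicValRat.of_nat (p := 2) (n := 3)
    rw [padicValNat.eq_zero_of_not_dvd (by norm_num)] at h2
    simpa using h2
  have e32 : padicValRat 3 (2 : ℚ) = 0 := by
    have h2 := padicValRat.of_nat (p := 3) (n := 2)
    rw [padicValNat.eq_zero_of_not_dvd (by norm_num)] at h2
    simpa using h2
  constructor
  · have h2 := congrArg (padicValRat 2) h1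
    rw [padicValRat.mul z2 z3, padicValRat.zpow, padicValRat.zpow, e2, e23, padicValRat.one] at h2
    omega
  · have h2 := congrArg (padicValRat 3) h1
    rw [padicValRat.mul z2 z3, padicValRat.zpow, padicValRat.zpow, e3, e32, padicValRat.one] at h2
    omega

/-! ### The counting theorems -/

omit [NumberField K] in
private theorem rk_three {a b g : Kˣ} (h : ∃ c : Fin 3 → ℤ, c ≠ 0 ∧
    ∏ j, (![a, b, g] j) ^ c j = 1) (hi : CtI (Additive.ofMul a) (Additive.ofMul b)) :
    CtG (Additive.ofMul a) (Additive.ofMul b) (Additive.ofMul g) := by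
  obtain ⟨c, hc0, hc⟩ := h
  rw [Fin.prod_univ_three] at hc
  simp only [Matrix.cons_val_zero, Matrix.cons_val_one, Matrix.cons_val_two, Matrix.head_cons,
    Matrix.tail_cons] at hc
  have e : c 0 • Additive.ofMul a + c 1 • Additive.ofMul b + c 2 • Additive.ofMul g = 0 := by
    rw [← ofMul_zpow, ← ofMul_zpow, ← ofMul_zpow, ← ofMul_mul, ← ofMul_mul, hc, ofMul_one]
  by_cases h2 : c 2 = 0
  · exfalso
    rw [h2, zero_smul, add_zero] at e
    obtain ⟨h0, h1⟩ := hi _ _ e
    apply hc0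
    funext j
    fin_cases j
    · exact h0
    · exact h1
    · exact h2
  · refine ctG_of (n := c 2) (p := -c 0) (q := -c 1) h2 ?_
    have h3 : c 2 • Additive.ofMul g = (c 0 • Additive.ofMul a + c 1 • Additive.ofMul b +
        c 2 • Additive.ofMul g) + ((-c 0) • Additive.ofMul a + (-c 1) • Additive.ofMul b) := by
      module
    rw [h3, e, zero_add]

end Fld

/-- Counting in groups of rank at most two, from the two-dimensional Lehmer bound. -/
theorem countG_two (leh : ∀ ε : ℝ, 0 < ε → ∃ c : ℝ, 0 < c ∧ ∀ (K : Type) [Field K] [NumberField K]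
    (a b : K), a ≠ 0 → b ≠ 0 → (∀ m n : ℤ, a ^ m * b ^ n = 1 → m = 0 ∧ n = 0) →
    c * NumberField.Units.torsionOrder K * (finrank ℚ K : ℝ) ^ (1 - ε) ≤
      logHeight₁ a * logHeight₁ b) : CountG 2 := by
  classical
  intro ε hε
  obtain ⟨c, hc, hleh⟩ := leh ε hε
  refine ⟨200 / c, by positivity, ?_⟩
  intro K _ _ G hdep X hX S hSG hSX
  have hd : (0 : ℝ) < finrank ℚ K := by exact_mod_cast finrank_pos
  set D : ℝ := (finrank ℚ K : ℝ) with hD
  have H := kh_H (K := K)
  set Y : ℝ := 2 * X * D with hY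
  have hXY : X * D ≤ Y := by
    rw [hY]
    nlinarith [mul_pos (lt_of_lt_of_le one_pos hX) hd]
  have h2Y : 2 * D ≤ Y := by
    rw [hY]
    nlinarith
  -- two independent elements of small height which generate everything
  obtain ⟨a, b, hab, ha, hb, hG⟩ : ∃ a b : Additive Kˣ, CtI a b ∧ kh a ≤ Y ∧ kh b ≤ Y ∧
      ∀ g ∈ S, CtG a b (Additive.ofMul g) := by
    have t2 : (2 : K) ≠ 0 := two_ne_zero
    have t3 : (3 : K) ≠ 0 := three_ne_zero
    have i23 := k23 (K := K) (Units.mk0 2 t2) (Units.mk0 3 t3) rfl rfl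
    have l2 := kh_le (K := K) (Units.mk0 2 t2) (Or.inl rfl)
    have l3 := kh_le (K := K) (Units.mk0 3 t3) (Or.inr rfl)
    by_cases h1 : ∃ a ∈ S, ∃ b ∈ S, CtI (Additive.ofMul a) (Additive.ofMul b)
    · obtain ⟨a, ha, b, hb, hab⟩ := h1
      refine ⟨_, _, hab, (hSX a ha).trans hXY, (hSX b hb).trans hXY, fun g hg => ?_⟩
      refine rk_three (hdep ![a, b, g] fun j => ?_) hab
      fin_cases j
      · exact hSG a ha
      · exact hSG b hb
      · exact hSG g hg
    · push Not at h1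
      by_cases h2 : ∃ a ∈ S, kh (Additive.ofMul a) ≠ 0
      · obtain ⟨a, ha, ha0⟩ := h2
        obtain ⟨b, hab, hb⟩ : ∃ b : Additive Kˣ, CtI (Additive.ofMul a) b ∧ kh b ≤ Y := by
          rcases ctI_or' H i23 ha0 with h3 | h3
          · exact ⟨_, h3, l2.trans h2Y⟩
          · exact ⟨_, h3, l3.trans h2Y⟩
        refine ⟨_, b, hab, (hSX a ha).trans hXY, hb, fun g hg => ?_⟩
        have h3 := h1 a ha g hg
        unfold CtI at h3
        push Not at h3
        obtain ⟨m, n, e, hmn⟩ := h3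
        have hn : n ≠ 0 := by
          intro h0
          rw [h0, zero_smul, add_zero] at e
          by_cases hm : m = 0
          · exact hmn hm h0
          · exact ha0 (H.zero hm e)
        refine ctG_of (n := n) (p := -m) (q := 0) hn ?_
        have h4 : n • Additive.ofMul g = (m • Additive.ofMul a + n • Additive.ofMul g) +
            ((-m) • Additive.ofMul a + (0 : ℤ) • b) := by module
        rw [h4, e, zero_add]
      · push Not at h2
        refine ⟨_, _, i23, l2.trans h2Y, l3.trans h2Y, fun g hg => ?_⟩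
        obtain ⟨n, hn, e⟩ := H.tors _ (h2 g hg)
        exact ⟨n, 0, 0, hn, by rw [e]; module⟩
  obtain ⟨g₁, g₂, hI, hcount⟩ := ct_main H hab (kh_tors (K := K))
  have h1 := hcount Y ha hb
  have hfin : {g : Additive Kˣ | CtG a b g ∧ kh g ≤ Y}.Finite :=
    (H.fin Y).subset fun g hg => hg.2
  have h2 : S.card ≤ Set.ncard {g : Additive Kˣ | CtG a b g ∧ kh g ≤ Y} := by
    rw [← Finset.card_image_of_injective S Additive.ofMul.injective, ← Set.ncard_coe_finset]
    refine Set.ncard_le_ncard ?_ hfin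
    intro g hg
    rw [Finset.mem_coe, Finset.mem_image] at hg
    obtain ⟨g, hg, rfl⟩ := hg
    exact ⟨hG g hg, (hSX g hg).trans hXY⟩
  have h3 := hleh K ((Additive.toMul g₁ : Kˣ) : K) ((Additive.toMul g₂ : Kˣ) : K)
    (Units.ne_zero _) (Units.ne_zero _) fun m n hmn => hI m n ((ki_iff g₁ g₂ m n).2 hmn)
  have hw : (0 : ℝ) < Units.torsionOrder K := by exact_mod_cast Units.torsionOrder_pos K
  set w : ℝ := (Units.torsionOrder K : ℝ) with hwd
  set M : ℝ := (Set.ncard {g : Additive Kˣ | CtG a b g ∧ kh g ≤ Y} : ℝ) with hM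
  have hM0 : 0 ≤ M := Nat.cast_nonneg _
  have h4 : M * (c * w * D ^ (1 - ε)) ≤ 50 * w * Y ^ 2 :=
    (mul_le_mul_of_nonneg_left h3 hM0).trans h1
  have hp1 : (0 : ℝ) < D ^ (1 - ε) := Real.rpow_pos_of_pos hd _
  have hp2 : D ^ (1 - ε) * D ^ (1 + ε) = D ^ 2 := by
    rw [← Real.rpow_add hd, ← Real.rpow_natCast]
    congr 1
    push_cast
    ring
  have h5 : M ≤ 200 / c * X ^ 2 * D ^ (1 + ε) := by
    have h6 : M * (c * w * D ^ (1 - ε)) ≤
        (200 / c * X ^ 2 * D ^ (1 + ε)) * (c * w * D ^ (1 - ε)) := by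
      refine h4.trans (le_of_eq ?_)
      have h7 : (200 / c * X ^ 2 * D ^ (1 + ε)) * (c * w * D ^ (1 - ε)) =
          200 * X ^ 2 * w * (D ^ (1 - ε) * D ^ (1 + ε)) := by
        field_simp
      rw [h7, hp2, hY]
      ring
    exact le_of_mul_le_mul_right h6 (by positivity)
  refine le_trans ?_ h5
  rw [hM]
  exact_mod_cast h2

/-- Counting in groups of rank at most one, from the one-dimensional Lehmer bound. -/
theorem countG_one (leh : ∀ ε : ℝ, 0 < ε → ∃ c : ℝ, 0 < c ∧ ∀ (K : Type) [Field K] [NumberField K]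
    (a : K), a ≠ 0 → (∀ n : ℕ, 0 < n → a ^ n ≠ 1) →
    c * NumberField.Units.torsionOrder K * (finrank ℚ K : ℝ) ^ (-ε) ≤ logHeight₁ a) :
    CountG 1 := by
  classical
  intro ε hε
  obtain ⟨c, hc, hleh⟩ := leh ε hε
  refine ⟨4 / c, by positivity, ?_⟩
  intro K _ _ G hdep X hX S hSG hSX
  have hd : (0 : ℝ) < finrank ℚ K := by exact_mod_cast finrank_pos
  set D : ℝ := (finrank ℚ K : ℝ) with hD
  have H := kh_H (K := K)
  have hw : (0 : ℝ) < Units.torsionOrder K := by exact_mod_cast Units.torsionOrder_pos K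
  set w : ℝ := (Units.torsionOrder K : ℝ) with hwd
  have hfin0 : {g : Additive Kˣ | kh g = 0}.Finite := (H.fin 0).subset fun g hg => (le_of_eq hg)
  have hlow : ∀ g : Additive Kˣ, kh g ≠ 0 → c * w * D ^ (-ε) ≤ kh g := by
    intro g hg
    refine hleh K ((Additive.toMul g : Kˣ) : K) (Units.ne_zero _) fun n hn h1 => hg ?_
    refine H.zero (n := n) (by exact_mod_cast hn.ne') ?_
    have h2 := (ki_iff g g (n : ℤ) 0).2 (by
      rw [zpow_zero, mul_one, zpow_natCast]
      exact h1)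
    rwa [zero_smul, add_zero] at h2
  have hp1 : (0 : ℝ) < D ^ (-ε) := Real.rpow_pos_of_pos hd _
  have hp2 : D ^ (-ε) * D ^ (1 + ε) = D := by
    rw [← Real.rpow_add hd]
    have : -ε + (1 + ε) = 1 := by ring
    rw [this, Real.rpow_one]
  have hp3 : (0 : ℝ) < D ^ (1 + ε) := Real.rpow_pos_of_pos hd _
  -- the number of roots of unity
  have hwle : w ≤ 2 / c * D ^ (1 + ε) := by
    have t2 : (2 : K) ≠ 0 := two_ne_zero
    have t3 : (3 : K) ≠ 0 := three_ne_zero
    have i23 := k23 (K := K) (Units.mk0 2 t2) (Units.mk0 3 t3) rfl rfl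
    have l2 := kh_le (K := K) (Units.mk0 2 t2) (Or.inl rfl)
    have h1 := hlow _ (ctI_left H i23)
    have h2 : (c * w * D ^ (-ε)) * D ^ (1 + ε) ≤ (2 * D) * D ^ (1 + ε) :=
      mul_le_mul_of_nonneg_right (h1.trans l2) hp3.le
    have h3 : (c * w * D ^ (-ε)) * D ^ (1 + ε) = c * w * D := by rw [mul_assoc, hp2]
    rw [h3] at h2
    have h4 : c * w ≤ 2 * D ^ (1 + ε) := by
      have h5 : (c * w) * D ≤ (2 * D ^ (1 + ε)) * D := by linarith
      exact le_of_mul_le_mul_right h5 hd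
    rw [div_mul_eq_mul_div, le_div_iff₀ hc]
    linarith
  have hX0 : 0 < X := by linarith
  have hD1 : (0 : ℝ) ≤ 2 / c * D ^ (1 + ε) := by positivity
  have hgoal : 2 / c * D ^ (1 + ε) + 2 / c * X * D ^ (1 + ε) ≤ 4 / c * X ^ 1 * D ^ (1 + ε) := by
    rw [pow_one]
    have h1 : 2 / c * D ^ (1 + ε) * 1 ≤ 2 / c * D ^ (1 + ε) * X := by gcongr
    have h2 : 4 / c * X * D ^ (1 + ε) = 2 * (2 / c * D ^ (1 + ε) * X) := by ring
    rw [h2]
    linarith
  have htors : ∀ T : Finset (Additive Kˣ), (∀ g ∈ T, kh g = 0) → (T.card : ℝ) ≤ w := by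
    intro T hT
    have h1 : T.card ≤ Set.ncard {g : Additive Kˣ | kh g = 0} := by
      rw [← Set.ncard_coe_finset]
      exact Set.ncard_le_ncard (fun g hg => hT g hg) hfin0
    have h2 := h1.trans (kh_tors (K := K))
    rw [hwd]
    exact_mod_cast h2
  by_cases h2 : ∃ a ∈ G, kh (Additive.ofMul a) ≠ 0
  · obtain ⟨g₁, ⟨⟨a, haG, rfl⟩, ha0⟩, hmin⟩ := ct_min H
      (S := {g | (∃ a ∈ G, Additive.ofMul a = g) ∧ kh g ≠ 0}) (by
        obtain ⟨a, ha, ha0⟩ := h2
        exact ⟨Additive.ofMul a, ⟨a, ha, rfl⟩, ha0⟩)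
    set g₁ := Additive.ofMul a with hg₁
    have hpos : 0 < kh g₁ := lt_of_le_of_ne (H.nn _) (Ne.symm ha0)
    -- the representation of the elements
    have hrep : ∀ g ∈ S, ∃ t : ℤ, kh (Additive.ofMul g - t • g₁) = 0 := by
      intro g hg
      obtain ⟨c', hc0, hc'⟩ := hdep ![a, g] (fun j => by
        fin_cases j
        · exact haG
        · exact hSG g hg)
      rw [Fin.prod_univ_two] at hc'
      simp only [Matrix.cons_val_zero, Matrix.cons_val_one] at hc'
      have e : c' 0 • g₁ + c' 1 • Additive.ofMul g = 0 := by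
        rw [hg₁, ← ofMul_zpow, ← ofMul_zpow, ← ofMul_mul, hc', ofMul_one]
      have h1 : c' 1 ≠ 0 := by
        intro h0
        rw [h0, zero_smul, add_zero] at e
        by_cases h3 : c' 0 = 0
        · apply hc0
          funext j
          fin_cases j
          · exact h3
          · exact h0
        · exact ha0 (H.zero h3 e)
      obtain ⟨t, ht⟩ := ct_near (-c' 0) (c' 1) h1
      refine ⟨t, ?_⟩
      by_contra hne
      have h3 := hmin (Additive.ofMul g - t • g₁) ⟨⟨g / a ^ t, G.div_mem (hSG g hg)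
        (G.zpow_mem haG t), by rw [hg₁, ← ofMul_zpow, ← ofMul_div]⟩, hne⟩
      have h4 : c' 1 • (Additive.ofMul g - t • g₁) = (-c' 0 - c' 1 * t) • g₁ := by
        have h5 : c' 1 • (Additive.ofMul g - t • g₁) = (c' 0 • g₁ + c' 1 • Additive.ofMul g) +
            (-c' 0 - c' 1 * t) • g₁ := by module
        rw [h5, e, zero_add]
      have h6 := congrArg kh h4
      rw [H.zs, H.zs] at h6
      have h7 : (0 : ℝ) < |((c' 1 : ℤ) : ℝ)| := abs_pos.2 (Int.cast_ne_zero.2 h1)
      nlinarith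
    choose! t ht using hrep
    have hts : ∀ g ∈ S, |((t g : ℤ) : ℝ)| * kh g₁ ≤ X * D := by
      intro g hg
      rw [← H.zs]
      have h3 : t g • g₁ = Additive.ofMul g - (Additive.ofMul g - t g • g₁) := by module
      rw [h3]
      refine (H.sub _ _).trans ?_
      rw [ht g hg, add_zero]
      exact hSX g hg
    set R : ℕ := ⌊X * D / kh g₁⌋₊ with hR
    have hfib : ∀ v : ℤ, (({g ∈ S | t g = v} : Finset Kˣ).card : ℝ) ≤ w := by
      intro v
      have h3 := htors (({g ∈ S | t g = v} : Finset Kˣ).image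
        fun g => Additive.ofMul g - v • g₁) (by
          intro g hg
          rw [Finset.mem_image] at hg
          obtain ⟨g, hg, rfl⟩ := hg
          rw [Finset.mem_filter] at hg
          rw [← hg.2]
          exact ht g hg.1)
      rwa [Finset.card_image_of_injective] at h3
      intro g g' hgg
      exact Additive.ofMul.injective (sub_left_injective hgg)
    have himg : S.image t ⊆ Finset.Icc (-(R : ℤ)) R := by
      intro v hv
      obtain ⟨g, hg, rfl⟩ := Finset.mem_image.1 hv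
      have h3 : |((t g : ℤ) : ℝ)| ≤ X * D / kh g₁ := by
        rw [le_div_iff₀ hpos]
        exact hts g hg
      have h4 : ((t g).natAbs : ℝ) ≤ X * D / kh g₁ := by
        rw [Nat.cast_natAbs]
        push_cast
        exact h3
      have h5 : (t g).natAbs ≤ R := Nat.le_floor h4
      rw [Finset.mem_Icc]
      omega
    have h3 : (S.card : ℝ) ≤ (2 * R + 1) * w := by
      have h4 : S.card = ∑ v ∈ S.image t, ({g ∈ S | t g = v} : Finset Kˣ).card :=
        Finset.card_eq_sum_card_image t S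
      rw [h4]
      push_cast
      refine (Finset.sum_le_card_nsmul _ _ w fun v _ => hfib v).trans ?_
      rw [nsmul_eq_mul]
      apply mul_le_mul_of_nonneg_right _ hw.le
      have h5 := Finset.card_le_card himg
      rw [Int.card_Icc] at h5
      have h6 : (S.image t).card ≤ 2 * R + 1 := by omega
      exact_mod_cast h6
    have h4 : (R : ℝ) * kh g₁ ≤ X * D := by
      rw [← le_div_iff₀ hpos]
      exact Nat.floor_le (by positivity)
    have h5 : (R : ℝ) * w ≤ 1 / c * X * D ^ (1 + ε) := by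
      have h6 := hlow g₁ ha0
      have h7 : (R : ℝ) * (c * w * D ^ (-ε)) ≤ X * D :=
        (mul_le_mul_of_nonneg_left h6 (Nat.cast_nonneg _)).trans h4
      have h8 : ((R : ℝ) * w) * (c * D ^ (-ε)) ≤ (1 / c * X * D ^ (1 + ε)) * (c * D ^ (-ε)) := by
        have h9 : (1 / c * X * D ^ (1 + ε)) * (c * D ^ (-ε)) =
            X * (D ^ (-ε) * D ^ (1 + ε)) := by
          field_simp
        rw [h9, hp2]
        linarith
      exact le_of_mul_le_mul_right h8 (by positivity)
    refine le_trans ?_ hgoal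
    have h6 : 2 / c * X * D ^ (1 + ε) = 2 * (1 / c * X * D ^ (1 + ε)) := by ring
    rw [h6]
    linarith
  · push Not at h2
    have h3 := htors (S.image Additive.ofMul) (by
      intro g hg
      obtain ⟨g', hg', rfl⟩ := Finset.mem_image.1 hg
      exact h2 g' (hSG g' hg'))
    rw [Finset.card_image_of_injective _ Additive.ofMul.injective] at h3
    refine le_trans ?_ hgoal
    have h4 : 0 ≤ 2 / c * X * D ^ (1 + ε) := by positivity
    linarith

end Pool.Agent.RelC
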