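import Pool.Agent.RelC.Alg

set_option autoImplicit false

/-! Pairs of points of the line of total rank at most one. -/

namespace Pool.Agent.RelC

open NumberField Height Real Module Pool.Agent.LThree

/-- The relation with exponents `a, c` of the coordinates and `b, d` of the complements. -/
private def vec (a b c d : ℤ) : Fin 2 ⊕ Fin 2 → ℤ := Sum.elim ![a, c] ![b, d]

private theorem mono_vec {K : Type} [Field K] (x : Fin 2 → K) (a b c d : ℤ) :
    mono (co x) (vec a b c d) = x 0 ^ a * (1 - x 0) ^ b * (x 1 ^ c * (1 - x 1) ^ d) := by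
  unfold mono co vec
  rw [Fintype.prod_sum_type, Fin.prod_univ_two, Fin.prod_univ_two]
  simp only [Sum.elim_inl, Sum.elim_inr, Matrix.cons_val_zero, Matrix.cons_val_one]
  ring

private theorem vec_ne {a b c d : ℤ} (h : a ≠ 0 ∨ b ≠ 0 ∨ c ≠ 0 ∨ d ≠ 0) : vec a b c d ≠ 0 := by
  intro h0
  have h1 := congrFun h0 (Sum.inl 0)
  have h2 := congrFun h0 (Sum.inr 0)
  have h3 := congrFun h0 (Sum.inl 1)
  have h4 := congrFun h0 (Sum.inr 1)
  simp [vec] at h1 h2 h3 h4
  tauto

private def pairList : Finset (Fin 2 ⊕ Fin 2 → ℤ) :=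
  {vec 1 0 (-1) 0, vec 0 1 (-1) 0, vec 1 0 1 0, vec 0 1 1 0, vec 0 1 0 1, vec 1 0 0 1,
    vec 6 0 0 0, vec 0 0 6 0}

private theorem pairList_zero : (0 : Fin 2 ⊕ Fin 2 → ℤ) ∉ pairList := by
  classical
  intro h
  simp only [pairList, Finset.mem_insert, Finset.mem_singleton] at h
  rcases h with h | h | h | h | h | h | h | h <;> exact vec_ne (by norm_num) h.symm

private theorem pairList_of_eqv {K : Type} [Field K] (x : Fin 2 → K) (h0 : ∀ i, x i ≠ 0)
    (h1 : ∀ i, x i ≠ 1) (h : Eqv (x 0) (x 1)) : ∃ w ∈ pairList, mono (co x) w = 1 := by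
  have hx : x 0 ≠ 0 := h0 0
  have hy : x 1 ≠ 0 := h0 1
  have hx1 : 1 - x 0 ≠ 0 := sub_ne_zero.2 (Ne.symm (h1 0))
  have hx1' : x 0 - 1 ≠ 0 := sub_ne_zero.2 (h1 0)
  unfold Eqv at h
  rcases h with h | h | h | h | h | h
  · refine ⟨vec 1 0 (-1) 0, by simp [pairList], ?_⟩
    rw [mono_vec, h]
    simp [hx]
  · refine ⟨vec 0 1 (-1) 0, by simp [pairList], ?_⟩
    rw [mono_vec, h]
    simp [hx1]
  · refine ⟨vec 1 0 1 0, by simp [pairList], ?_⟩
    rw [mono_vec, h]
    simp [hx]
  · refine ⟨vec 0 1 1 0, by simp [pairList], ?_⟩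
    rw [mono_vec, h]
    simp [hx1]
  · refine ⟨vec 0 1 0 1, by simp [pairList], ?_⟩
    rw [mono_vec, h]
    simp only [zpow_zero, zpow_one, one_mul]
    field_simp
    ring
  · refine ⟨vec 1 0 0 1, by simp [pairList], ?_⟩
    rw [mono_vec, h]
    simp only [zpow_zero, zpow_one, one_mul, mul_one]
    field_simp
    ring

theorem genericList_two : GenericList 2 pairList := by
  intro Ω _ _ ξ h0 h1 htr u hind hu
  have hu' : u = ![u 0, u 1] := by
    funext j
    fin_cases j <;> rfl
  rw [hu'] at hind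
  rcases ff_pair ξ h0 h1 htr (u 0) (u 1) hind (hu 0) (hu 1) with h | h | h | h
  · exact pairList_of_eqv ξ h0 h1 h
  · -- the symmetric case
    have hs : Eqv (ξ 0) (ξ 1) := by
      have hx : ξ 0 ≠ 0 := h0 0
      have hy : ξ 1 ≠ 0 := h0 1
      have hy1 : 1 - ξ 1 ≠ 0 := sub_ne_zero.2 (Ne.symm (h1 1))
      have hy1' : ξ 1 - 1 ≠ 0 := sub_ne_zero.2 (h1 1)
      unfold Eqv at h ⊢
      rcases h with h | h | h | h | h | h
      · left; exact h.symm
      · right; left; rw [h]; ring
      · right; right; left; rw [h, inv_inv]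
      · right; right; right; right; right
        rw [h, eq_div_iff (inv_ne_zero hy1)]
        field_simp
        ring
      · right; right; right; right; left
        have h2 : ξ 1 / (ξ 1 - 1) - 1 ≠ 0 := by
          rw [div_sub_one hy1']
          exact div_ne_zero (by ring_nf; exact one_ne_zero) hy1'
        rw [h, eq_div_iff h2]
        field_simp
        ring
      · right; right; right; left
        rw [h]
        field_simp
        ring
    exact pairList_of_eqv ξ h0 h1 hs
  · refine ⟨vec 6 0 0 0, by simp [pairList], ?_⟩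
    rw [mono_vec]
    simp only [zpow_zero, mul_one]
    exact_mod_cast h
  · refine ⟨vec 0 0 6 0, by simp [pairList], ?_⟩
    rw [mono_vec]
    simp only [zpow_zero, mul_one, one_mul]
    exact_mod_cast h

/-- Passage to the field generated by the coordinates. -/
theorem rankLe_sub {K : Type} [Field K] [NumberField K] {F : IntermediateField ℚ K}
    {n k : ℕ} {x : Fin n → K} (y : Fin n → F) (hxy : ∀ i, (y i : K) = x i)
    (h : RankLe k (co x)) : RankLe k (co y) := by
  obtain ⟨U, hU, htor⟩ := h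
  refine ⟨U, hU, fun a ha => ?_⟩
  obtain ⟨m, hm, h1⟩ := htor a ha
  refine ⟨m, hm, ?_⟩
  apply Subtype.val_injective
  have h2 : ((mono (co y) a : F) : K) = mono (co x) a := by
    have h3 : ((mono (co y) a : F) : K) = F.val (mono (co y) a) := rfl
    rw [h3]
    unfold mono co
    rw [map_prod]
    refine Finset.prod_congr rfl fun i _ => ?_
    rw [map_zpow₀]
    rcases i with i | i
    · simp only [Sum.elim_inl]
      rw [← hxy]
      rfl
    · simp only [Sum.elim_inr, map_sub, map_one]
      rw [← hxy]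
      rfl
  change ((mono (co y) a : F) : K) ^ m = 1
  rw [h2, h1]

theorem mono_sub_field {K : Type} [Field K] [NumberField K] {F : IntermediateField ℚ K}
    {n : ℕ} {x : Fin n → K} (y : Fin n → F) (hxy : ∀ i, (y i : K) = x i)
    (a : Fin n ⊕ Fin n → ℤ) : ((mono (co y) a : F) : K) = mono (co x) a := by
  have h3 : ((mono (co y) a : F) : K) = F.val (mono (co y) a) := rfl
  rw [h3]
  unfold mono co
  rw [map_prod]
  refine Finset.prod_congr rfl fun i _ => ?_
  rw [map_zpow₀]
  rcases i with i | i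
  · simp only [Sum.elim_inl]
    rw [← hxy]
    rfl
  · simp only [Sum.elim_inr, map_sub, map_one]
    rw [← hxy]
    rfl

/-- The field generated by the coordinates is generated by the coordinates. -/
theorem adjoin_top {K : Type} [Field K] [NumberField K] {n : ℕ} (x : Fin n → K) :
    ∃ y : Fin n → IntermediateField.adjoin ℚ (Set.range x), (∀ i, (y i : K) = x i) ∧
      IntermediateField.adjoin ℚ (Set.range y) = ⊤ := by
  have hmem : ∀ i, x i ∈ IntermediateField.adjoin ℚ (Set.range x) := fun i =>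
    IntermediateField.subset_adjoin ℚ _ ⟨i, rfl⟩
  refine ⟨fun i => ⟨x i, hmem i⟩, fun i => rfl, ?_⟩
  rw [eq_top_iff]
  rintro ⟨z, hz⟩ -
  refine IntermediateField.adjoin_induction ℚ
    (p := fun z hz => (⟨z, hz⟩ : IntermediateField.adjoin ℚ (Set.range x)) ∈
      IntermediateField.adjoin ℚ (Set.range fun i =>
        (⟨x i, hmem i⟩ : IntermediateField.adjoin ℚ (Set.range x)))) ?_ ?_ ?_ ?_ ?_ hz
  · rintro _ ⟨i, rfl⟩
    exact IntermediateField.subset_adjoin ℚ _ ⟨i, rfl⟩
  · intro q
    exact IntermediateField.algebraMap_mem _ q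
  · intro a b _ _ ha hb
    exact add_mem ha hb
  · intro a _ ha
    exact inv_mem ha
  · intro a b _ _ ha hb
    exact mul_mem ha hb

/-- Pairs of total rank at most one satisfy one of finitely many relations. -/
theorem pairs_one (hC : Count 1) : ∃ E : Finset (Fin 2 ⊕ Fin 2 → ℤ), 0 ∉ E ∧
    ∀ (K : Type) [Field K] [NumberField K] (x : Fin 2 → K), (∀ i, x i ≠ 0) → (∀ i, x i ≠ 1) →
      RankLe 1 (co x) → ∃ w ∈ E, mono (co x) w = 1 := by
  obtain ⟨E, hE0, hE⟩ := alg_two hC pairList_zero genericList_two (4 * log 2)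
  refine ⟨E, hE0, ?_⟩
  -- the points generating their field
  have key : ∀ (K : Type) [Field K] [NumberField K] (x : Fin 2 → K), (∀ i, x i ≠ 0) →
      (∀ i, x i ≠ 1) → IntermediateField.adjoin ℚ (Set.range x) = ⊤ →
      RankLe 1 (co x) → ∃ w ∈ E, mono (co x) w = 1 := by
    intro K _ _ x h0 h1 hgen hrk
    refine hE K x h0 h1 hgen hrk ?_
    have hz : ∀ i, co x i ≠ 0 := by
      rintro (i | i)
      · exact h0 i
      · exact sub_ne_zero.2 (Ne.symm (h1 i))
    have hlog : 0 ≤ (finrank ℚ K : ℝ) * log 2 :=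
      mul_nonneg (Nat.cast_nonneg _) (Real.log_nonneg (by norm_num))
    have hMI : ∀ i, ¬ Pool.Agent.CITNF.MI (x i) := by
      classical
      intro i hmi
      obtain ⟨c, hc0, hc⟩ := dep_of_rankLe hz hrk
        ![Pi.single (Sum.inl i) 1, Pi.single (Sum.inr i) 1]
      rw [Fin.prod_univ_two] at hc
      have hs : ∀ j : Fin 2 ⊕ Fin 2, mono (co x) (Pi.single j 1) = co x j := by
        intro j
        unfold mono
        rw [Finset.prod_eq_single j]
        · rw [Pi.single_eq_same, zpow_one]
        · intro k _ hk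
          rw [Pi.single_eq_of_ne hk, zpow_zero]
        · intro h
          exact absurd (Finset.mem_univ _) h
      simp only [Matrix.cons_val_zero, Matrix.cons_val_one] at hc
      rw [hs, hs] at hc
      obtain ⟨e0, e1⟩ := hmi (c 0) (c 1) hc
      apply hc0
      funext j
      fin_cases j
      · exact e0
      · exact e1
    rintro (i | i)
    · have h2 := Pool.Agent.MinHt.rank_one_unif K (x i) (h0 i) (h1 i) (hMI i)
      change logHeight₁ (x i) ≤ _
      linarith
    · have h2 := Pool.Agent.MinHt.rank_one_unif K (x i) (h0 i) (h1 i) (hMI i)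
      have h3 := Pool.Agent.CITNF.height_one_sub_le (x i)
      change logHeight₁ (1 - x i) ≤ _
      linarith
  intro K _ _ x h0 h1 hrk
  obtain ⟨y, hy, hgen⟩ := adjoin_top x
  obtain ⟨w, hw, hw1⟩ := key (IntermediateField.adjoin ℚ (Set.range x)) y
    (fun i h => h0 i (by rw [← hy, h]; rfl)) (fun i h => h1 i (by rw [← hy, h]; rfl)) hgen
    (rankLe_sub y hy hrk)
  refine ⟨w, hw, ?_⟩
  rw [← mono_sub_field y hy w, hw1]
  rfl

end Pool.Agent.RelC
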