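import Pool.Agent.LThree.Inputs
import Pool.Agent.LThreeC.Defs
import Pool.Agent.RelC.PairsOne

set_option autoImplicit false

/-! The inputs of the assembly, from the counting statement. -/

namespace Pool.Agent.RelC

open NumberField Height Real Module Pool.Agent.LThree

private theorem short_heights {K : Type} [Field K] [NumberField K] {n : ℕ} (x : Fin n → K) {H : ℝ}
    (h : ∀ i, logHeight₁ (x i) ≤ H * finrank ℚ K) (i : Fin n ⊕ Fin n) :
    logHeight₁ (co x i) ≤ (H + log 2) * finrank ℚ K := by
  have hlog : 0 ≤ (finrank ℚ K : ℝ) * log 2 :=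
    mul_nonneg (Nat.cast_nonneg _) (Real.log_nonneg (by norm_num))
  rcases i with i | i
  · have h1 := h i
    change logHeight₁ (x i) ≤ _
    linarith
  · have h1 := h i
    have h2 := Pool.Agent.CITNF.height_one_sub_le (x i)
    change logHeight₁ (1 - x i) ≤ _
    linarith

private theorem short_co {K : Type} [Field K] {n : ℕ} {x : Fin n → K}
    (h : ∀ i, x i ≠ 0 ∧ x i ≠ 1) (i : Fin n ⊕ Fin n) : co x i ≠ 0 := by
  rcases i with i | i
  · exact (h i).1
  · exact sub_ne_zero.2 (Ne.symm (h i).2)

/-- One short relation for a pair of rank at most two. -/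
theorem short_one (hC : Count 2) : ShortOne := by
  intro ε hε H
  obtain ⟨C, -, h⟩ := one_relation' hC (ε := 2 * ε) (by linarith) (H + log 2)
  refine ⟨C, fun K _ _ x hx hrk hht => ?_⟩
  obtain ⟨u, hu0, hu, hle⟩ := h K (Fin 2 ⊕ Fin 2) (co x) (short_co hx) (by simp) hrk
    (short_heights x hht)
  refine ⟨u, hu0, hu, ?_⟩
  have e : (1 + 2 * ε) * (1 / 2) = 1 / 2 + ε := by ring
  rwa [e] at hle

/-- Three short relations for a triple of rank at most two. -/
theorem short_three (hC : Count 2) : ShortThree := by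
  intro ε hε H
  obtain ⟨C, -, h⟩ := three_relations' hC (ε := 4 / 3 * ε) (by linarith) (H + log 2)
  refine ⟨C, fun K _ _ x hx hrk hht => ?_⟩
  obtain ⟨u, v, w, hind, hu, hv, hw, hle⟩ := h K (Fin 3 ⊕ Fin 3) (co x) (short_co hx) (by simp)
    hrk (short_heights x hht)
  refine ⟨![u, v, w], hind, fun j => ?_, ?_⟩
  · fin_cases j
    · exact hu
    · exact hv
    · exact hw
  · rw [Fin.prod_univ_three]
    simp only [Matrix.cons_val_zero, Matrix.cons_val_one, Matrix.cons_val_two, Matrix.head_cons,
      Matrix.tail_cons]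
    have e : (1 + 4 / 3 * ε) * (3 / 4) = 3 / 4 + ε := by ring
    rw [e] at hle
    push_cast
    exact hle

/-- Pairs of rank at most one. -/
theorem pairsOne (hC : Count 1) : LThreeC.PairsOne := pairs_one hC

end Pool.Agent.RelC
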