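import Pool.Agent.Leh2.KForm
import Pool.Agent.RelC.CountLeh
import Pool.Agent.RelC.Short

set_option autoImplicit false

/-! The counting statements and the inputs of the assembly, without hypotheses. -/

namespace Pool.Agent.RelC

open NumberField Height Real Module Pool.Agent.LThree

theorem count_two : Count 2 := count_of_countG (countG_two Leh2.leh_two)

theorem count_one : Count 1 := count_of_countG (countG_one Leh2.leh_one)

theorem shortOne : ShortOne := short_one count_two

theorem shortThree : ShortThree := short_three count_two

theorem pairsOne' : LThreeC.PairsOne := pairs_one count_one

end Pool.Agent.RelC
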