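import Pool.Agent.RelC.Rel

set_option autoImplicit false

/-! Rank of a tuple and dependence of the elements of the group it generates. -/

namespace Pool.Agent.RelC

open NumberField Height Real Module Pool.Agent.LThree

/-- Any `k + 1` monomials in numbers of rank at most `k` are multiplicatively dependent. -/
theorem dep_of_rankLe {K : Type} [Field K] {ι : Type} [Fintype ι] {k : ℕ} {z : ι → K}
    (hz : ∀ i, z i ≠ 0) (h : RankLe k z) (v : Fin (k + 1) → ι → ℤ) :
    ∃ c : Fin (k + 1) → ℤ, c ≠ 0 ∧ ∏ j, mono z (v j) ^ c j = 1 := by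
  classical
  obtain ⟨U, hU, htor⟩ := h
  let f : (Fin (k + 1) → ℚ) →ₗ[ℚ] (ι → ℚ) :=
    Fintype.linearCombination ℚ (fun j => fun i => (v j i : ℚ))
  have hfin : finrank ℚ ((ι → ℚ) ⧸ U) < finrank ℚ (Fin (k + 1) → ℚ) := by
    have h1 := Submodule.finrank_quotient_add_finrank U
    rw [Module.finrank_fintype_fun_eq_card] at h1
    rw [Module.finrank_fintype_fun_eq_card, Fintype.card_fin]
    omega
  have hker := LinearMap.ker_ne_bot_of_finrank_lt (f := U.mkQ.comp f) hfin
  obtain ⟨c, hc, hc0⟩ := Submodule.exists_mem_ne_zero_of_ne_bot hker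
  have hcU : f c ∈ U := by
    rw [LinearMap.mem_ker, LinearMap.comp_apply, Submodule.mkQ_apply,
      Submodule.Quotient.mk_eq_zero] at hc
    exact hc
  -- clear the denominators
  obtain ⟨b, hb⟩ := IsLocalization.exist_integer_multiples_of_finset (nonZeroDivisors ℤ)
    (Finset.univ.image c)
  have hb' : ∀ j, ∃ a : ℤ, (a : ℚ) = (b : ℤ) * c j := by
    intro j
    obtain ⟨a, ha⟩ := hb (c j) (Finset.mem_image_of_mem _ (Finset.mem_univ _))
    refine ⟨a, ?_⟩
    rw [Algebra.smul_def] at ha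
    simpa using ha
  choose a ha using hb'
  have hb0 : ((b : ℤ) : ℚ) ≠ 0 := by
    have := nonZeroDivisors.ne_zero b.2
    exact_mod_cast this
  have hsum : (fun i => ((∑ j, a j • v j) i : ℚ)) ∈ U := by
    have h1 : (fun i => ((∑ j, a j • v j) i : ℚ)) = ((b : ℤ) : ℚ) • f c := by
      funext i
      rw [Pi.smul_apply, Fintype.linearCombination_apply, Finset.sum_apply, Finset.sum_apply,
        smul_eq_mul, Finset.mul_sum]
      push_cast
      refine Finset.sum_congr rfl fun j _ => ?_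
      simp only [Pi.smul_apply, smul_eq_mul]
      push_cast
      rw [ha]
      ring
    rw [h1]
    exact U.smul_mem _ hcU
  obtain ⟨m, hm, hm1⟩ := htor _ hsum
  refine ⟨fun j => (m : ℤ) * a j, ?_, ?_⟩
  · intro h0
    apply hc0
    funext j
    have h1 := congrFun h0 j
    simp only [Pi.zero_apply] at h1 ⊢
    have h2 : a j = 0 := by
      rcases mul_eq_zero.1 h1 with h3 | h3
      · omega
      · exact h3
    have h3 := ha j
    rw [h2, Int.cast_zero] at h3
    exact (mul_eq_zero.1 h3.symm).resolve_left hb0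
  · have h1 : ∀ s : Finset (Fin (k + 1)), mono z (∑ j ∈ s, a j • v j) =
        ∏ j ∈ s, mono z (v j) ^ a j := by
      intro s
      induction s using Finset.induction_on with
      | empty => rw [Finset.sum_empty, Finset.prod_empty, mono_zero]
      | insert j s hj ih =>
        rw [Finset.sum_insert hj, Finset.prod_insert hj, mono_add hz, ih, mono_zsmul]
    rw [h1] at hm1
    rw [← hm1, ← Finset.prod_pow]
    refine Finset.prod_congr rfl fun j _ => ?_
    change mono z (v j) ^ ((m : ℤ) * a j) = _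
    rw [mul_comm, zpow_mul, zpow_natCast]

/-- The counting statement for subgroups of the multiplicative group. -/
def CountG (k : ℕ) : Prop :=
  ∀ ε : ℝ, 0 < ε → ∃ C : ℝ, 0 < C ∧ ∀ (K : Type) [Field K] [NumberField K] (G : Subgroup Kˣ),
    (∀ g : Fin (k + 1) → Kˣ, (∀ j, g j ∈ G) → ∃ c : Fin (k + 1) → ℤ, c ≠ 0 ∧
      ∏ j, g j ^ c j = 1) →
    ∀ X : ℝ, 1 ≤ X → ∀ S : Finset Kˣ, (∀ g ∈ S, g ∈ G) →
      (∀ g ∈ S, logHeight₁ (g : K) ≤ X * finrank ℚ K) →
      (S.card : ℝ) ≤ C * X ^ k * (finrank ℚ K : ℝ) ^ (1 + ε)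

theorem count_of_countG {k : ℕ} (h : CountG k) : Count k := by
  classical
  intro ε hε
  obtain ⟨C, hC, hh⟩ := h ε hε
  refine ⟨C, hC, fun K _ _ ι _ z hz hrk X hX => ?_⟩
  set A := {g : K | (∃ u : ι → ℤ, g = mono z u) ∧ logHeight₁ g ≤ X * finrank ℚ K} with hA
  have hfin : A.Finite := by
    refine (NumberField.finite_setOfPred_logHeight₁_le K (X * finrank ℚ K)).subset ?_
    intro g hg
    exact hg.2
  refine ⟨hfin, ?_⟩
  let zu : ι → Kˣ := fun i => Units.mk0 (z i) (hz i)
  have hval : ∀ u : ι → ℤ, ((∏ i, zu i ^ u i : Kˣ) : K) = mono z u := by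
    intro u
    unfold mono
    rw [Units.coe_prod]
    refine Finset.prod_congr rfl fun i _ => ?_
    rw [Units.val_zpow_eq_zpow_val]
    rfl
  let G : Subgroup Kˣ :=
    { carrier := {g | ∃ u : ι → ℤ, (g : K) = mono z u}
      mul_mem' := by
        rintro a b ⟨u, hu⟩ ⟨v, hv⟩
        exact ⟨u + v, by rw [Units.val_mul, hu, hv, mono_add hz]⟩
      one_mem' := ⟨0, by rw [mono_zero, Units.val_one]⟩
      inv_mem' := by
        rintro a ⟨u, hu⟩
        exact ⟨-u, by rw [mono_neg, ← hu, Units.val_inv_eq_inv_val]⟩ }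
  have hG : ∀ g, g ∈ G ↔ ∃ u : ι → ℤ, (g : K) = mono z u := fun g => Iff.rfl
  have hA0 : ∀ g ∈ A, g ≠ 0 := by
    rintro g ⟨⟨u, rfl⟩, -⟩
    exact mono_ne_zero hz u
  set S : Finset Kˣ := hfin.toFinset.attach.image fun g =>
    Units.mk0 g.1 (hA0 g.1 (hfin.mem_toFinset.1 g.2)) with hS
  have hScard : S.card = Nat.card A := by
    rw [hS, Finset.card_image_of_injective, Finset.card_attach, Nat.card_coe_set_eq,
      Set.ncard_eq_toFinset_card A hfin]
    intro a b hab
    have := congrArg (Units.val) hab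
    exact Subtype.ext this
  have hSmem : ∀ g ∈ S, (g : K) ∈ A := by
    intro g hg
    rw [hS, Finset.mem_image] at hg
    obtain ⟨a, -, rfl⟩ := hg
    exact hfin.mem_toFinset.1 a.2
  have key := hh K G (by
    intro g hg
    choose v hv using fun j => (hG (g j)).1 (hg j)
    obtain ⟨c, hc0, hc⟩ := dep_of_rankLe hz hrk v
    refine ⟨c, hc0, ?_⟩
    apply Units.ext
    rw [Units.coe_prod, Units.val_one, ← hc]
    refine Finset.prod_congr rfl fun j _ => ?_
    rw [Units.val_zpow_eq_zpow_val, hv]) X hX S (fun g hg => (hSmem g hg).1)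
    (fun g hg => (hSmem g hg).2)
  rwa [hScard] at key

end Pool.Agent.RelC
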