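import Pool.Agent.LThree.Defs
import Pool.Agent.Rig32f.Derivation
import Pool.Agent.CITLines.Rel

set_option autoImplicit false

/-! Two multiplicative relations between the coordinates of a nonconstant point of the square of
the line. -/

namespace Pool.Agent.RelC

open Module Pool.Agent.LThree Polynomial

section

variable {Ω : Type} [Field Ω] [Algebra ℂ Ω]

private theorem pair_zpow (D : Derivation ℂ Ω Ω) {z : Ω} (hz : z ≠ 0) (n : ℤ) :
    D (z ^ n) / z ^ n = n * (D z / z) := by
  have hnat : ∀ m : ℕ, D (z ^ m) / z ^ m = m * (D z / z) := by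
    intro m
    rcases Nat.eq_zero_or_pos m with rfl | hm
    · simp
    · rw [Derivation.leibniz_pow]
      obtain ⟨k, rfl⟩ : ∃ k, m = k + 1 := ⟨m - 1, by omega⟩
      rw [Nat.add_sub_cancel]
      simp only [smul_eq_mul, nsmul_eq_mul]
      field_simp
      ring
  rcases le_or_gt 0 n with h | h
  · obtain ⟨m, rfl⟩ := Int.eq_ofNat_of_zero_le h
    rw [zpow_natCast, hnat]
    push_cast
    rfl
  · obtain ⟨m, rfl⟩ : ∃ m : ℕ, n = -(m : ℤ) := ⟨n.natAbs, by omega⟩
    rw [zpow_neg, zpow_natCast, Derivation.leibniz_inv]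
    have h1 := hnat m
    have h2 : z ^ m ≠ 0 := pow_ne_zero _ hz
    rw [smul_eq_mul]
    push_cast
    have h3 : -(m : Ω) * (D z / z) = -(D (z ^ m) / z ^ m) := by rw [h1, neg_mul]
    rw [h3]
    field_simp

private theorem pair_mul (D : Derivation ℂ Ω Ω) {z w : Ω} (hz : z ≠ 0) (hw : w ≠ 0) :
    D (z * w) / (z * w) = D z / z + D w / w := by
  rw [Derivation.leibniz]
  simp only [smul_eq_mul]
  field_simp
  ring

/-- The logarithmic derivative of a relation. -/
private theorem pair_log (D : Derivation ℂ Ω Ω) {ξ η : Ω} (hξ0 : ξ ≠ 0) (hξ1 : ξ ≠ 1)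
    (hη0 : η ≠ 0) (hη1 : η ≠ 1) (hD : D ξ = 1) (a b c d : ℤ)
    (h : ξ ^ a * (1 - ξ) ^ b * (η ^ c * (1 - η) ^ d) = 1) :
    ((a : Ω) * (1 - ξ) - b * ξ) * (η * (1 - η)) + (c * (1 - η) - d * η) * (ξ * (1 - ξ)) * D η = 0 := by
  have h1ξ : 1 - ξ ≠ 0 := sub_ne_zero.2 (Ne.symm hξ1)
  have h1η : 1 - η ≠ 0 := sub_ne_zero.2 (Ne.symm hη1)
  have e : D (ξ ^ a * (1 - ξ) ^ b * (η ^ c * (1 - η) ^ d)) /
      (ξ ^ a * (1 - ξ) ^ b * (η ^ c * (1 - η) ^ d)) = D 1 / 1 := by rw [h]
  rw [pair_mul D (mul_ne_zero (zpow_ne_zero _ hξ0) (zpow_ne_zero _ h1ξ))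
    (mul_ne_zero (zpow_ne_zero _ hη0) (zpow_ne_zero _ h1η)),
    pair_mul D (zpow_ne_zero _ hξ0) (zpow_ne_zero _ h1ξ),
    pair_mul D (zpow_ne_zero _ hη0) (zpow_ne_zero _ h1η),
    pair_zpow D hξ0, pair_zpow D h1ξ, pair_zpow D hη0, pair_zpow D h1η] at e
  have h1 : D (1 : Ω) = 0 := Derivation.map_one_eq_zero D
  have e1 : D (1 - ξ) = -1 := by rw [map_sub, h1, hD, zero_sub]
  have e2 : D (1 - η) = - D η := by rw [map_sub, h1, zero_sub]
  rw [e1, e2, hD, h1, zero_div] at e
  field_simp at e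
  linear_combination e

variable {ξ : Ω} (hξ : Transcendental ℂ ξ)

include hξ

private theorem pair_poly (p : ℂ[X]) (h : aeval ξ p = 0) : p = 0 := by
  rw [transcendental_iff] at hξ
  exact hξ p h

private theorem pair_lin (m n : ℤ) (h : (m : Ω) + n * ξ = 0) : m = 0 ∧ n = 0 := by
  have h1 := pair_poly hξ (C (m : ℂ) + C (n : ℂ) * X) (by simpa using h)
  have h2 : (m : ℂ) = 0 := by
    have := congrArg (eval 0) h1
    simpa using this
  have h3 : (n : ℂ) = 0 := by
    have := congrArg (eval 1) h1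
    simpa [h2] using this
  exact ⟨by exact_mod_cast h2, by exact_mod_cast h3⟩

/-- The nondegenerate case: the six symmetries. -/
private theorem pair_main {η : Ω} (hη0 : η ≠ 0) (hη1 : η ≠ 1) (D : Derivation ℂ Ω Ω) (hD : D ξ = 1)
    (a b c d a' b' c' d' : ℤ)
    (E1 : ((a : Ω) * (1 - ξ) - b * ξ) * (η * (1 - η)) +
      (c * (1 - η) - d * η) * (ξ * (1 - ξ)) * D η = 0)
    (E2 : ((a' : Ω) * (1 - ξ) - b' * ξ) * (η * (1 - η)) +
      (c' * (1 - η) - d' * η) * (ξ * (1 - ξ)) * D η = 0)
    (hΔ : (a * c' - a' * c) * (b * d' - b' * d) - (a * d' - a' * d) * (b * c' - b' * c) ≠ 0) :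
    Eqv ξ η := by
  have hchar : CharZero Ω := charZero_of_injective_algebraMap (algebraMap ℂ Ω).injective
  have h1η : 1 - η ≠ 0 := sub_ne_zero.2 (Ne.symm hη1)
  have hξ0 : ξ ≠ 0 := by
    rintro rfl
    exact hξ (isAlgebraic_zero)
  have hξ1 : ξ ≠ 1 := by
    rintro rfl
    exact hξ (isAlgebraic_one)
  have h1ξ : 1 - ξ ≠ 0 := sub_ne_zero.2 (Ne.symm hξ1)
  obtain ⟨P, hP⟩ : ∃ P, P = a * c' - a' * c := ⟨_, rfl⟩
  obtain ⟨Q, hQ⟩ : ∃ Q, Q = a * d' - a' * d := ⟨_, rfl⟩
  obtain ⟨R, hR⟩ : ∃ R, R = b * c' - b' * c := ⟨_, rfl⟩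
  obtain ⟨S, hS⟩ : ∃ S, S = b * d' - b' * d := ⟨_, rfl⟩
  obtain ⟨Δ, hΔd⟩ : ∃ Δ, Δ = P * S - Q * R := ⟨_, rfl⟩
  have hΔ0 : Δ ≠ 0 := by
    rw [hΔd, hP, hQ, hR, hS]
    exact hΔ
  -- the bilinear equation
  have J : (1 - η) * ((P : Ω) * (1 - ξ) - R * ξ) = η * ((Q : Ω) * (1 - ξ) - S * ξ) := by
    have h1 : (η * (1 - η)) * ((1 - η) * ((P : Ω) * (1 - ξ) - R * ξ) -
        η * ((Q : Ω) * (1 - ξ) - S * ξ)) = 0 := by
      rw [hP, hQ, hR, hS]
      push_cast
      linear_combination (c' * (1 - η) - d' * η) * E1 - (c * (1 - η) - d * η) * E2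
    have h2 := (mul_eq_zero.1 h1).resolve_left (mul_ne_zero hη0 h1η)
    exact sub_eq_zero.1 h2
  set A : Ω := (P : Ω) * (1 - ξ) - R * ξ with hA
  set B : Ω := (Q : Ω) * (1 - ξ) - S * ξ with hB
  have hAB : η * (A + B) = A := by linear_combination -J
  have hAB' : (1 - η) * (A + B) = B := by linear_combination J
  -- its derivative
  have hDint : ∀ m : ℤ, D (m : Ω) = 0 := fun m => by
    have := D.map_algebraMap (m : ℂ)
    rwa [map_intCast] at this
  have h1D : D (1 : Ω) = 0 := Derivation.map_one_eq_zero D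
  have hDA : D A = -(P + R : Ω) := by
    rw [hA]
    simp only [map_sub, Derivation.leibniz, smul_eq_mul, hDint, h1D, hD]
    ring
  have hDB : D B = -(Q + S : Ω) := by
    rw [hB]
    simp only [map_sub, Derivation.leibniz, smul_eq_mul, hDint, h1D, hD]
    ring
  have hD1 : D η * (A + B) + η * (-(P + R : Ω) - (Q + S)) = -(P + R : Ω) := by
    have h1 := congrArg D hAB
    rw [Derivation.leibniz, map_add, hDA, hDB] at h1
    simp only [smul_eq_mul] at h1
    linear_combination h1
  have hD2 : D η * (A + B) ^ 2 = (Δ : Ω) := by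
    have h1 : D η * (A + B) ^ 2 = -(P + R : Ω) * (A + B) + A * ((P + R : Ω) + (Q + S)) := by
      linear_combination (A + B) * hD1 + ((P + R : Ω) + (Q + S)) * hAB
    rw [h1, hA, hB, hΔd]
    push_cast
    ring
  -- the polynomial identity
  have poly : ∀ (a b c d : ℤ), ((a : Ω) * (1 - ξ) - b * ξ) * (η * (1 - η)) +
      (c * (1 - η) - d * η) * (ξ * (1 - ξ)) * D η = 0 →
      ∀ t : ℂ, ((a : ℂ) * (1 - t) - b * t) * ((P * (1 - t) - R * t) * (Q * (1 - t) - S * t) *
        ((P * (1 - t) - R * t) + (Q * (1 - t) - S * t))) +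
        Δ * ((c * (Q * (1 - t) - S * t) - d * (P * (1 - t) - R * t)) * (t * (1 - t))) = 0 := by
    intro a b c d E t
    have h1 : ((a : Ω) * (1 - ξ) - b * ξ) * (A * B * (A + B)) +
        Δ * ((c * B - d * A) * (ξ * (1 - ξ))) = 0 := by
      have h2 : ((a : Ω) * (1 - ξ) - b * ξ) * ((η * (A + B)) * ((1 - η) * (A + B)) * (A + B)) +
          (D η * (A + B) ^ 2) * ((c * ((1 - η) * (A + B)) - d * (η * (A + B))) *
            (ξ * (1 - ξ))) = 0 := by
        linear_combination (A + B) ^ 3 * E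
      rwa [hAB, hAB', hD2] at h2
    have h3 := pair_poly hξ
      (((C (a : ℂ)) * (1 - X) - C (b : ℂ) * X) * ((C (P : ℂ) * (1 - X) - C (R : ℂ) * X) *
        (C (Q : ℂ) * (1 - X) - C (S : ℂ) * X) *
        ((C (P : ℂ) * (1 - X) - C (R : ℂ) * X) + (C (Q : ℂ) * (1 - X) - C (S : ℂ) * X))) +
        C (Δ : ℂ) * ((C (c : ℂ) * (C (Q : ℂ) * (1 - X) - C (S : ℂ) * X) -
          C (d : ℂ) * (C (P : ℂ) * (1 - X) - C (R : ℂ) * X)) * (X * (1 - X)))) (by
        rw [← h1, hA, hB]
        simp only [map_add, map_sub, map_mul, aeval_X, map_one, map_intCast])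
    have h4 := congrArg (eval t) h3
    simp only [eval_add, eval_sub, eval_mul, eval_X, eval_C, eval_one, eval_zero] at h4
    exact h4
  have F1 := poly a b c d E1
  have F2 := poly a' b' c' d' E2
  have hΔC : (Δ : ℂ) ≠ 0 := by exact_mod_cast hΔ0
  have hΔeq : (Δ : ℂ) = P * S - Q * R := by rw [hΔd]; push_cast; ring
  -- the root of `A`
  have K1 : P * R * (P + R) = 0 := by
    by_contra hne
    have hPR : ((P : ℂ) + R) ≠ 0 := by
      have : P + R ≠ 0 := right_ne_zero_of_mul hne
      exact_mod_cast this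
    have key : ∀ (a b c d : ℤ), (∀ t : ℂ, ((a : ℂ) * (1 - t) - b * t) *
        ((P * (1 - t) - R * t) * (Q * (1 - t) - S * t) *
        ((P * (1 - t) - R * t) + (Q * (1 - t) - S * t))) +
        Δ * ((c * (Q * (1 - t) - S * t) - d * (P * (1 - t) - R * t)) * (t * (1 - t))) = 0) →
        c = 0 := by
      intro a b c d h
      have h1 := h (P / (P + R))
      have h2 : (P : ℂ) * (1 - P / (P + R)) - R * (P / (P + R)) = 0 := by
        field_simp
        ring
      have h3 : (Q : ℂ) * (1 - P / (P + R)) - S * (P / (P + R)) = - Δ / (P + R) := by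
        rw [hΔeq]
        field_simp
        ring
      rw [h2, h3] at h1
      have h4 : (Δ : ℂ) * Δ * (c * (P * R * (P + R))) = 0 := by
        field_simp at h1
        linear_combination -((P : ℂ) + R) * h1
      have h5 := (mul_eq_zero.1 h4).resolve_left (mul_ne_zero hΔC hΔC)
      have h6 : ((P * R * (P + R) : ℤ) : ℂ) ≠ 0 := by exact_mod_cast hne
      push_cast at h6
      have h7 := (mul_eq_zero.1 h5).resolve_right h6
      exact_mod_cast h7
    have e1 := key a b c d F1
    have e2 := key a' b' c' d' F2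
    apply hΔ0
    rw [hΔd, hP, hR, e1, e2]
    ring
  -- the root of `B`
  have K2 : Q * S * (Q + S) = 0 := by
    by_contra hne
    have hPR : ((Q : ℂ) + S) ≠ 0 := by
      have : Q + S ≠ 0 := right_ne_zero_of_mul hne
      exact_mod_cast this
    have key : ∀ (a b c d : ℤ), (∀ t : ℂ, ((a : ℂ) * (1 - t) - b * t) *
        ((P * (1 - t) - R * t) * (Q * (1 - t) - S * t) *
        ((P * (1 - t) - R * t) + (Q * (1 - t) - S * t))) +
        Δ * ((c * (Q * (1 - t) - S * t) - d * (P * (1 - t) - R * t)) * (t * (1 - t))) = 0) →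
        d = 0 := by
      intro a b c d h
      have h1 := h (Q / (Q + S))
      have h2 : (Q : ℂ) * (1 - Q / (Q + S)) - S * (Q / (Q + S)) = 0 := by
        field_simp
        ring
      have h3 : (P : ℂ) * (1 - Q / (Q + S)) - R * (Q / (Q + S)) = Δ / (Q + S) := by
        rw [hΔeq]
        field_simp
        ring
      rw [h2, h3] at h1
      have h4 : (Δ : ℂ) * Δ * (d * (Q * S * (Q + S))) = 0 := by
        field_simp at h1
        linear_combination -((Q : ℂ) + S) * h1
      have h5 := (mul_eq_zero.1 h4).resolve_left (mul_ne_zero hΔC hΔC)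
      have h6 : ((Q * S * (Q + S) : ℤ) : ℂ) ≠ 0 := by exact_mod_cast hne
      push_cast at h6
      have h7 := (mul_eq_zero.1 h5).resolve_right h6
      exact_mod_cast h7
    have e1 := key a b c d F1
    have e2 := key a' b' c' d' F2
    apply hΔ0
    rw [hΔd, hQ, hS, e1, e2]
    ring
  -- the root of `A + B`
  have K3 : (P + Q) * (R + S) * (P + Q + R + S) = 0 := by
    by_contra hne
    have hPR : ((P : ℂ) + Q + R + S) ≠ 0 := by
      have : P + Q + R + S ≠ 0 := right_ne_zero_of_mul hne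
      exact_mod_cast this
    have key : ∀ (a b c d : ℤ), (∀ t : ℂ, ((a : ℂ) * (1 - t) - b * t) *
        ((P * (1 - t) - R * t) * (Q * (1 - t) - S * t) *
        ((P * (1 - t) - R * t) + (Q * (1 - t) - S * t))) +
        Δ * ((c * (Q * (1 - t) - S * t) - d * (P * (1 - t) - R * t)) * (t * (1 - t))) = 0) →
        c + d = 0 := by
      intro a b c d h
      have h1 := h ((P + Q) / (P + Q + R + S))
      have h2 : (P : ℂ) * (1 - (P + Q) / (P + Q + R + S)) - R * ((P + Q) / (P + Q + R + S)) =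
          Δ / (P + Q + R + S) := by
        rw [hΔeq]
        field_simp
        ring
      have h3 : (Q : ℂ) * (1 - (P + Q) / (P + Q + R + S)) - S * ((P + Q) / (P + Q + R + S)) =
          - Δ / (P + Q + R + S) := by
        rw [hΔeq]
        field_simp
        ring
      rw [h2, h3] at h1
      have h4 : (Δ : ℂ) * Δ * ((c + d) * ((P + Q) * (R + S) * (P + Q + R + S))) = 0 := by
        field_simp at h1
        linear_combination -h1
      have h5 := (mul_eq_zero.1 h4).resolve_left (mul_ne_zero hΔC hΔC)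
      have h6 : (((P + Q) * (R + S) * (P + Q + R + S) : ℤ) : ℂ) ≠ 0 := by exact_mod_cast hne
      push_cast at h6
      have h7 := (mul_eq_zero.1 h5).resolve_right h6
      exact_mod_cast h7
    have e1 := key a b c d F1
    have e2 := key a' b' c' d' F2
    apply hΔ0
    have e3 : d = -c := by omega
    have e4 : d' = -c' := by omega
    rw [hΔd, hP, hQ, hR, hS, e3, e4]
    ring
  -- the list of the cases
  have cast : ∀ m : ℤ, m ≠ 0 → (m : Ω) ≠ 0 := fun m hm => by exact_mod_cast hm
  have fin : ∀ m : ℤ, m ≠ 0 → ∀ z : Ω, (m : Ω) * z = 0 → z = 0 := fun m hm z hz =>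
    (mul_eq_zero.1 hz).resolve_left (cast m hm)
  unfold Eqv
  rcases mul_eq_zero.1 K1 with K1 | K1
  · rcases mul_eq_zero.1 K1 with hP0 | hR0
    · -- `P = 0`
      have hQR : Q * R ≠ 0 := by
        intro h
        apply hΔ0
        rw [hΔd, hP0, h]
        ring
      have hQ0 : Q ≠ 0 := left_ne_zero_of_mul hQR
      have hR0 : R ≠ 0 := right_ne_zero_of_mul hQR
      rcases mul_eq_zero.1 K2 with K2 | K2
      · have hS0 : S = 0 := (mul_eq_zero.1 K2).resolve_left hQ0
        rw [hP0, hS0] at K3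
        have h1 : Q + R = 0 := by
          have h2 : (Q * R) * (Q + R) = 0 := by linear_combination K3
          exact (mul_eq_zero.1 h2).resolve_left hQR
        have h2 : Q = -R := by omega
        left
        rw [hA, hB, hP0, hS0, h2] at J
        have h3 := fin R hR0 (η - ξ) (by
          push_cast at J
          linear_combination J)
        exact sub_eq_zero.1 h3
      · have hS : S = -Q := by omega
        rw [hP0, hS] at K3
        have h1 : R - Q = 0 := by
          have h2 : (Q * R) * (R - Q) = 0 := by linear_combination K3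
          exact (mul_eq_zero.1 h2).resolve_left hQR
        have h2 : Q = R := by omega
        right; right; right; right; left
        rw [hA, hB, hP0, hS, h2] at J
        have h3 := fin R hR0 (η * (ξ - 1) - ξ) (by
          push_cast at J
          linear_combination J)
        rw [eq_div_iff (sub_ne_zero.2 hξ1)]
        exact sub_eq_zero.1 h3
    · -- `R = 0`
      have hPS : P * S ≠ 0 := by
        intro h
        apply hΔ0
        rw [hΔd, hR0, h]
        ring
      have hP0 : P ≠ 0 := left_ne_zero_of_mul hPS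
      have hS0 : S ≠ 0 := right_ne_zero_of_mul hPS
      rcases mul_eq_zero.1 K2 with K2 | K2
      · have hQ0 : Q = 0 := (mul_eq_zero.1 K2).resolve_right hS0
        rw [hR0, hQ0] at K3
        have h1 : P + S = 0 := by
          have h2 : (P * S) * (P + S) = 0 := by linear_combination K3
          exact (mul_eq_zero.1 h2).resolve_left hPS
        have h2 : S = -P := by omega
        right; left
        rw [hA, hB, hR0, hQ0, h2] at J
        have h3 := fin P hP0 (η - (1 - ξ)) (by
          push_cast at J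
          linear_combination -J)
        exact sub_eq_zero.1 h3
      · have hS : Q = -S := by omega
        rw [hR0, hS] at K3
        have h1 : P - S = 0 := by
          have h2 : (P * S) * (P - S) = 0 := by linear_combination K3
          exact (mul_eq_zero.1 h2).resolve_left hPS
        have h2 : S = P := by omega
        right; right; right; right; right
        rw [hA, hB, hR0, hS, h2] at J
        have h3 := fin P hP0 (η * ξ - (ξ - 1)) (by
          push_cast at J
          linear_combination J)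
        rw [eq_div_iff hξ0]
        exact sub_eq_zero.1 h3
  · -- `R = - P`
    have hR' : R = -P := by omega
    have hPQS : P * (S + Q) ≠ 0 := by
      intro h
      apply hΔ0
      rw [hΔd, hR']
      linear_combination h
    have hP0 : P ≠ 0 := left_ne_zero_of_mul hPQS
    have hQS : Q + S ≠ 0 := by
      rw [add_comm]
      exact right_ne_zero_of_mul hPQS
    have K2' : Q * S = 0 := (mul_eq_zero.1 K2).resolve_right hQS
    rcases mul_eq_zero.1 K2' with hQ0 | hS0
    · rw [hR', hQ0] at K3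
      have hS0 : S ≠ 0 := by omega
      have h1 : S - P = 0 := by
        have h2 : (P * S) * (S - P) = 0 := by linear_combination K3
        exact (mul_eq_zero.1 h2).resolve_left (mul_ne_zero hP0 hS0)
      have h2 : S = P := by omega
      right; right; right; left
      rw [hA, hB, hR', hQ0, h2] at J
      have h3 := fin P hP0 (η * (1 - ξ) - 1) (by
        push_cast at J
        linear_combination -J)
      rw [← one_div, eq_div_iff h1ξ]
      exact sub_eq_zero.1 h3
    · rw [hR', hS0] at K3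
      have hQ0 : Q ≠ 0 := by omega
      have h1 : P + Q = 0 := by
        have h2 : (P * Q) * (P + Q) = 0 := by linear_combination -K3
        exact (mul_eq_zero.1 h2).resolve_left (mul_ne_zero hP0 hQ0)
      have h2 : Q = -P := by omega
      right; right; left
      rw [hA, hB, hR', hS0, h2] at J
      have h3 := fin P hP0 (η * ξ - 1) (by
        push_cast at J
        linear_combination -J)
      rw [← one_div, eq_div_iff hξ0]
      exact sub_eq_zero.1 h3

end

/-- A root of unity `z` such that `1 - z` is a root of unity is a sixth root of unity. -/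
theorem six_of_torsion (z : ℂ) {m : ℕ} (hm : 0 < m) (h1 : z ^ m = 1) (h2 : (1 - z) ^ m = 1) :
    z ^ 6 = 1 := by
  have n1 : ‖z‖ = 1 := Complex.norm_eq_one_of_pow_eq_one h1 hm.ne'
  have n2 : ‖1 - z‖ = 1 := Complex.norm_eq_one_of_pow_eq_one h2 hm.ne'
  have e1 : z.re ^ 2 + z.im ^ 2 = 1 := by
    have := Complex.sq_norm z
    rw [n1, Complex.normSq_apply] at this
    linarith
  have e2 : (1 - z.re) ^ 2 + z.im ^ 2 = 1 := by
    have := Complex.sq_norm (1 - z)
    rw [n2, Complex.normSq_apply] at this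
    simp only [Complex.sub_re, Complex.one_re, Complex.sub_im, Complex.one_im] at this
    nlinarith
  have e3 : z.re = 1 / 2 := by linarith
  have e4 : z ^ 2 = z - 1 := by
    apply Complex.ext
    · rw [pow_two, Complex.mul_re, Complex.sub_re, Complex.one_re, e3]
      rw [e3] at e1
      nlinarith
    · rw [pow_two, Complex.mul_im, Complex.sub_im, Complex.one_im, e3]
      ring
  have e5 : z ^ 3 = -1 := by linear_combination (z + 1) * e4
  calc z ^ 6 = (z ^ 3) ^ 2 := by ring
    _ = 1 := by rw [e5]; norm_num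

/-- The same in an extension of the complex numbers. -/
theorem six_of_torsion' {Ω : Type} [Field Ω] [Algebra ℂ Ω] (z : Ω) {m : ℕ} (hm : 0 < m)
    (h1 : z ^ m = 1) (h2 : (1 - z) ^ m = 1) : z ^ 6 = 1 := by
  obtain ⟨c, -, hc⟩ := Pool.Agent.CITLines.RU.exists_complex (x := z) ⟨m, hm, h1⟩
  have hinj := (algebraMap ℂ Ω).injective
  have h3 : c ^ 6 = 1 := by
    refine six_of_torsion c hm (hinj ?_) (hinj ?_)
    · rw [map_pow, hc, h1, map_one]
    · rw [map_pow, map_sub, map_one, hc, h2]
  rw [← hc, ← map_pow, h3, map_one]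

private theorem pair_torsion {Ω : Type} [Field Ω] [Algebra ℂ Ω] {η : Ω} (hη0 : η ≠ 0)
    (hη1 : η ≠ 1) (c d c' d' : ℤ) (h : η ^ c * (1 - η) ^ d = 1) (h' : η ^ c' * (1 - η) ^ d' = 1)
    (hN : c * d' - c' * d ≠ 0) : η ^ 6 = 1 := by
  have h1η : 1 - η ≠ 0 := sub_ne_zero.2 (Ne.symm hη1)
  have e1 : η ^ (c * d' - c' * d) = 1 := by
    have h1 : (η ^ c * (1 - η) ^ d) ^ d' * ((η ^ c' * (1 - η) ^ d') ^ d)⁻¹ = 1 := by
      rw [h, h', one_zpow, one_zpow, inv_one, one_mul]
    rw [mul_zpow, mul_zpow, ← zpow_mul, ← zpow_mul, ← zpow_mul, ← zpow_mul, mul_inv] at h1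
    have h2 : (1 - η) ^ (d * d') * ((1 - η) ^ (d' * d))⁻¹ = 1 := by
      rw [mul_comm d' d]
      exact mul_inv_cancel₀ (zpow_ne_zero _ h1η)
    calc η ^ (c * d' - c' * d) = η ^ (c * d') * (η ^ (c' * d))⁻¹ * 1 := by
          rw [zpow_sub₀ hη0, div_eq_mul_inv, mul_one]
      _ = η ^ (c * d') * (η ^ (c' * d))⁻¹ * ((1 - η) ^ (d * d') * ((1 - η) ^ (d' * d))⁻¹) := by
        rw [h2]
      _ = η ^ (c * d') * (1 - η) ^ (d * d') * ((η ^ (c' * d))⁻¹ * ((1 - η) ^ (d' * d))⁻¹) := by
        ring
      _ = 1 := h1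
  have e2 : (1 - η) ^ (c * d' - c' * d) = 1 := by
    have h1 : (η ^ c' * (1 - η) ^ d') ^ c * ((η ^ c * (1 - η) ^ d) ^ c')⁻¹ = 1 := by
      rw [h, h', one_zpow, one_zpow, inv_one, one_mul]
    rw [mul_zpow, mul_zpow, ← zpow_mul, ← zpow_mul, ← zpow_mul, ← zpow_mul, mul_inv] at h1
    have h2 : η ^ (c' * c) * (η ^ (c * c'))⁻¹ = 1 := by
      rw [mul_comm c' c]
      exact mul_inv_cancel₀ (zpow_ne_zero _ hη0)
    calc (1 - η) ^ (c * d' - c' * d) = (1 - η) ^ (d' * c) * ((1 - η) ^ (d * c'))⁻¹ * 1 := by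
          rw [zpow_sub₀ h1η, div_eq_mul_inv, mul_one, mul_comm c d', mul_comm c' d]
      _ = (1 - η) ^ (d' * c) * ((1 - η) ^ (d * c'))⁻¹ * (η ^ (c' * c) * (η ^ (c * c'))⁻¹) := by
        rw [h2]
      _ = η ^ (c' * c) * (1 - η) ^ (d' * c) * ((η ^ (c * c'))⁻¹ * ((1 - η) ^ (d * c'))⁻¹) := by
        ring
      _ = 1 := h1
  have hpos : 0 < (c * d' - c' * d).natAbs := Int.natAbs_pos.2 hN
  have natpow : ∀ z : Ω, z ^ (c * d' - c' * d) = 1 → z ^ (c * d' - c' * d).natAbs = 1 := by
    intro z hz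
    rcases Int.natAbs_eq (c * d' - c' * d) with h1 | h1
    · rw [h1, zpow_natCast] at hz
      exact hz
    · rw [h1, zpow_neg, zpow_natCast, inv_eq_one] at hz
      exact hz
  exact six_of_torsion' η hpos (natpow _ e1) (natpow _ e2)

/-- Two independent relations between the coordinates `ξ`, `1 - ξ`, `η`, `1 - η`, where `ξ` is
transcendental. -/
private theorem pair_aux {Ω : Type} [Field Ω] [Algebra ℂ Ω] {ξ η : Ω} (hξ : Transcendental ℂ ξ)
    (hη0 : η ≠ 0) (hη1 : η ≠ 1) (a b c d a' b' c' d' : ℤ)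
    (h : ξ ^ a * (1 - ξ) ^ b * (η ^ c * (1 - η) ^ d) = 1)
    (h' : ξ ^ a' * (1 - ξ) ^ b' * (η ^ c' * (1 - η) ^ d') = 1)
    (hind : ∀ s t : ℤ, s * a + t * a' = 0 → s * b + t * b' = 0 → s * c + t * c' = 0 →
      s * d + t * d' = 0 → s = 0 ∧ t = 0) :
    Eqv ξ η ∨ η ^ 6 = 1 := by
  have hchar : CharZero Ω := charZero_of_injective_algebraMap (algebraMap ℂ Ω).injective
  have h1η : 1 - η ≠ 0 := sub_ne_zero.2 (Ne.symm hη1)
  have hξ0 : ξ ≠ 0 := by
    rintro rfl
    exact hξ (isAlgebraic_zero)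
  have hξ1 : ξ ≠ 1 := by
    rintro rfl
    exact hξ (isAlgebraic_one)
  have h1ξ : 1 - ξ ≠ 0 := sub_ne_zero.2 (Ne.symm hξ1)
  obtain ⟨D, hD'⟩ := Rig32f.exists_derivation (K := ℂ) (L := Ω) (fun _ : Unit => ξ)
    (algebraicIndependent_unique_type_iff.2 hξ) (fun _ => 1)
  have hD : D ξ = 1 := hD' ()
  have E1 := pair_log D hξ0 hξ1 hη0 hη1 hD a b c d h
  have E2 := pair_log D hξ0 hξ1 hη0 hη1 hD a' b' c' d' h'
  -- no relation between `ξ` and `1 - ξ`
  have hcd : c * d' - c' * d ≠ 0 := by
    intro h0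
    have key : ∀ s t : ℤ, s * c + t * c' = 0 → s * d + t * d' = 0 → s = 0 ∧ t = 0 := by
      intro s t h1 h2
      have h3 : (η * (1 - η)) * (((s * a + t * a' : ℤ) : Ω) +
          ((-(s * a + t * a' + (s * b + t * b')) : ℤ) : Ω) * ξ) = 0 := by
        have h1' : (s : Ω) * c + t * c' = 0 := by exact_mod_cast h1
        have h2' : (s : Ω) * d + t * d' = 0 := by exact_mod_cast h2
        push_cast
        linear_combination (s : Ω) * E1 + t * E2 - (1 - η) * (ξ * (1 - ξ)) * D η * h1' +
          η * (ξ * (1 - ξ)) * D η * h2'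
      have h4 := (mul_eq_zero.1 h3).resolve_left (mul_ne_zero hη0 h1η)
      obtain ⟨h5, h6⟩ := pair_lin hξ _ _ h4
      exact hind s t h5 (by omega) h1 h2
    have k1 := key c' (-c) (by ring) (by linear_combination -h0)
    have k2 := key d' (-d) (by linear_combination h0) (by ring)
    have k3 := key 1 0 (by omega) (by omega)
    omega
  by_cases hab : a * b' - a' * b = 0
  · right
    by_cases hall : a = 0 ∧ b = 0 ∧ a' = 0 ∧ b' = 0
    · obtain ⟨rfl, rfl, rfl, rfl⟩ := hall
      rw [zpow_zero, zpow_zero, one_mul, one_mul] at h h'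
      exact pair_torsion hη0 hη1 c d c' d' h h' hcd
    · exfalso
      -- a relation between `η` and `1 - η`
      have hDη : D η = 0 := by
        obtain ⟨s, t, hst, h1, h2⟩ : ∃ s t : ℤ, ¬ (s = 0 ∧ t = 0) ∧ s * a + t * a' = 0 ∧
            s * b + t * b' = 0 := by
          by_cases h1 : a = 0 ∧ a' = 0
          · refine ⟨b', -b, fun h2 => hall ⟨h1.1, by omega, h1.2, by omega⟩, ?_, by ring⟩
            rw [h1.1, h1.2]
            ring
          · exact ⟨a', -a, fun h2 => h1 (by omega), by ring, by linear_combination -hab⟩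
        by_contra hne
        have h3 : (ξ * (1 - ξ)) * D η * (((s * c + t * c' : ℤ) : Ω) * (1 - η) -
            ((s * d + t * d' : ℤ) : Ω) * η) = 0 := by
          have h1' : (s : Ω) * a + t * a' = 0 := by exact_mod_cast h1
          have h2' : (s : Ω) * b + t * b' = 0 := by exact_mod_cast h2
          push_cast
          linear_combination (s : Ω) * E1 + t * E2 - (1 - ξ) * (η * (1 - η)) * h1' +
            ξ * (η * (1 - η)) * h2'
        have h4 := (mul_eq_zero.1 h3).resolve_left
          (mul_ne_zero (mul_ne_zero hξ0 h1ξ) hne)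
        set m := s * c + t * c' with hm
        set n := s * d + t * d' with hn
        have hDint : ∀ m : ℤ, D (m : Ω) = 0 := fun m => by
          have := D.map_algebraMap (m : ℂ)
          rwa [map_intCast] at this
        have h1D : D (1 : Ω) = 0 := Derivation.map_one_eq_zero D
        have h5 := congrArg D h4
        simp only [map_sub, Derivation.leibniz, smul_eq_mul, hDint, h1D, map_zero] at h5
        have h6 : ((m + n : ℤ) : Ω) * D η = 0 := by
          push_cast
          linear_combination -h5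
        have h7 := (mul_eq_zero.1 h6).resolve_right hne
        have h8 : m + n = 0 := by exact_mod_cast h7
        have h9 : (m : Ω) = 0 := by
          have h10 : n = -m := by omega
          rw [h10] at h4
          push_cast at h4
          linear_combination h4
        have h10 : m = 0 := by exact_mod_cast h9
        have h11 : n = 0 := by omega
        exact hst (hind s t h1 h2 h10 h11)
      rw [hDη, mul_zero, add_zero] at E1 E2
      have k1 := (mul_eq_zero.1 E1).resolve_right (mul_ne_zero hη0 h1η)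
      have k2 := (mul_eq_zero.1 E2).resolve_right (mul_ne_zero hη0 h1η)
      have l1 := pair_lin hξ a (-(a + b)) (by push_cast; linear_combination k1)
      have l2 := pair_lin hξ a' (-(a' + b')) (by push_cast; linear_combination k2)
      exact hall ⟨l1.1, by omega, l2.1, by omega⟩
  · left
    refine pair_main hξ hη0 hη1 D hD a b c d a' b' c' d' E1 E2 ?_
    intro h0
    have h1 : (a * b' - a' * b) * (c * d' - c' * d) = 0 := by linear_combination h0
    rcases mul_eq_zero.1 h1 with h2 | h2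
    · exact hab h2
    · exact hcd h2

/-- Two independent relations between the coordinates of a nonconstant point of the square of the
line. -/
theorem ff_pair {Ω : Type} [Field Ω] [Algebra ℂ Ω] (x : Fin 2 → Ω) (h0 : ∀ i, x i ≠ 0)
    (h1 : ∀ i, x i ≠ 1) (htr : ∃ i, Transcendental ℂ (x i)) (u v : Fin 2 ⊕ Fin 2 → ℤ)
    (hind : LinearIndependent ℤ ![u, v]) (hu : mono (co x) u = 1) (hv : mono (co x) v = 1) :
    Eqv (x 0) (x 1) ∨ Eqv (x 1) (x 0) ∨ x 0 ^ 6 = 1 ∨ x 1 ^ 6 = 1 := by
  have hmono : ∀ w : Fin 2 ⊕ Fin 2 → ℤ, mono (co x) w =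
      x 0 ^ w (Sum.inl 0) * (1 - x 0) ^ w (Sum.inr 0) *
        (x 1 ^ w (Sum.inl 1) * (1 - x 1) ^ w (Sum.inr 1)) := by
    intro w
    unfold mono co
    rw [Fintype.prod_sum_type, Fin.prod_univ_two, Fin.prod_univ_two]
    simp only [Sum.elim_inl, Sum.elim_inr]
    ring
  have hind' : ∀ s t : ℤ, (∀ i, s * u i + t * v i = 0) → s = 0 ∧ t = 0 := by
    intro s t h
    have h2 := Fintype.linearIndependent_iff.1 hind ![s, t] (by
      rw [Fin.sum_univ_two]
      funext i
      simpa using h i)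
    exact ⟨h2 0, h2 1⟩
  rw [hmono] at hu hv
  have hall : ∀ s t : ℤ, s * u (Sum.inl 0) + t * v (Sum.inl 0) = 0 →
      s * u (Sum.inr 0) + t * v (Sum.inr 0) = 0 → s * u (Sum.inl 1) + t * v (Sum.inl 1) = 0 →
      s * u (Sum.inr 1) + t * v (Sum.inr 1) = 0 → s = 0 ∧ t = 0 := by
    intro s t e1 e2 e3 e4
    apply hind'
    rintro (i | i)
    · fin_cases i
      · exact e1
      · exact e3
    · fin_cases i
      · exact e2
      · exact e4
  obtain ⟨i, hi⟩ := htr
  fin_cases i
  · rcases pair_aux hi (h0 1) (h1 1) _ _ _ _ _ _ _ _ hu hv hall with h | h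
    · exact Or.inl h
    · exact Or.inr (Or.inr (Or.inr h))
  · rw [mul_comm] at hu hv
    rcases pair_aux hi (h0 0) (h1 0) _ _ _ _ _ _ _ _ hu hv
      (fun s t e1 e2 e3 e4 => hall s t e3 e4 e1 e2) with h | h
    · exact Or.inr (Or.inl h)
    · exact Or.inr (Or.inr (Or.inl h))

end Pool.Agent.RelC
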