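import Pool.Agent.RelC.Bez

set_option autoImplicit false

/-! Bezout for the conjugates of an algebraic point: either the degree is small, or one of the
conjugates is a specialisation of a nonconstant solution of the same equations. -/

namespace Pool.Agent.RelC

open MvPolynomial Module

/-- A common zero of the `f i` which is not isolated is a specialisation of a nonconstant
common zero in an extension field. -/
theorem generic_of_not_isolated {n : ℕ} {ι : Type*} (f : ι → MvPolynomial (Fin n) ℂ)
    (s : Fin n → ℂ) (hz : ∀ i, eval s (f i) = 0) (h : ¬ Isolated f s) :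
    ∃ (Ω : Type) (_ : Field Ω) (_ : Algebra ℂ Ω) (ξ : Fin n → Ω),
      (∀ i, aeval ξ (f i) = 0) ∧ (∃ i, Transcendental ℂ (ξ i)) ∧
      ∀ p : MvPolynomial (Fin n) ℂ, aeval ξ p = 0 → eval s p = 0 := by
  unfold Isolated at h
  push Not at h
  obtain ⟨Q, hQ, hfQ, hQs, p0, hp0, hp0Q⟩ := h hz
  let B := MvPolynomial (Fin n) ℂ ⧸ Q
  have hdom : IsDomain B := Ideal.Quotient.isDomain Q
  let Ω := FractionRing B
  let ξ : Fin n → Ω := fun i => algebraMap B Ω (Ideal.Quotient.mk Q (X i))
  have hξ : ∀ p : MvPolynomial (Fin n) ℂ, aeval ξ p = algebraMap B Ω (Ideal.Quotient.mk Q p) := by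
    intro p
    have h1 : (aeval ξ : MvPolynomial (Fin n) ℂ →ₐ[ℂ] Ω) =
        (IsScalarTower.toAlgHom ℂ B Ω).comp (Ideal.Quotient.mkₐ ℂ Q) := by
      apply MvPolynomial.algHom_ext
      intro i
      rw [aeval_X]
      rfl
    rw [h1]
    rfl
  have hinj : Function.Injective (algebraMap B Ω) := IsFractionRing.injective B Ω
  have hmem : ∀ p : MvPolynomial (Fin n) ℂ, aeval ξ p = 0 ↔ p ∈ Q := by
    intro p
    rw [hξ, ← map_zero (algebraMap B Ω), hinj.eq_iff, Ideal.Quotient.eq_zero_iff_mem]
  refine ⟨Ω, inferInstance, inferInstance, ξ, fun i => (hmem _).2 (hfQ i), ?_,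
    fun p hp => hQs p ((hmem p).1 hp)⟩
  by_contra hcon
  push Not at hcon
  -- all coordinates are constant
  have hconst : ∀ i, ∃ c : ℂ, algebraMap ℂ Ω c = ξ i := by
    intro i
    have h1 : IsAlgebraic ℂ (ξ i) := by
      by_contra h2
      exact hcon i h2
    have h3 : IsIntegral ℂ (ξ i) := h1.isIntegral
    have h4 : (minpoly ℂ (ξ i)).degree = 1 :=
      IsAlgClosed.degree_eq_one_of_irreducible ℂ (minpoly.irreducible h3)
    obtain ⟨c, hc⟩ := minpoly.mem_range_of_degree_eq_one ℂ (ξ i) h4
    exact ⟨c, hc⟩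
  choose c hc using hconst
  have hcs : ∀ i, c i = s i := by
    intro i
    have h1 : aeval ξ (X i - C (c i) : MvPolynomial (Fin n) ℂ) = 0 := by
      rw [map_sub, aeval_X, algHom_C, hc, sub_self]
    have h2 := hQs _ ((hmem _).1 h1)
    rw [map_sub, eval_X, eval_C] at h2
    exact (sub_eq_zero.1 h2).symm
  apply hp0Q
  rw [← hmem]
  have h1 : aeval ξ p0 = algebraMap ℂ Ω (eval s p0) := by
    have h2 : ξ = fun i => algebraMap ℂ Ω (s i) := by
      funext i
      rw [← hc, hcs]
    rw [h2]
    have h3 := MvPolynomial.aeval_algebraMap_apply Ω s p0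
    rw [show (fun i => algebraMap ℂ Ω (s i)) = algebraMap ℂ Ω ∘ s from rfl, h3, ← coe_aeval_eq_eval]
    rfl
  rw [h1, hp0, map_zero]

/-- The point `x` of a number field generated by its coordinates satisfies `n` equations of
degrees `< d_i`. Then the degree of the field is at most the product of the `d_i`, or one of the
conjugates of `x` is a specialisation of a nonconstant solution of the equations. -/
theorem orbit_or_generic {n : ℕ} (K : Type) [Field K] [NumberField K] (x : Fin n → K)
    (hx : IntermediateField.adjoin ℚ (Set.range x) = ⊤) (f : Fin n → MvPolynomial (Fin n) ℚ)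
    (hf : ∀ i, aeval x (f i) = 0) (d : Fin n → ℕ) (hd : ∀ i, (f i).totalDegree < d i) :
    finrank ℚ K ≤ ∏ i, d i ∨
      ∃ (φ : K →+* ℂ) (Ω : Type) (_ : Field Ω) (_ : Algebra ℂ Ω) (ξ : Fin n → Ω),
        (∀ i, aeval ξ (map (algebraMap ℚ ℂ) (f i)) = 0) ∧ (∃ i, Transcendental ℂ (ξ i)) ∧
        ∀ p : MvPolynomial (Fin n) ℂ, aeval ξ p = 0 → eval (fun i => φ (x i)) p = 0 := by
  classical
  set g : Fin n → MvPolynomial (Fin n) ℂ := fun i => map (algebraMap ℚ ℂ) (f i) with hg
  have hzero : ∀ φ : K →+* ℂ, ∀ i, eval (fun j => φ (x j)) (g i) = 0 := by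
    intro φ i
    have h1 := congrArg φ (hf i)
    rw [map_zero, aeval_def, ← coe_eval₂Hom, ← RingHom.comp_apply] at h1
    rw [hg, eval_map, ← coe_eval₂Hom, ← h1]
    congr 1
    apply MvPolynomial.ringHom_ext
    · intro a
      rw [RingHom.comp_apply, eval₂Hom_C, eval₂Hom_C]
      simp
    · intro j
      rw [RingHom.comp_apply, eval₂Hom_X', eval₂Hom_X']
  by_cases hall : ∀ φ : K →+* ℂ, Isolated g (fun j => φ (x j))
  · left
    set S : Finset (Fin n → ℂ) := Finset.univ.image fun φ : K →+* ℂ => fun j => φ (x j) with hS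
    have h1 : S.card ≤ ∏ i, d i := by
      refine bezout_isolated g d (fun i => ?_) S ?_
      · refine lt_of_le_of_lt ?_ (hd i)
        unfold totalDegree
        exact Finset.sup_mono (support_map_subset _ _)
      · intro s hs
        rw [hS, Finset.mem_image] at hs
        obtain ⟨φ, -, rfl⟩ := hs
        exact hall φ
    rw [hS, Finset.card_image_of_injective, Finset.card_univ,
      NumberField.Embeddings.card K ℂ] at h1
    · exact h1
    · intro φ ψ h
      have h2 : ∀ i, φ (x i) = ψ (x i) := fun i => congrFun h i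
      have h3 : ∀ a ∈ IntermediateField.adjoin ℚ (Set.range x), φ a = ψ a := by
        intro a ha
        refine IntermediateField.adjoin_induction ℚ (p := fun a _ => φ a = ψ a) ?_ ?_ ?_ ?_ ?_ ha
        · rintro _ ⟨i, rfl⟩
          exact h2 i
        · intro q
          simp
        · intro a b _ _ h5 h6
          rw [map_add, map_add, h5, h6]
        · intro a _ h5
          rw [map_inv₀, map_inv₀, h5]
        · intro a b _ _ h5 h6
          rw [map_mul, map_mul, h5, h6]
      ext a
      exact h3 a (by rw [hx]; exact IntermediateField.mem_top)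
  · right
    push Not at hall
    obtain ⟨φ, hφ⟩ := hall
    obtain ⟨Ω, i1, i2, ξ, h1, h2, h3⟩ := generic_of_not_isolated g _ (hzero φ) hφ
    exact ⟨φ, Ω, i1, i2, ξ, h1, h2, h3⟩

end Pool.Agent.RelC
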