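import Pool.Agent.CITNF.Places
import Pool.Agent.CITNF.Basic

set_option autoImplicit false

/-! Northcott's theorem: finitely many algebraic numbers of bounded degree and height. -/

namespace Pool.Agent.RelC

open NumberField Height Real Module Pool.Agent.CITNF

/-- The finite set of the conjugates of the algebraic integers of bounded degree and house. -/
private theorem north_house (D B : ℕ) : ∃ Z : Set ℂ, Z.Finite ∧
    ∀ (K : Type) [Field K] [NumberField K], finrank ℚ K ≤ D → ∀ x : K, IsIntegral ℤ x →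
      (∀ φ : K →+* ℂ, ‖φ x‖ ≤ B) → ∀ φ : K →+* ℂ, φ x ∈ Z := by
  classical
  set M : ℕ := (max B 1) ^ D * 2 ^ D with hM
  refine ⟨⋃ (f : Polynomial ℤ) (_ : f.natDegree ≤ D ∧ ∀ i, f.coeff i ∈
      Set.Icc (-(M : ℤ)) M), ((f.map (algebraMap ℤ ℂ)).roots.toFinset : Set ℂ),
    Polynomial.bUnion_roots_finite (algebraMap ℤ ℂ) D (Set.finite_Icc _ _), ?_⟩
  intro K _ _ hD x hx hxB φ
  simp_rw [Set.mem_iUnion]
  have hm := minpoly.isIntegrallyClosed_eq_field_fractions' ℚ hx
  refine ⟨minpoly ℤ x, ⟨?_, fun i => ?_⟩, ?_⟩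
  · rw [← (minpoly.monic hx).natDegree_map (algebraMap ℤ ℚ), ← hm]
    exact (minpoly.natDegree_le x).trans hD
  · rw [Set.mem_Icc, ← abs_le, ← @Int.cast_le ℝ]
    refine (Eq.trans_le ?_ <| Embeddings.coeff_bdd_of_norm_le hxB i).trans ?_
    · rw [hm, Polynomial.coeff_map, eq_intCast, Int.norm_cast_rat, Int.norm_eq_abs, Int.cast_abs]
    · have h1 : ((finrank ℚ K).choose (finrank ℚ K / 2) : ℝ) ≤ 2 ^ finrank ℚ K := by
        have := Nat.choose_le_two_pow (finrank ℚ K) (finrank ℚ K / 2)
        exact_mod_cast this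
      have h3 : max (B : ℝ) 1 = ((max B 1 : ℕ) : ℝ) := by push_cast; rfl
      have h4 : (1 : ℝ) ≤ ((max B 1 : ℕ) : ℝ) := by
        rw [← h3]
        exact le_max_right _ _
      rw [h3]
      calc (((max B 1 : ℕ) : ℝ)) ^ finrank ℚ K * (finrank ℚ K).choose (finrank ℚ K / 2)
          ≤ (((max B 1 : ℕ) : ℝ)) ^ finrank ℚ K * 2 ^ finrank ℚ K := by gcongr
        _ ≤ (((max B 1 : ℕ) : ℝ)) ^ D * 2 ^ D := by
          gcongr
          norm_num
        _ = ((M : ℤ) : ℝ) := by rw [hM]; push_cast; rfl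
  · rw [Finset.mem_coe, Multiset.mem_toFinset, Polynomial.mem_roots']
    refine ⟨?_, ?_⟩
    · rw [Polynomial.map_ne_zero_iff]
      · exact minpoly.ne_zero hx
      · exact (algebraMap ℤ ℂ).injective_int
    · rw [Polynomial.IsRoot.def, Polynomial.eval_map, Subsingleton.elim (algebraMap ℤ ℂ)
        (φ.comp (algebraMap ℤ K)), ← Polynomial.hom_eval₂]
      have h2 : Polynomial.eval₂ (algebraMap ℤ K) x (minpoly ℤ x) = 0 := minpoly.aeval ℤ x
      rw [h2, map_zero]

private theorem north_valuation_le {K : Type} [Field K] [NumberField K] (z : K)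
    (v : IsDedekindDomain.HeightOneSpectrum (𝓞 K))
    (h : FinitePlace.mk v z ≤ 1) : v.valuation K z ≤ 1 := by
  rw [FinitePlace.mk_apply, NumberField.FinitePlace.norm_embedding,
    NumberField.HeightOneSpectrum.adicAbv_def] at h
  exact (WithZeroMulInt.toNNReal_le_one_iff
    (NumberField.HeightOneSpectrum.one_lt_absNorm_nnreal v)).1 (by exact_mod_cast h)

/-- A number which is integral at all finite places is an algebraic integer. -/
theorem isIntegral_of_places {K : Type} [Field K] [NumberField K] (z : K)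
    (h : ∀ v : FinitePlace K, v z ≤ 1) : IsIntegral ℤ z := by
  obtain ⟨a, ha⟩ := IsDedekindDomain.HeightOneSpectrum.mem_integers_of_valuation_le_one K z
    fun v => north_valuation_le z v (h _)
  rw [← ha]
  exact RingOfIntegers.isIntegral_coe _

/-- The norm of the prime of a finite place is small at this place. -/
private theorem north_absNorm {K : Type} [Field K] [NumberField K] (v : FinitePlace K) :
    log (v ((Ideal.absNorm v.maximalIdeal.asIdeal : ℕ) : K)) ≤ - lN v := by
  have hN : 1 < Ideal.absNorm v.maximalIdeal.asIdeal :=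
    NumberField.HeightOneSpectrum.one_lt_absNorm v.maximalIdeal
  set N := Ideal.absNorm v.maximalIdeal.asIdeal with hNdef
  have hN0 : ((N : ℕ) : K) ≠ 0 := Nat.cast_ne_zero.2 (by omega)
  obtain ⟨k, hk⟩ := exists_ord v ((N : ℕ) : K) hN0
  have hlN : 0 < lN v := lt_of_lt_of_le (Real.log_pos (by norm_num)) (log_two_le_lN v)
  have hlt : v ((N : ℕ) : K) < 1 := by
    have h1 : ((N : ℕ) : 𝓞 K) ∈ v.maximalIdeal.asIdeal := Ideal.absNorm_mem _
    have h2 := (NumberField.FinitePlace.norm_lt_one_iff_mem K v.maximalIdeal ((N : ℕ) : 𝓞 K)).2 h1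
    rw [FinitePlace.norm_embedding_eq] at h2
    simpa using h2
  have hneg : log (v ((N : ℕ) : K)) < 0 := Real.log_neg (FinitePlace.pos_iff.2 hN0) hlt
  rw [hk] at hneg ⊢
  have h3 : (k : ℝ) < 0 := by
    by_contra hcon
    push Not at hcon
    have := mul_nonneg hcon hlN.le
    linarith
  have h4 : k ≤ -1 := by
    have : k < 0 := by exact_mod_cast h3
    omega
  have h5 : (k : ℝ) ≤ -1 := by exact_mod_cast h4
  nlinarith

/-- A denominator of size at most the exponential of the finite part of the height. -/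
theorem exists_denominator {K : Type} [Field K] [NumberField K] (x : K) :
    ∃ N : ℕ, 0 < N ∧ log N ≤ hf x ∧ IsIntegral ℤ ((N : K) * x) := by
  classical
  by_cases hx : x = 0
  · refine ⟨1, one_pos, ?_, ?_⟩
    · rw [Nat.cast_one, Real.log_one]
      exact hf_nonneg x
    · rw [hx, mul_zero]
      exact isIntegral_zero
  set s : Finset (FinitePlace K) := (hf_support x).toFinset with hs
  have hk : ∀ v : FinitePlace K, ∃ k : ℕ, log⁺ (v x) = k * lN v := by
    intro v
    have hlN : 0 < lN v := lt_of_lt_of_le (Real.log_pos (by norm_num)) (log_two_le_lN v)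
    obtain ⟨k, hk⟩ := exists_ord v x hx
    rcases le_or_gt 0 k with h0 | h0
    · obtain ⟨m, rfl⟩ := Int.eq_ofNat_of_zero_le h0
      refine ⟨m, ?_⟩
      change max 0 (log (v x)) = _
      rw [hk]
      have : (0 : ℝ) ≤ ((m : ℤ) : ℝ) * lN v := mul_nonneg (by exact_mod_cast h0) hlN.le
      rw [max_eq_right this]
      push_cast
      rfl
    · refine ⟨0, ?_⟩
      change max 0 (log (v x)) = _
      rw [hk, Nat.cast_zero, zero_mul]
      apply max_eq_left
      have : (k : ℝ) < 0 := by exact_mod_cast h0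
      nlinarith
  choose k hk using hk
  let A : FinitePlace K → ℕ := fun v => Ideal.absNorm v.maximalIdeal.asIdeal
  have hA : ∀ v, 1 < A v := fun v => NumberField.HeightOneSpectrum.one_lt_absNorm v.maximalIdeal
  refine ⟨∏ v ∈ s, A v ^ k v, Finset.prod_pos fun v _ => pow_pos (by have := hA v; omega) _, ?_, ?_⟩
  · push_cast
    rw [Real.log_prod (fun v _ => pow_ne_zero _ (by
      have := hA v
      positivity))]
    have h1 : hf x = ∑ v ∈ s, log⁺ (v x) :=
      finsum_eq_sum_of_support_subset _ (by rw [hs, Set.Finite.coe_toFinset])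
    rw [h1]
    refine Finset.sum_le_sum fun v _ => ?_
    rw [hk, Real.log_pow]
    rfl
  · apply isIntegral_of_places
    intro w
    rw [map_mul]
    have h1 : ∀ v, w ((A v : ℕ) : K) ≤ 1 := fun v => natCast_le_one w _
    have hprod : w (((∏ v ∈ s, A v ^ k v : ℕ)) : K) = ∏ v ∈ s, w ((A v : ℕ) : K) ^ k v := by
      push_cast
      rw [map_prod]
      exact Finset.prod_congr rfl fun v _ => by rw [map_pow]
    rw [hprod]
    have hle1 : ∏ v ∈ s, w ((A v : ℕ) : K) ^ k v ≤ 1 :=
      Finset.prod_le_one (fun v _ => pow_nonneg (apply_nonneg w _) _)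
        fun v _ => pow_le_one₀ (apply_nonneg w _) (h1 v)
    by_cases hw : w ∈ s
    · rw [← Finset.mul_prod_erase s _ hw]
      have h2 : ∏ v ∈ s.erase w, w ((A v : ℕ) : K) ^ k v ≤ 1 :=
        Finset.prod_le_one (fun v _ => pow_nonneg (apply_nonneg w _) _)
          fun v _ => pow_le_one₀ (apply_nonneg w _) (h1 v)
      have hwA : 0 < w ((A w : ℕ) : K) := FinitePlace.pos_iff.2 (Nat.cast_ne_zero.2 (by
        have := hA w
        omega))
      have hwx : 0 < w x := FinitePlace.pos_iff.2 hx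
      have h3 : w ((A w : ℕ) : K) ^ k w * w x ≤ 1 := by
        rw [← Real.log_nonpos_iff (by positivity), Real.log_mul (by positivity) hwx.ne',
          Real.log_pow]
        have h4 := north_absNorm w
        have h5 : log (w x) ≤ log⁺ (w x) := le_max_right _ _
        rw [hk] at h5
        have h6 : (0 : ℝ) ≤ k w := Nat.cast_nonneg _
        have h7 := mul_le_mul_of_nonneg_left h4 h6
        have h8 : log (w ((A w : ℕ) : K)) = log (w ((Ideal.absNorm w.maximalIdeal.asIdeal : ℕ) : K)) :=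
          rfl
        rw [h8]
        linarith
      calc w ((A w : ℕ) : K) ^ k w * (∏ v ∈ s.erase w, w ((A v : ℕ) : K) ^ k v) * w x
          = (w ((A w : ℕ) : K) ^ k w * w x) * ∏ v ∈ s.erase w, w ((A v : ℕ) : K) ^ k v := by ring
        _ ≤ 1 * 1 := mul_le_mul h3 h2 (Finset.prod_nonneg fun v _ =>
            pow_nonneg (apply_nonneg w _) _) zero_le_one
        _ = 1 := one_mul 1
    · have h2 : w x ≤ 1 := by
        rw [hs, Set.Finite.mem_toFinset, Function.mem_support, not_not] at hw
        have h3 : log (w x) ≤ 0 := (le_max_right _ _).trans hw.le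
        exact (Real.log_nonpos_iff (apply_nonneg w x)).1 h3
      calc (∏ v ∈ s, w ((A v : ℕ) : K) ^ k v) * w x ≤ 1 * 1 :=
            mul_le_mul hle1 h2 (apply_nonneg w x) zero_le_one
        _ = 1 := one_mul 1

/-- **Northcott's theorem.** -/
theorem northcott (D : ℕ) (H : ℝ) : ∃ Z : Set ℂ, Z.Finite ∧
    ∀ (K : Type) [Field K] [NumberField K], finrank ℚ K ≤ D → ∀ x : K, logHeight₁ x ≤ H →
      ∀ φ : K →+* ℂ, φ x ∈ Z := by
  classical
  set E : ℕ := ⌈Real.exp H⌉₊ with hE
  obtain ⟨Z, hZ, hZK⟩ := north_house D (E * E)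
  refine ⟨⋃ N ∈ Finset.range (E + 1), (fun z : ℂ => z / N) '' Z,
    Set.Finite.biUnion (Finset.finite_toSet _) fun N _ => hZ.image _, ?_⟩
  intro K _ _ hD x hx φ
  obtain ⟨N, hN0, hN, hint⟩ := exists_denominator x
  have hh := lh_eq x
  have hNE : N ≤ E := by
    have h1 : (N : ℝ) ≤ Real.exp H := by
      rw [← Real.log_le_iff_le_exp (by exact_mod_cast hN0)]
      have := hi_nonneg x
      linarith
    have h2 : (N : ℝ) ≤ E := h1.trans (Nat.le_ceil _)
    exact_mod_cast h2
  have hφE : ∀ ψ : K →+* ℂ, ‖ψ x‖ ≤ E := by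
    intro ψ
    by_cases h0 : ψ x = 0
    · rw [h0, norm_zero]
      exact Nat.cast_nonneg _
    have hpos : 0 < ‖ψ x‖ := norm_pos_iff.2 h0
    have h1 : log ‖ψ x‖ ≤ H := by
      have h2 : (((InfinitePlace.mk ψ).mult : ℝ)) * log⁺ ((InfinitePlace.mk ψ) x) ≤ hi x :=
        Finset.single_le_sum (f := fun v : InfinitePlace K => (v.mult : ℝ) * log⁺ (v x))
          (fun w _ => mul_nonneg (Nat.cast_nonneg _) posLog_nonneg) (Finset.mem_univ _)
      have h3 : (1 : ℝ) ≤ (InfinitePlace.mk ψ).mult := by exact_mod_cast InfinitePlace.one_le_mult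
      have h4 : log⁺ ((InfinitePlace.mk ψ) x) ≤
          ((InfinitePlace.mk ψ).mult : ℝ) * log⁺ ((InfinitePlace.mk ψ) x) :=
        le_mul_of_one_le_left posLog_nonneg h3
      have h5 : log ((InfinitePlace.mk ψ) x) ≤ log⁺ ((InfinitePlace.mk ψ) x) := le_max_right _ _
      rw [InfinitePlace.apply] at h2 h4 h5
      have h6 := hf_nonneg x
      linarith
    exact ((Real.log_le_iff_le_exp hpos).1 h1).trans (Nat.le_ceil _)
  have hmem := hZK K hD ((N : K) * x) hint (fun ψ => by
    rw [map_mul, map_natCast, norm_mul, Complex.norm_natCast]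
    push_cast
    have h1 : (N : ℝ) ≤ E := by exact_mod_cast hNE
    exact mul_le_mul h1 (hφE ψ) (norm_nonneg _) (Nat.cast_nonneg _)) φ
  rw [Set.mem_iUnion₂]
  refine ⟨N, Finset.mem_coe.2 (Finset.mem_range.2 (by omega)), _, hmem, ?_⟩
  have h0 : (N : ℂ) ≠ 0 := Nat.cast_ne_zero.2 (by omega)
  simp only [map_mul, map_natCast]
  field_simp

end Pool.Agent.RelC
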