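import Pool.Agent.RelC.DegGen
import Pool.Agent.RelC.North
import Pool.Agent.RelC.Pair
import Pool.Agent.RelC.Bridge
import Pool.Agent.MinHt.RankOne

set_option autoImplicit false

/-! Algebraic points of bounded height of powers of the line, of small rank. -/

namespace Pool.Agent.RelC

open NumberField Height Real Module Pool.Agent.LThree

/-- Points of bounded degree and bounded height satisfy one of finitely many relations, if they
satisfy any relation. -/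
theorem finite_relations (n : ℕ) (D : ℕ) (H : ℝ) : ∃ E : Finset (Fin n ⊕ Fin n → ℤ), 0 ∉ E ∧
    ∀ (K : Type) [Field K] [NumberField K] (x : Fin n → K), finrank ℚ K ≤ D →
      (∀ i, logHeight₁ (x i) ≤ H) → (∃ w, w ≠ 0 ∧ mono (co x) w = 1) →
      ∃ w ∈ E, mono (co x) w = 1 := by
  classical
  obtain ⟨Z, hZ, hZK⟩ := northcott D H
  have hT : (Set.univ.pi fun _ : Fin n => Z).Finite := Set.Finite.pi fun _ => hZ
  have hch : ∀ p : Fin n → ℂ, ∃ w : Fin n ⊕ Fin n → ℤ,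
      (∃ w, w ≠ 0 ∧ mono (co p) w = 1) → w ≠ 0 ∧ mono (co p) w = 1 := by
    intro p
    by_cases h : ∃ w : Fin n ⊕ Fin n → ℤ, w ≠ 0 ∧ mono (co p) w = 1
    · obtain ⟨w, hw⟩ := h
      exact ⟨w, fun _ => hw⟩
    · exact ⟨0, fun h' => absurd h' h⟩
  choose r hr using hch
  refine ⟨(hT.toFinset.image r).erase 0, Finset.notMem_erase _ _, ?_⟩
  intro K _ _ x hD hh hw
  obtain ⟨φ⟩ : Nonempty (K →+* ℂ) := inferInstance
  have hmap : ∀ w : Fin n ⊕ Fin n → ℤ, mono (co fun i => φ (x i)) w = φ (mono (co x) w) := by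
    intro w
    unfold mono co
    rw [map_prod]
    refine Finset.prod_congr rfl fun i _ => ?_
    rw [map_zpow₀]
    rcases i with i | i
    · rfl
    · simp only [Sum.elim_inr, map_sub, map_one]
  obtain ⟨w, hw0, hw⟩ := hw
  obtain ⟨h1, h2⟩ := hr (fun i => φ (x i)) ⟨w, hw0, by rw [hmap, hw, map_one]⟩
  refine ⟨r fun i => φ (x i), Finset.mem_erase.2 ⟨h1, Finset.mem_image_of_mem _ ?_⟩, ?_⟩
  · rw [Set.Finite.mem_toFinset, Set.mem_univ_pi]
    exact fun i => hZK K hD (x i) (hh i) φ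
  · rw [hmap] at h2
    exact φ.injective (by rw [h2, map_one])

private theorem alg_bound {C D t : ℝ} (hD : 1 ≤ D) (ht : t < 1) (h : D ≤ C * D ^ t) :
    D ≤ C ^ (1 / (1 - t)) := by
  have hD0 : 0 < D := by linarith
  have h1 : 0 < D ^ t := Real.rpow_pos_of_pos hD0 t
  have h2 : D ^ (1 - t) ≤ C := by
    rw [Real.rpow_sub hD0, Real.rpow_one, div_le_iff₀ h1]
    exact h
  have h3 : 0 < 1 - t := by linarith
  calc D = (D ^ (1 - t)) ^ (1 / (1 - t)) := by
        rw [← Real.rpow_mul hD0.le, mul_one_div_cancel h3.ne', Real.rpow_one]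
    _ ≤ C ^ (1 / (1 - t)) := Real.rpow_le_rpow (by positivity) h2 (by positivity)

private theorem alg_nrm_pos {ι : Type} [Fintype ι] {u : ι → ℤ} (h : u ≠ 0) :
    1 ≤ LThree.nrm u := by
  by_contra hcon
  push Not at hcon
  have h1 : RelC.nrm u = 0 := by
    rw [nrm_eq]
    omega
  exact h (nrm_eq_zero.1 h1)

/-- The nonconstant points of `L ^ n` with `n` independent exact relations satisfy a relation of
the finite set `E`. -/
def GenericList (n : ℕ) (E : Finset (Fin n ⊕ Fin n → ℤ)) : Prop :=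
  ∀ (Ω : Type) [Field Ω] [Algebra ℂ Ω] (ξ : Fin n → Ω), (∀ i, ξ i ≠ 0) → (∀ i, ξ i ≠ 1) →
    (∃ i, Transcendental ℂ (ξ i)) → ∀ u : Fin n → (Fin n ⊕ Fin n → ℤ), LinearIndependent ℤ u →
    (∀ j, mono (co ξ) (u j) = 1) → ∃ w ∈ E, mono (co ξ) w = 1

/-- Algebraic points of bounded height of `L ^ 2` of rank at most one. -/
theorem alg_two (hC : Count 1) {E0 : Finset (Fin 2 ⊕ Fin 2 → ℤ)} (h0 : 0 ∉ E0)
    (hE0 : GenericList 2 E0) (H : ℝ) : ∃ E : Finset (Fin 2 ⊕ Fin 2 → ℤ), 0 ∉ E ∧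
    ∀ (K : Type) [Field K] [NumberField K] (x : Fin 2 → K), (∀ i, x i ≠ 0) → (∀ i, x i ≠ 1) →
      IntermediateField.adjoin ℚ (Set.range x) = ⊤ → RankLe 1 (co x) →
      (∀ i, logHeight₁ (co x i) ≤ H * finrank ℚ K) → ∃ w ∈ E, mono (co x) w = 1 := by
  classical
  obtain ⟨C, hC1, hrel⟩ := two_relations' hC (ε := 1 / 4) (by norm_num) H
  set D0 : ℕ := ⌈(25 * C) ^ (6 : ℝ)⌉₊ with hD0
  obtain ⟨E1, h1, hE1⟩ := finite_relations 2 D0 (max H 0 * D0)
  refine ⟨E0 ∪ E1, by simp [h0, h1], ?_⟩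
  intro K _ _ x hx0 hx1 hgen hrk hht
  have hz : ∀ i, co x i ≠ 0 := by
    rintro (i | i)
    · exact hx0 i
    · exact sub_ne_zero.2 (Ne.symm (hx1 i))
  have hD : (1 : ℝ) ≤ finrank ℚ K := by exact_mod_cast (finrank_pos (R := ℚ) (M := K))
  obtain ⟨u, v, hind, hu, hv, hle⟩ := hrel K (Fin 2 ⊕ Fin 2) (co x) hz (by simp) hrk hht
  have hu0 : u ≠ 0 := hind.ne_zero 0
  have hv0 : v ≠ 0 := hind.ne_zero 1
  have hu1 := alg_nrm_pos hu0
  have hv1 := alg_nrm_pos hv0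
  rcases degree_or_generic K x hgen hx0 hx1 ![u, v] (fun j => by
      fin_cases j
      · exact hu
      · exact hv) with h | ⟨Ω, _, _, ξ, hξ0, hξ1, htr, hξ, hsp⟩
  · -- bounded degree
    rw [Fin.prod_univ_two] at h
    simp only [Matrix.cons_val_zero, Matrix.cons_val_one] at h
    have h2 : (finrank ℚ K : ℝ) ≤ 25 * (LThree.nrm u * LThree.nrm v) := by
      have h3 : finrank ℚ K ≤ 25 * (LThree.nrm u * LThree.nrm v) := by
        refine h.trans ?_
        have e1 : 2 * (2 * LThree.nrm u) + 1 ≤ 5 * LThree.nrm u := by omega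
        have e2 : 2 * (2 * LThree.nrm v) + 1 ≤ 5 * LThree.nrm v := by omega
        calc _ ≤ (5 * LThree.nrm u) * (5 * LThree.nrm v) := Nat.mul_le_mul e1 e2
          _ = _ := by ring
      exact_mod_cast h3
    have h3 : (finrank ℚ K : ℝ) ≤ (25 * C) * (finrank ℚ K : ℝ) ^ (5 / 6 : ℝ) := by
      have e3 : (1 + 1 / 4 : ℝ) * (2 / 3) = 5 / 6 := by norm_num
      rw [e3] at hle
      calc (finrank ℚ K : ℝ) ≤ 25 * (LThree.nrm u * LThree.nrm v) := h2
        _ ≤ 25 * (C * (finrank ℚ K : ℝ) ^ (5 / 6 : ℝ)) := by gcongr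
        _ = _ := by ring
    have h4 := alg_bound hD (by norm_num) h3
    have h5 : finrank ℚ K ≤ D0 := by
      have e4 : (1 / (1 - 5 / 6) : ℝ) = 6 := by norm_num
      rw [e4] at h4
      exact Nat.cast_le.1 (h4.trans (Nat.le_ceil _))
    obtain ⟨w, hw, hw1⟩ := hE1 K x h5 (fun i => by
      have h6 := hht (Sum.inl i)
      have h7 : (finrank ℚ K : ℝ) ≤ D0 := by exact_mod_cast h5
      calc logHeight₁ (x i) ≤ H * finrank ℚ K := h6
        _ ≤ max H 0 * finrank ℚ K := by gcongr; exact le_max_left _ _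
        _ ≤ max H 0 * D0 := by gcongr) ⟨u, hu0, hu⟩
    exact ⟨w, Finset.mem_union_right _ hw, hw1⟩
  · obtain ⟨w, hw, hw1⟩ := hE0 Ω ξ hξ0 hξ1 htr ![u, v] hind hξ
    exact ⟨w, Finset.mem_union_left _ hw, hsp w hw1⟩

/-- Algebraic points of bounded height of `L ^ 3` of rank at most two. -/
theorem alg_three (hC : Count 2) {E0 : Finset (Fin 3 ⊕ Fin 3 → ℤ)} (h0 : 0 ∉ E0)
    (hE0 : GenericList 3 E0) (H : ℝ) : ∃ E : Finset (Fin 3 ⊕ Fin 3 → ℤ), 0 ∉ E ∧
    ∀ (K : Type) [Field K] [NumberField K] (x : Fin 3 → K), (∀ i, x i ≠ 0) → (∀ i, x i ≠ 1) →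
      IntermediateField.adjoin ℚ (Set.range x) = ⊤ → RankLe 2 (co x) →
      (∀ i, logHeight₁ (co x i) ≤ H * finrank ℚ K) → ∃ w ∈ E, mono (co x) w = 1 := by
  classical
  obtain ⟨C, hC1, hrel⟩ := three_relations' hC (ε := 1 / 6) (by norm_num) H
  set D0 : ℕ := ⌈(343 * C) ^ (8 : ℝ)⌉₊ with hD0
  obtain ⟨E1, h1, hE1⟩ := finite_relations 3 D0 (max H 0 * D0)
  refine ⟨E0 ∪ E1, by simp [h0, h1], ?_⟩
  intro K _ _ x hx0 hx1 hgen hrk hht
  have hz : ∀ i, co x i ≠ 0 := by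
    rintro (i | i)
    · exact hx0 i
    · exact sub_ne_zero.2 (Ne.symm (hx1 i))
  have hD : (1 : ℝ) ≤ finrank ℚ K := by exact_mod_cast (finrank_pos (R := ℚ) (M := K))
  obtain ⟨u, v, w, hind, hu, hv, hw, hle⟩ :=
    hrel K (Fin 3 ⊕ Fin 3) (co x) hz (by simp) hrk hht
  have hu0 : u ≠ 0 := hind.ne_zero 0
  have hv0 : v ≠ 0 := hind.ne_zero 1
  have hw0 : w ≠ 0 := hind.ne_zero 2
  have hu1 := alg_nrm_pos hu0
  have hv1 := alg_nrm_pos hv0
  have hw1 := alg_nrm_pos hw0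
  rcases degree_or_generic K x hgen hx0 hx1 ![u, v, w] (fun j => by
      fin_cases j
      · exact hu
      · exact hv
      · exact hw) with h | ⟨Ω, _, _, ξ, hξ0, hξ1, htr, hξ, hsp⟩
  · -- bounded degree
    rw [Fin.prod_univ_three] at h
    simp only [Matrix.cons_val_zero, Matrix.cons_val_one, Matrix.cons_val_two, Matrix.head_cons,
      Matrix.tail_cons] at h
    have h2 : (finrank ℚ K : ℝ) ≤ 343 * (LThree.nrm u * LThree.nrm v * LThree.nrm w) := by
      have h3 : finrank ℚ K ≤ 343 * (LThree.nrm u * LThree.nrm v * LThree.nrm w) := by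
        refine h.trans ?_
        have e1 : 3 * (2 * LThree.nrm u) + 1 ≤ 7 * LThree.nrm u := by omega
        have e2 : 3 * (2 * LThree.nrm v) + 1 ≤ 7 * LThree.nrm v := by omega
        have e3 : 3 * (2 * LThree.nrm w) + 1 ≤ 7 * LThree.nrm w := by omega
        calc _ ≤ (7 * LThree.nrm u) * (7 * LThree.nrm v) * (7 * LThree.nrm w) :=
              Nat.mul_le_mul (Nat.mul_le_mul e1 e2) e3
          _ = _ := by ring
      exact_mod_cast h3
    have h3 : (finrank ℚ K : ℝ) ≤ (343 * C) * (finrank ℚ K : ℝ) ^ (7 / 8 : ℝ) := by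
      have e3 : (1 + 1 / 6 : ℝ) * (3 / 4) = 7 / 8 := by norm_num
      rw [e3] at hle
      calc (finrank ℚ K : ℝ) ≤ 343 * (LThree.nrm u * LThree.nrm v * LThree.nrm w) := h2
        _ ≤ 343 * (C * (finrank ℚ K : ℝ) ^ (7 / 8 : ℝ)) := by gcongr
        _ = _ := by ring
    have h4 := alg_bound hD (by norm_num) h3
    have h5 : finrank ℚ K ≤ D0 := by
      have e4 : (1 / (1 - 7 / 8) : ℝ) = 8 := by norm_num
      rw [e4] at h4
      exact Nat.cast_le.1 (h4.trans (Nat.le_ceil _))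
    obtain ⟨w', hw', hw1'⟩ := hE1 K x h5 (fun i => by
      have h6 := hht (Sum.inl i)
      have h7 : (finrank ℚ K : ℝ) ≤ D0 := by exact_mod_cast h5
      calc logHeight₁ (x i) ≤ H * finrank ℚ K := h6
        _ ≤ max H 0 * finrank ℚ K := by gcongr; exact le_max_left _ _
        _ ≤ max H 0 * D0 := by gcongr) ⟨u, hu0, hu⟩
    exact ⟨w', Finset.mem_union_right _ hw', hw1'⟩
  · obtain ⟨w', hw', hw1'⟩ := hE0 Ω ξ hξ0 hξ1 htr ![u, v, w] hind hξ
    exact ⟨w', Finset.mem_union_left _ hw', hsp w' hw1'⟩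

end Pool.Agent.RelC
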