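import Mathlib

set_option autoImplicit false

/-! Bezout's bound for the isolated common zeros of `n` polynomials in `n` variables. -/

namespace Pool.Agent.RelC

open MvPolynomial

/-! ### The perturbed system is finite -/

private theorem bez_top {L : Type*} [Field L] {n : ℕ} (F f : Fin n → MvPolynomial (Fin n) L)
    (d : Fin n → ℕ) (t : L) (ht : t ≠ 0) (hF : ∀ i, F i = C t * X i ^ d i + f i)
    (hd : ∀ i, (f i).totalDegree < d i) :
    Submodule.span L (Set.range fun e : (∀ i, Fin (d i)) =>
      monomial (Finsupp.equivFunOnFinite.symm fun i => (e i : ℕ)) (1 : L)) ⊔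
      (Ideal.span (Set.range F)).restrictScalars L = ⊤ := by
  classical
  set T := Submodule.span L (Set.range fun e : (∀ i, Fin (d i)) =>
      monomial (Finsupp.equivFunOnFinite.symm fun i => (e i : ℕ)) (1 : L)) ⊔
      (Ideal.span (Set.range F)).restrictScalars L with hT
  have hI : ∀ p, p ∈ Ideal.span (Set.range F) → p ∈ T := fun p hp =>
    Submodule.mem_sup_right (Submodule.restrictScalars_mem _ _ _ |>.2 hp)
  have poly : ∀ N : ℕ, (∀ e : Fin n →₀ ℕ, (e.sum fun _ k => k) < N → monomial e (1 : L) ∈ T) →
      ∀ p : MvPolynomial (Fin n) L, p.totalDegree < N → p ∈ T := by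
    intro N h p hp
    rw [p.as_sum]
    refine Submodule.sum_mem _ fun v hv => ?_
    have h1 := h v (lt_of_le_of_lt (le_totalDegree hv) hp)
    have h2 : monomial v (coeff v p) = (coeff v p) • monomial v (1 : L) := by
      rw [smul_monomial, smul_eq_mul, mul_one]
    rw [h2]
    exact Submodule.smul_mem _ _ h1
  have mono : ∀ N : ℕ, ∀ e : Fin n →₀ ℕ, (e.sum fun _ k => k) < N → monomial e (1 : L) ∈ T := by
    intro N
    induction N with
    | zero => intro e he; exact absurd he (Nat.not_lt_zero _)
    | succ N ih =>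
      intro e he
      by_cases hall : ∀ i, e i < d i
      · apply Submodule.mem_sup_left
        apply Submodule.subset_span
        refine ⟨fun i => ⟨e i, hall i⟩, ?_⟩
        have h1 : (Finsupp.equivFunOnFinite.symm fun i => (((⟨e i, hall i⟩ : Fin (d i)) : ℕ))) = e := by
          ext i
          simp
        exact congrArg (fun e => monomial e (1 : L)) h1
      · push Not at hall
        obtain ⟨i, hi⟩ := hall
        set e' : Fin n →₀ ℕ := e - Finsupp.single i (d i) with he'
        have hee : e = e' + Finsupp.single i (d i) := by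
          ext j
          rw [he', Finsupp.add_apply, Finsupp.tsub_apply]
          by_cases hj : j = i
          · subst hj
            rw [Finsupp.single_eq_same]
            omega
          · rw [Finsupp.single_eq_of_ne hj]
            omega
        have hsum : (e.sum fun _ k => k) = (e'.sum fun _ k => k) + d i := by
          conv_lhs => rw [hee]
          rw [Finsupp.sum_add_index' (fun _ => rfl) (fun _ _ _ => rfl)]
          rw [Finsupp.sum_single_index rfl]
        have h1 : monomial e (1 : L) = C t⁻¹ * (monomial e' 1 * F i) -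
            C t⁻¹ * (monomial e' 1 * f i) := by
          have h2 : monomial e (1 : L) = monomial e' 1 * X i ^ d i := by
            rw [X_pow_eq_monomial, monomial_mul, one_mul, ← hee]
          rw [h2, hF i, mul_add, mul_add, add_sub_cancel_right]
          have h3 : (C t⁻¹ : MvPolynomial (Fin n) L) * C t = 1 := by
            rw [← C_mul, inv_mul_cancel₀ ht, C_1]
          calc monomial e' 1 * X i ^ d i = 1 * (monomial e' 1 * X i ^ d i) := by ring
            _ = (C t⁻¹ * C t) * (monomial e' 1 * X i ^ d i) := by rw [h3]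
            _ = _ := by ring
        rw [h1]
        refine Submodule.sub_mem _ (hI _ ?_) ?_
        · exact Ideal.mul_mem_left _ _ (Ideal.mul_mem_left _ _ (Ideal.subset_span ⟨i, rfl⟩))
        · rw [← smul_eq_C_mul]
          apply Submodule.smul_mem
          apply poly N ih
          have h4 := totalDegree_mul (monomial e' (1 : L)) (f i)
          have h5 : (monomial e' (1 : L)).totalDegree ≤ e'.sum fun _ k => k :=
            totalDegree_monomial_le _ _
          have h6 := hd i
          omega
  rw [Submodule.eq_top_iff']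
  intro p
  exact poly (p.totalDegree + 1) (mono _) p (Nat.lt_succ_self _)

private theorem bez_finrank {L : Type*} [Field L] {n : ℕ} (F f : Fin n → MvPolynomial (Fin n) L)
    (d : Fin n → ℕ) (t : L) (ht : t ≠ 0) (hF : ∀ i, F i = C t * X i ^ d i + f i)
    (hd : ∀ i, (f i).totalDegree < d i) {ι : Type*} [Fintype ι] (v : ι → MvPolynomial (Fin n) L)
    (hv : ∏ i, d i < Fintype.card ι) :
    ∃ g : ι → L, (∑ i, C (g i) * v i ∈ Ideal.span (Set.range F)) ∧ ∃ i, g i ≠ 0 := by
  classical
  set I := Ideal.span (Set.range F) with hI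
  set b : (∀ i, Fin (d i)) → (MvPolynomial (Fin n) L ⧸ I) := fun e =>
    Ideal.Quotient.mk I (monomial (Finsupp.equivFunOnFinite.symm fun i => (e i : ℕ)) (1 : L))
    with hb
  have hspan : Submodule.span L (Set.range b) = ⊤ := by
    rw [Submodule.eq_top_iff']
    intro x
    obtain ⟨p, rfl⟩ := Ideal.Quotient.mk_surjective x
    have hp : p ∈ (⊤ : Submodule L (MvPolynomial (Fin n) L)) := Submodule.mem_top
    rw [← bez_top F f d t ht hF hd, Submodule.mem_sup] at hp
    obtain ⟨q, hq, r, hr, rfl⟩ := hp
    have hr' : Ideal.Quotient.mk I r = 0 := Ideal.Quotient.eq_zero_iff_mem.2 hr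
    rw [map_add, hr', add_zero]
    have h1 : Ideal.Quotient.mk I q = (Ideal.Quotient.mkₐ L I).toLinearMap q := rfl
    rw [h1]
    have h2 := Submodule.mem_map_of_mem (f := (Ideal.Quotient.mkₐ L I).toLinearMap) hq
    rw [Submodule.map_span, ← Set.range_comp] at h2
    exact h2
  have hfin : Module.Finite L (MvPolynomial (Fin n) L ⧸ I) :=
    ⟨⟨Finset.univ.image b, by rw [Finset.coe_image, Finset.coe_univ, Set.image_univ, hspan]⟩⟩
  have hle : Module.finrank L (MvPolynomial (Fin n) L ⧸ I) ≤ ∏ i, d i := by
    have := finrank_le_of_span_eq_top hspan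
    rwa [Fintype.card_pi, Finset.prod_congr rfl (fun i _ => Fintype.card_fin (d i))] at this
  have hdep : ¬ LinearIndependent L (fun i => Ideal.Quotient.mk I (v i)) := by
    intro h
    have := h.fintype_card_le_finrank
    omega
  rw [Fintype.not_linearIndependent_iff] at hdep
  obtain ⟨g, hg, hne⟩ := hdep
  refine ⟨g, ?_, hne⟩
  rw [← Ideal.Quotient.eq_zero_iff_mem, map_sum, ← hg]
  refine Finset.sum_congr rfl fun i _ => ?_
  rw [← smul_eq_C_mul]
  rfl

/-! ### Clearing denominators -/

private theorem bez_deg_map {R S : Type*} [CommSemiring R] [CommSemiring S] (φ : R →+* S)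
    {σ : Type*} (p : MvPolynomial σ R) : (MvPolynomial.map φ p).totalDegree ≤ p.totalDegree := by
  unfold totalDegree
  exact Finset.sup_mono (support_map_subset _ _)

open Polynomial in
private theorem bez_relation {k : Type*} [Field k] {n : ℕ} (f : Fin n → MvPolynomial (Fin n) k)
    (d : Fin n → ℕ) (hd : ∀ i, (f i).totalDegree < d i) {ι : Type*} [Fintype ι]
    (v : ι → MvPolynomial (Fin n) k) (hv : ∏ i, d i < Fintype.card ι) :
    ∃ c : ι → k[X], (∃ i, (c i).coeff 0 ≠ 0) ∧ ∃ e : k[X], e ≠ 0 ∧
      MvPolynomial.C e * (∑ i, MvPolynomial.C (c i) * MvPolynomial.map Polynomial.C (v i)) ∈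
        Ideal.span (Set.range fun i : Fin n =>
          MvPolynomial.C (Polynomial.X : k[X]) * MvPolynomial.X i ^ d i +
            MvPolynomial.map Polynomial.C (f i)) := by
  classical
  set L := RatFunc k with hL
  let κ : k[X] →+* L := algebraMap k[X] L
  have hκ : Function.Injective κ := IsFractionRing.injective k[X] L
  set F : Fin n → MvPolynomial (Fin n) k[X] := fun i =>
    MvPolynomial.C (Polynomial.X : k[X]) * MvPolynomial.X i ^ d i +
      MvPolynomial.map Polynomial.C (f i) with hF
  have hmapF : ∀ i, MvPolynomial.map κ (F i) = MvPolynomial.C (κ Polynomial.X) *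
      MvPolynomial.X i ^ d i + MvPolynomial.map (κ.comp Polynomial.C) (f i) := by
    intro i
    rw [hF]
    simp only [map_add, map_mul, map_pow, MvPolynomial.map_C, MvPolynomial.map_X,
      MvPolynomial.map_map]
  have hX : κ Polynomial.X ≠ 0 := by
    intro h
    rw [← map_zero κ] at h
    exact Polynomial.X_ne_zero (hκ h)
  have hdeg : ∀ i, (MvPolynomial.map (κ.comp Polynomial.C) (f i)).totalDegree < d i := fun i =>
    lt_of_le_of_lt (bez_deg_map _ _) (hd i)
  obtain ⟨g, hg, hne⟩ := bez_finrank (fun i => MvPolynomial.map κ (F i))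
    (fun i => MvPolynomial.map (κ.comp Polynomial.C) (f i)) d (κ Polynomial.X) hX hmapF hdeg
    (fun i => MvPolynomial.map (κ.comp Polynomial.C) (v i)) hv
  -- clear the denominators of the coefficients
  obtain ⟨b, hb⟩ := IsLocalization.exist_integer_multiples_of_finset (nonZeroDivisors k[X])
    (Finset.univ.image g)
  have hb' : ∀ i, ∃ a : k[X], κ a = κ b * g i := by
    intro i
    obtain ⟨a, ha⟩ := hb (g i) (Finset.mem_image_of_mem _ (Finset.mem_univ _))
    refine ⟨a, ?_⟩
    rw [Algebra.smul_def] at ha
    exact ha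
  choose a ha using hb'
  have hb0 : κ b ≠ 0 := by
    intro h
    rw [← map_zero κ] at h
    exact nonZeroDivisors.ne_zero b.2 (hκ h)
  set J := Ideal.span (Set.range fun i => MvPolynomial.map κ (F i)) with hJ
  have ha1 : ∑ i, MvPolynomial.C (κ (a i)) * MvPolynomial.map (κ.comp Polynomial.C) (v i) ∈ J := by
    have h1 : ∑ i, MvPolynomial.C (κ (a i)) * MvPolynomial.map (κ.comp Polynomial.C) (v i) =
        MvPolynomial.C (κ b) *
          ∑ i, MvPolynomial.C (g i) * MvPolynomial.map (κ.comp Polynomial.C) (v i) := by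
      rw [Finset.mul_sum]
      refine Finset.sum_congr rfl fun i _ => ?_
      rw [ha, map_mul]
      ring
    rw [h1]
    exact Ideal.mul_mem_left _ _ hg
  obtain ⟨i0, hi0⟩ := hne
  have ha0 : a i0 ≠ 0 := by
    intro h
    have h1 := ha i0
    rw [h, map_zero] at h1
    exact mul_ne_zero hb0 hi0 h1.symm
  -- divide by powers of `X`
  have step : ∀ m : ℕ, ∀ c : ι → k[X], (c i0).natDegree ≤ m → c i0 ≠ 0 →
      ∑ i, MvPolynomial.C (κ (c i)) * MvPolynomial.map (κ.comp Polynomial.C) (v i) ∈ J →
      ∃ c : ι → k[X], (∃ i, (c i).coeff 0 ≠ 0) ∧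
        ∑ i, MvPolynomial.C (κ (c i)) * MvPolynomial.map (κ.comp Polynomial.C) (v i) ∈ J := by
    intro m
    induction m with
    | zero =>
      intro c hm h0 hc
      refine ⟨c, ⟨i0, ?_⟩, hc⟩
      intro h
      apply h0
      rw [Polynomial.eq_C_of_natDegree_le_zero hm, h, map_zero]
    | succ m ih =>
      intro c hm h0 hc
      by_cases hall : ∃ i, (c i).coeff 0 ≠ 0
      · exact ⟨c, hall, hc⟩
      · push Not at hall
        have h1 : ∀ i, ∃ c', c i = Polynomial.X * c' := fun i => Polynomial.X_dvd_iff.2 (hall i)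
        choose c' hc' using h1
        have h2 : c' i0 ≠ 0 := by
          intro h
          apply h0
          rw [hc', h, mul_zero]
        refine ih c' ?_ h2 ?_
        · have h3 : (c i0).natDegree = (c' i0).natDegree + 1 := by
            rw [hc' i0, Polynomial.natDegree_X_mul h2]
          omega
        · have h4 : ∑ i, MvPolynomial.C (κ (c' i)) *
              MvPolynomial.map (κ.comp Polynomial.C) (v i) =
              MvPolynomial.C (κ Polynomial.X)⁻¹ *
                ∑ i, MvPolynomial.C (κ (c i)) * MvPolynomial.map (κ.comp Polynomial.C) (v i) := by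
            rw [Finset.mul_sum]
            refine Finset.sum_congr rfl fun i _ => ?_
            rw [hc', map_mul, map_mul, ← mul_assoc, ← mul_assoc, ← MvPolynomial.C_mul,
              inv_mul_cancel₀ hX, MvPolynomial.C_1, one_mul]
          rw [h4]
          exact Ideal.mul_mem_left _ _ hc
  obtain ⟨c, hc0, hc⟩ := step _ a le_rfl ha0 ha1
  refine ⟨c, hc0, ?_⟩
  -- the ideal over the fraction field is the localised ideal
  let _ : Algebra (MvPolynomial (Fin n) k[X]) (MvPolynomial (Fin n) L) :=
    MvPolynomial.algebraMvPolynomial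
  have hJ' : J = Ideal.map (algebraMap (MvPolynomial (Fin n) k[X]) (MvPolynomial (Fin n) L))
      (Ideal.span (Set.range F)) := by
    rw [Ideal.map_span, ← Set.range_comp, hJ]
    congr 1
  have hsum : ∑ i, MvPolynomial.C (κ (c i)) * MvPolynomial.map (κ.comp Polynomial.C) (v i) =
      algebraMap (MvPolynomial (Fin n) k[X]) (MvPolynomial (Fin n) L)
        (∑ i, MvPolynomial.C (c i) * MvPolynomial.map Polynomial.C (v i)) := by
    rw [map_sum]
    refine Finset.sum_congr rfl fun i _ => ?_
    rw [map_mul]
    have e1 : algebraMap (MvPolynomial (Fin n) k[X]) (MvPolynomial (Fin n) L) =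
        MvPolynomial.map κ := rfl
    rw [e1, MvPolynomial.map_C, MvPolynomial.map_map]
  rw [hJ', hsum, IsLocalization.mem_map_algebraMap_iff
    ((nonZeroDivisors k[X]).map (MvPolynomial.C (σ := Fin n))) (MvPolynomial (Fin n) L)] at hc
  obtain ⟨⟨⟨j, hj⟩, ⟨m, hm⟩⟩, hjm⟩ := hc
  obtain ⟨e, he, rfl⟩ := hm
  refine ⟨e, nonZeroDivisors.ne_zero he, ?_⟩
  have hinj : Function.Injective
      (algebraMap (MvPolynomial (Fin n) k[X]) (MvPolynomial (Fin n) L)) :=
    MvPolynomial.map_injective κ hκ
  have h5 : MvPolynomial.C e * (∑ i, MvPolynomial.C (c i) * MvPolynomial.map Polynomial.C (v i)) =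
      j := by
    apply hinj
    rw [map_mul, mul_comm]
    exact hjm
  rw [h5]
  exact hj

/-! ### The height of a point -/

/-- Reduction modulo `t` and evaluation at `s`. -/
private noncomputable def bezEv {k : Type*} [Field k] {n : ℕ} (s : Fin n → k) :
    MvPolynomial (Fin n) (Polynomial k) →+* k :=
  (MvPolynomial.eval s).comp (MvPolynomial.map (Polynomial.evalRingHom 0))

private theorem bez_height {k : Type*} [Field k] {n : ℕ} (s : Fin n → k) :
    ((n + 1 : ℕ) : ℕ∞) ≤ (RingHom.ker (bezEv s)).height := by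
  classical
  let R := MvPolynomial (Fin n) (Polynomial k)
  let φ : ℕ → (R →+* R) := fun j => MvPolynomial.eval₂Hom MvPolynomial.C
    (fun i : Fin n => if i.val < j then MvPolynomial.C (Polynomial.C (s i)) else MvPolynomial.X i)
  have hprime : ∀ j, (RingHom.ker (φ j)).IsPrime := fun j => RingHom.ker_isPrime _
  have hφC : ∀ j a, φ j (MvPolynomial.C a) = MvPolynomial.C a := fun j a =>
    MvPolynomial.eval₂Hom_C _ _ _
  have hφX : ∀ j i, φ j (MvPolynomial.X i) =
      if i.val < j then MvPolynomial.C (Polynomial.C (s i)) else MvPolynomial.X i := fun j i =>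
    MvPolynomial.eval₂Hom_X' _ _ _
  have hcomp : ∀ j, (φ (j + 1)).comp (φ j) = φ (j + 1) := by
    intro j
    apply MvPolynomial.ringHom_ext
    · intro a
      rw [RingHom.comp_apply, hφC]
    · intro i
      rw [RingHom.comp_apply, hφX j i, hφX (j + 1) i]
      split_ifs with h1 h2 h2
      · exact hφC _ _
      · omega
      · rw [hφX, if_pos h2]
      · rw [hφX, if_neg h2]
  have hle : ∀ j, RingHom.ker (φ j) ≤ RingHom.ker (φ (j + 1)) := by
    intro j p hp
    rw [RingHom.mem_ker] at hp ⊢
    rw [← hcomp j, RingHom.comp_apply, hp, map_zero]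
  have hlt : ∀ j, j < n → RingHom.ker (φ j) < RingHom.ker (φ (j + 1)) := by
    intro j hj
    refine lt_of_le_of_ne (hle j) fun he => ?_
    have h1 : (MvPolynomial.X (⟨j, hj⟩ : Fin n) - MvPolynomial.C (Polynomial.C (s ⟨j, hj⟩)) : R) ∈
        RingHom.ker (φ (j + 1)) := by
      rw [RingHom.mem_ker, map_sub, hφX, hφC, if_pos (Nat.lt_succ_self j), sub_self]
    rw [← he, RingHom.mem_ker, map_sub, hφX, hφC, if_neg (lt_irrefl j), sub_eq_zero] at h1
    have h2 := congrArg (MvPolynomial.totalDegree) h1
    rw [MvPolynomial.totalDegree_X, MvPolynomial.totalDegree_C] at h2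
    omega
  have hht : ∀ j, j ≤ n → (j : ℕ∞) ≤ (RingHom.ker (φ j)).height := by
    intro j
    induction j with
    | zero => intro _; exact zero_le
    | succ j ih =>
      intro hj
      have h1 := ih (by omega)
      have := hprime j
      have := hprime (j + 1)
      have h2 := Ideal.height_add_one_le_of_lt_of_isPrime (hlt j (by omega))
      calc ((j + 1 : ℕ) : ℕ∞) = (j : ℕ∞) + 1 := by push_cast; rfl
        _ ≤ _ := by gcongr
        _ ≤ _ := h2
  have hlast : RingHom.ker (φ n) < RingHom.ker (bezEv s) := by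
    have hcomp : (bezEv s).comp (φ n) = bezEv s := by
      apply MvPolynomial.ringHom_ext
      · intro a
        rw [RingHom.comp_apply, hφC]
      · intro i
        rw [RingHom.comp_apply, hφX n i, if_pos i.isLt]
        unfold bezEv
        simp
    refine lt_of_le_of_ne ?_ fun he => ?_
    · intro p hp
      rw [RingHom.mem_ker] at hp ⊢
      rw [← hcomp, RingHom.comp_apply, hp, map_zero]
    · have h1 : (MvPolynomial.C (Polynomial.X) : R) ∈ RingHom.ker (bezEv s) := by
        rw [RingHom.mem_ker]
        unfold bezEv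
        simp
      rw [← he, RingHom.mem_ker, hφC, ← MvPolynomial.C_0] at h1
      exact Polynomial.X_ne_zero (MvPolynomial.C_injective _ _ h1)
  have h1 := hht n le_rfl
  have := hprime n
  have : (RingHom.ker (bezEv s)).IsPrime := RingHom.ker_isPrime _
  have h2 := Ideal.height_add_one_le_of_lt_of_isPrime hlast
  calc ((n + 1 : ℕ) : ℕ∞) = (n : ℕ∞) + 1 := by push_cast; rfl
    _ ≤ _ := by gcongr
    _ ≤ _ := h2

/-! ### The theorem -/

/-- `s` is an isolated common zero of the `f i`: it is a common zero, and no prime ideal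
containing all `f i` is strictly smaller than the ideal of `s`. -/
def Isolated {k : Type*} [Field k] {n : ℕ} {ι : Type*} (f : ι → MvPolynomial (Fin n) k)
    (s : Fin n → k) : Prop :=
  (∀ i, MvPolynomial.eval s (f i) = 0) ∧
    ∀ Q : Ideal (MvPolynomial (Fin n) k), Q.IsPrime → (∀ i, f i ∈ Q) →
      (∀ p ∈ Q, MvPolynomial.eval s p = 0) → ∀ p, MvPolynomial.eval s p = 0 → p ∈ Q

/-- Polynomials separating finitely many points. -/
private theorem bez_delta {k : Type*} [Field k] {n : ℕ} (S : Finset (Fin n → k)) (s : Fin n → k) :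
    ∃ h : MvPolynomial (Fin n) k, MvPolynomial.eval s h ≠ 0 ∧
      ∀ s' ∈ S, s' ≠ s → MvPolynomial.eval s' h = 0 := by
  classical
  have key : ∀ s' : Fin n → k, ∃ l : MvPolynomial (Fin n) k, s' ≠ s →
      MvPolynomial.eval s l ≠ 0 ∧ MvPolynomial.eval s' l = 0 := by
    intro s'
    by_cases h : s' = s
    · exact ⟨0, fun h' => absurd h h'⟩
    · obtain ⟨i, hi⟩ := Function.ne_iff.1 h
      refine ⟨MvPolynomial.X i - MvPolynomial.C (s' i), fun _ => ⟨?_, ?_⟩⟩
      · rw [map_sub, MvPolynomial.eval_X, MvPolynomial.eval_C]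
        exact sub_ne_zero.2 (Ne.symm hi)
      · rw [map_sub, MvPolynomial.eval_X, MvPolynomial.eval_C, sub_self]
  choose l hl using key
  refine ⟨∏ s' ∈ S.erase s, l s', ?_, ?_⟩
  · rw [map_prod]
    exact Finset.prod_ne_zero_iff.2 fun s' hs' => (hl s' (Finset.ne_of_mem_erase hs')).1
  · intro s' hs' hne
    rw [map_prod]
    exact Finset.prod_eq_zero (Finset.mem_erase.2 ⟨hne, hs'⟩) (hl s' hne).2

/-- **Bezout for isolated points.** Let `f_1, ..., f_n` be `n` polynomials in `n` variables over a
field, of total degrees smaller than `d_1, ..., d_n`. Any finite set of isolated common zeros has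
at most `d_1 ⋯ d_n` elements. -/
theorem bezout_isolated {k : Type*} [Field k] {n : ℕ} (f : Fin n → MvPolynomial (Fin n) k)
    (d : Fin n → ℕ) (hd : ∀ i, (f i).totalDegree < d i) (S : Finset (Fin n → k))
    (hS : ∀ s ∈ S, Isolated f s) : S.card ≤ ∏ i, d i := by
  classical
  by_contra hcon
  push Not at hcon
  have hdel : ∀ s : Fin n → k, ∃ h : MvPolynomial (Fin n) k, MvPolynomial.eval s h ≠ 0 ∧
      ∀ s' ∈ S, s' ≠ s → MvPolynomial.eval s' h = 0 := fun s => bez_delta S s
  choose h hh1 hh2 using hdel
  obtain ⟨c, ⟨s0, hs0⟩, e, he, hmem⟩ := bez_relation f d hd (ι := S) (fun s => h s)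
    (by rwa [Fintype.card_coe])
  set F : Fin n → MvPolynomial (Fin n) (Polynomial k) := fun i =>
    MvPolynomial.C (Polynomial.X) * MvPolynomial.X i ^ d i +
      MvPolynomial.map Polynomial.C (f i) with hF
  set w := ∑ i : S, MvPolynomial.C (c i) * MvPolynomial.map Polynomial.C (h i) with hw
  set J := Ideal.span (Set.range F) with hJ
  set π : MvPolynomial (Fin n) (Polynomial k) →+* MvPolynomial (Fin n) k :=
    MvPolynomial.map (Polynomial.evalRingHom 0) with hπ
  have hπC : ∀ p : MvPolynomial (Fin n) k, π (MvPolynomial.map Polynomial.C p) = p := by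
    intro p
    rw [hπ, MvPolynomial.map_map]
    have : (Polynomial.evalRingHom (0 : k)).comp Polynomial.C = RingHom.id k := by
      ext a
      simp
    rw [this, MvPolynomial.map_id]
  have hπsurj : Function.Surjective π := fun p => ⟨_, hπC p⟩
  have hπF : ∀ i, π (F i) = f i := by
    intro i
    rw [hF]
    simp only [map_add, map_mul]
    rw [hπC, hπ, MvPolynomial.map_C]
    simp
  have hd0 : ∀ i, F i ∈ J := fun i => Ideal.subset_span ⟨i, rfl⟩
  have hev : ∀ p, bezEv s0.1 p = MvPolynomial.eval s0.1 (π p) := fun p => rfl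
  obtain ⟨hz, hiso⟩ := hS s0.1 s0.2
  have hJM : J ≤ RingHom.ker (bezEv s0.1) := by
    rw [hJ, Ideal.span_le]
    rintro _ ⟨i, rfl⟩
    rw [SetLike.mem_coe, RingHom.mem_ker, hev, hπF]
    exact hz i
  have hMprime : (RingHom.ker (bezEv s0.1)).IsPrime := RingHom.ker_isPrime _
  obtain ⟨Q, hQ, hQM⟩ := Ideal.exists_minimalPrimes_le hJM
  have hQprime : Q.IsPrime := hQ.1.1
  have hJQ : J ≤ Q := hQ.1.2
  -- the parameter is not in `Q`
  have hX : (MvPolynomial.C (Polynomial.X) : MvPolynomial (Fin n) (Polynomial k)) ∉ Q := by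
    intro hXQ
    -- the kernel of the reduction is contained in `Q`
    have hker : RingHom.ker π ≤ Q := by
      intro p hp
      rw [RingHom.mem_ker] at hp
      rw [p.as_sum]
      refine Ideal.sum_mem _ fun v _ => ?_
      have h1 : Polynomial.X ∣ MvPolynomial.coeff v p := by
        rw [Polynomial.X_dvd_iff, Polynomial.coeff_zero_eq_eval_zero]
        have h2 := congrArg (MvPolynomial.coeff v) hp
        rwa [hπ, MvPolynomial.coeff_map, MvPolynomial.coeff_zero] at h2
      obtain ⟨q, hq⟩ := h1
      rw [hq, ← MvPolynomial.C_mul_monomial]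
      exact Ideal.mul_mem_right _ _ hXQ
    have hP : (Q.map π).IsPrime := Ideal.map_isPrime_of_surjective hπsurj hker
    have h1 := hiso (Q.map π) hP (fun i => by
      rw [← hπF i]
      exact Ideal.mem_map_of_mem _ (hJQ (hd0 i))) (by
      intro p hp
      obtain ⟨q, hq, rfl⟩ := (Ideal.mem_map_iff_of_surjective π hπsurj).1 hp
      have h3 := hQM hq
      rwa [RingHom.mem_ker, hev] at h3)
    have h2 : RingHom.ker (bezEv s0.1) ≤ Q := by
      intro p hp
      rw [RingHom.mem_ker, hev] at hp
      obtain ⟨q, hq, hqp⟩ := (Ideal.mem_map_iff_of_surjective π hπsurj).1 (h1 _ hp)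
      have h4 : q - p ∈ RingHom.ker π := by
        rw [RingHom.mem_ker, map_sub, hqp, sub_self]
      have h5 := Q.sub_mem hq (hker h4)
      rwa [sub_sub_cancel] at h5
    have h3 : Q = RingHom.ker (bezEv s0.1) := le_antisymm hQM h2
    rw [h3] at hQ
    have h4 := Ideal.height_le_card_of_mem_minimalPrimes_span (Set.finite_range F) hQ
    have h5 := (bez_height s0.1).trans h4
    have h6 : (Set.range F).ncard ≤ n := by
      have := Set.ncard_image_le (Set.finite_univ (α := Fin n)) (f := F)
      rwa [Set.image_univ, Set.ncard_univ, Nat.card_eq_fintype_card, Fintype.card_fin] at this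
    have h7 : n + 1 ≤ (Set.range F).ncard := by exact_mod_cast h5
    omega
  -- the cofactor is not in `Q`
  have heQ : (MvPolynomial.C e : MvPolynomial (Fin n) (Polynomial k)) ∉ Q := by
    intro heQ
    have key : ∀ m : ℕ, ∀ e : Polynomial k, e.natDegree ≤ m → e ≠ 0 →
        (MvPolynomial.C e : MvPolynomial (Fin n) (Polynomial k)) ∉ Q := by
      intro m
      induction m with
      | zero =>
        intro e hm he hmem
        rw [Polynomial.eq_C_of_natDegree_le_zero hm] at hmem
        have h1 := hQM hmem
        rw [RingHom.mem_ker, hev, hπ, MvPolynomial.map_C, MvPolynomial.eval_C] at h1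
        simp only [Polynomial.coe_evalRingHom, Polynomial.eval_C] at h1
        apply he
        rw [Polynomial.eq_C_of_natDegree_le_zero hm, h1, map_zero]
      | succ m ih =>
        intro e hm he hmem
        by_cases h0 : e.coeff 0 = 0
        · obtain ⟨e', rfl⟩ := Polynomial.X_dvd_iff.2 h0
          have he' : e' ≠ 0 := right_ne_zero_of_mul he
          rw [MvPolynomial.C_mul] at hmem
          rcases hQprime.mem_or_mem hmem with h1 | h1
          · exact hX h1
          · refine ih e' ?_ he' h1
            have h3 := Polynomial.natDegree_X_mul he'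
            omega
        · have h1 := hQM hmem
          rw [RingHom.mem_ker, hev, hπ, MvPolynomial.map_C, MvPolynomial.eval_C] at h1
          simp only [Polynomial.coe_evalRingHom] at h1
          rw [← Polynomial.coeff_zero_eq_eval_zero] at h1
          exact h0 h1
    exact key _ e le_rfl he heQ
  have hwQ : w ∈ Q := (hQprime.mem_or_mem (hJQ hmem)).resolve_left heQ
  have h1 := hQM hwQ
  rw [RingHom.mem_ker, hev, hw, map_sum, map_sum, Finset.sum_eq_single s0] at h1
  · rw [map_mul, hπC, map_mul, hπ, MvPolynomial.map_C, MvPolynomial.eval_C] at h1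
    simp only [Polynomial.coe_evalRingHom] at h1
    rw [← Polynomial.coeff_zero_eq_eval_zero] at h1
    exact mul_ne_zero hs0 (hh1 s0.1) h1
  · intro s _ hne
    rw [map_mul, hπC, map_mul, hh2 s.1 s0.1 s0.2 (fun h => hne (Subtype.ext h.symm)), mul_zero]
  · intro h
    exact absurd (Finset.mem_univ _) h

end Pool.Agent.RelC
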