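import Mathlib

set_option autoImplicit false

/-! Short independent vectors in a group of integer vectors with few classes (pigeonhole). -/

namespace Pool.Agent.RelC

/-- The sup norm of an integer vector. -/
def nrm {ι : Type*} [Fintype ι] (m : ι → ℤ) : ℕ := Finset.univ.sup fun i => (m i).natAbs

theorem le_nrm {ι : Type*} [Fintype ι] (m : ι → ℤ) (i : ι) : (m i).natAbs ≤ nrm m :=
  Finset.le_sup (f := fun i => (m i).natAbs) (Finset.mem_univ i)

theorem nrm_le {ι : Type*} [Fintype ι] {m : ι → ℤ} {B : ℕ} (h : ∀ i, (m i).natAbs ≤ B) : nrm m ≤ B :=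
  Finset.sup_le fun i _ => h i

theorem nrm_eq_zero {ι : Type*} [Fintype ι] {m : ι → ℤ} : nrm m = 0 ↔ m = 0 := by
  constructor
  · intro h
    funext i
    have := le_nrm m i
    rw [h] at this
    exact Int.natAbs_eq_zero.1 (Nat.le_zero.1 this)
  · rintro rfl
    exact Nat.le_zero.1 (nrm_le fun i => by simp)

theorem exists_nrm {ι : Type*} [Fintype ι] (m : ι → ℤ) (hm : m ≠ 0) : ∃ i, (m i).natAbs = nrm m := by
  have hne : (Finset.univ : Finset ι).Nonempty := by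
    obtain ⟨i, -⟩ := Function.ne_iff.1 hm
    exact ⟨i, Finset.mem_univ i⟩
  obtain ⟨i, -, hi⟩ := Finset.exists_mem_eq_sup _ hne fun i => (m i).natAbs
  exact ⟨i, hi.symm⟩

/-- The box `[0, B]^ι` meets at most `M B ^ k` classes modulo `Λ`. -/
def Few {ι : Type*} (k : ℕ) (Λ : AddSubgroup (ι → ℤ)) (M : ℝ) : Prop :=
  ∀ B : ℕ, 1 ≤ B → ∀ T : Finset (ι → ℤ), (∀ m ∈ T, ∀ i, 0 ≤ m i ∧ m i ≤ B) →
    M * B ^ k < T.card → ∃ a ∈ T, ∃ b ∈ T, a ≠ b ∧ a - b ∈ Λ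

private theorem pigeon {ι : Type*} [Fintype ι] {k : ℕ} {Λ : AddSubgroup (ι → ℤ)} {M : ℝ}
    (h : Few k Λ M)
    (D : Set (ι → ℤ)) (B : ℕ) (hB : 1 ≤ B) (c : ι → ℕ) (hc : ∀ i, c i ≤ B)
    (hD : ∀ m ∈ Λ, m ∈ D → (∀ i, (m i).natAbs ≤ c i) → m = 0)
    (hcard : M * B ^ k < ((∏ i, (c i + 1) : ℕ) : ℝ)) :
    ∃ m ∈ Λ, m ∉ D ∧ nrm m ≤ B := by
  classical
  set T : Finset (ι → ℤ) := Fintype.piFinset fun i => Finset.Icc (0 : ℤ) (c i) with hT
  have hTc : T.card = ∏ i, (c i + 1) := by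
    rw [hT, Fintype.card_piFinset]
    refine Finset.prod_congr rfl fun i _ => ?_
    rw [Int.card_Icc]
    omega
  have hmem : ∀ m ∈ T, ∀ i, 0 ≤ m i ∧ m i ≤ c i := by
    intro m hm i
    rw [hT, Fintype.mem_piFinset] at hm
    exact Finset.mem_Icc.1 (hm i)
  obtain ⟨a, ha, b, hb, hne, hab⟩ := h B hB T (fun m hm i => by
    have h1 := hmem m hm i
    have h2 : ((c i : ℕ) : ℤ) ≤ B := by exact_mod_cast hc i
    exact ⟨h1.1, h1.2.trans h2⟩) (by rw [hTc]; exact hcard)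
  have hdiff : ∀ i, ((a - b) i).natAbs ≤ c i := by
    intro i
    have h1 := hmem a ha i
    have h2 := hmem b hb i
    rw [Pi.sub_apply]
    omega
  refine ⟨a - b, hab, fun hd => hne ?_, nrm_le fun i => (hdiff i).trans (hc i)⟩
  exact sub_eq_zero.1 (hD _ hab hd hdiff)

/-- Choice of an element of least norm outside `D`, and the resulting inequality. -/
private theorem least {ι : Type*} [Fintype ι] {k : ℕ} {Λ : AddSubgroup (ι → ℤ)} {M : ℝ}
    (hM : 1 ≤ M) (h : Few k Λ M) (D : Set (ι → ℤ)) (J : Finset ι) (c : ι → ℕ)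
    (hn : J.card + k + 1 ≤ Fintype.card ι) (B0 : ℕ) (hB0 : ∀ i ∈ J, c i ≤ B0)
    (hmin : ∀ m ∈ Λ, m ∉ D → ∀ i ∈ J, c i + 1 ≤ nrm m)
    (hD : ∀ m ∈ Λ, m ∈ D → (∀ i ∈ J, (m i).natAbs ≤ c i) → m = 0) :
    ∃ m ∈ Λ, m ∉ D ∧ (∀ m' ∈ Λ, m' ∉ D → nrm m ≤ nrm m') ∧
      (1 < nrm m → ((nrm m ^ (Fintype.card ι - J.card - k) * ∏ i ∈ J, (c i + 1) : ℕ) : ℝ) ≤ M) := by
  classical
  set n := Fintype.card ι with hncard
  have hprod : ∀ B : ℕ, (∏ i, ((if i ∈ J then c i else B) + 1)) =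
      (B + 1) ^ (n - J.card) * ∏ i ∈ J, (c i + 1) := by
    intro B
    rw [← Finset.prod_compl_mul_prod J]
    congr 1
    · rw [Finset.prod_congr rfl (g := fun _ => B + 1)]
      · rw [Finset.prod_const, Finset.card_compl]
      · intro i hi
        rw [if_neg (Finset.mem_compl.1 hi)]
    · refine Finset.prod_congr rfl fun i hi => ?_
      rw [if_pos hi]
  have hD' : ∀ B : ℕ, ∀ m ∈ Λ, m ∈ D → (∀ i, (m i).natAbs ≤ if i ∈ J then c i else B) →
      m = 0 := by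
    intro B m hm hmD hle
    refine hD m hm hmD fun i hi => ?_
    have := hle i
    rwa [if_pos hi] at this
  have hP1 : 1 ≤ ∏ i ∈ J, (c i + 1) := Finset.one_le_prod' fun i _ => by omega
  -- existence
  have hex : ∃ m ∈ Λ, m ∉ D := by
    set B := max (max B0 ⌈M⌉₊) 1 with hB
    have hB1 : 1 ≤ B := le_max_right _ _
    have hBM : M ≤ B := (Nat.le_ceil M).trans (by
      exact_mod_cast (le_max_right B0 ⌈M⌉₊).trans (le_max_left _ 1))
    obtain ⟨m, hm, hmD, -⟩ := pigeon h D B hB1 (fun i => if i ∈ J then c i else B)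
      (fun i => by
        split_ifs with hi
        · exact (hB0 i hi).trans ((le_max_left B0 ⌈M⌉₊).trans (le_max_left _ 1))
        · exact le_rfl) (hD' B) (by
        rw [hprod]
        have h1 : (B + 1) ^ (k + 1) ≤ (B + 1) ^ (n - J.card) :=
          Nat.pow_le_pow_right (by omega) (by omega)
        have h2 : (B + 1) ^ (k + 1) ≤ (B + 1) ^ (n - J.card) * ∏ i ∈ J, (c i + 1) :=
          h1.trans (Nat.le_mul_of_pos_right _ hP1)
        have h3 : ((B : ℝ) + 1) ^ (k + 1) ≤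
            (((B + 1) ^ (n - J.card) * ∏ i ∈ J, (c i + 1) : ℕ) : ℝ) := by
          exact_mod_cast h2
        refine lt_of_lt_of_le ?_ h3
        have h4 : (1 : ℝ) ≤ B := by exact_mod_cast hB1
        have h5 : (B : ℝ) ^ k ≤ ((B : ℝ) + 1) ^ k := by
          gcongr
          linarith
        have h6 : 0 < ((B : ℝ) + 1) ^ k := by positivity
        calc M * (B : ℝ) ^ k ≤ B * ((B : ℝ) + 1) ^ k :=
              mul_le_mul hBM h5 (by positivity) (by linarith)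
          _ < ((B : ℝ) + 1) ^ (k + 1) := by
              rw [pow_succ]
              nlinarith)
    exact ⟨m, hm, hmD⟩
  -- least norm
  obtain ⟨m0, hm0, hm0D⟩ := hex
  have hex2 : ∃ N : ℕ, ∃ m ∈ Λ, m ∉ D ∧ nrm m = N := ⟨_, m0, hm0, hm0D, rfl⟩
  obtain ⟨m, hm, hmD, hmN⟩ := Nat.find_spec hex2
  have hleast : ∀ m' ∈ Λ, m' ∉ D → nrm m ≤ nrm m' := by
    intro m' hm' hm'D
    rw [hmN]
    exact Nat.find_min' hex2 ⟨m', hm', hm'D, rfl⟩
  refine ⟨m, hm, hmD, hleast, fun h1m => ?_⟩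
  by_contra hcon
  push Not at hcon
  set μ := nrm m with hμ
  obtain ⟨B, hBμ⟩ : ∃ B, μ = B + 1 := ⟨μ - 1, by omega⟩
  obtain ⟨m', hm', hm'D, hle⟩ := pigeon h D B (by omega) (fun i => if i ∈ J then c i else B)
    (fun i => by
      split_ifs with hi
      · have := hmin m hm hmD i hi
        omega
      · exact le_rfl) (hD' B) (by
      rw [hprod, ← hBμ]
      have h1 : n - J.card = (n - J.card - k) + k := by omega
      have hB0 : (0 : ℝ) ≤ B := Nat.cast_nonneg _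
      have h2 : ((μ ^ (n - J.card) * ∏ i ∈ J, (c i + 1) : ℕ) : ℝ) =
          ((μ ^ (n - J.card - k) * ∏ i ∈ J, (c i + 1) : ℕ) : ℝ) * ((B : ℝ) + 1) ^ k := by
        conv_lhs => rw [h1, pow_add]
        push_cast
        rw [hBμ]
        push_cast
        ring
      rw [h2]
      have h3 : M * (B : ℝ) ^ k ≤ M * ((B : ℝ) + 1) ^ k := by
        apply mul_le_mul_of_nonneg_left _ (by linarith)
        gcongr
        linarith
      refine lt_of_le_of_lt h3 ?_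
      exact mul_lt_mul_of_pos_right hcon (by positivity))
  have := hleast m' hm' hm'D
  omega

/-- The vectors which are rational multiples of `ν`. -/
private def Dep1 {ι : Type*} (ν : ι → ℤ) : Set (ι → ℤ) :=
  {m | ∃ α β : ℤ, α ≠ 0 ∧ α • m = β • ν}

/-- The vectors which are rational combinations of `ν` and `ρ`. -/
private def Dep2 {ι : Type*} (ν ρ : ι → ℤ) : Set (ι → ℤ) :=
  {m | ∃ α β γ : ℤ, α ≠ 0 ∧ α • m = β • ν + γ • ρ}

private theorem dep1_le {ι : Type*} [Fintype ι] {ν m : ι → ℤ} {i0 : ι}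
    (h0 : (ν i0).natAbs = nrm ν) (hm : m ∈ Dep1 ν) (i : ι) : (m i).natAbs ≤ (m i0).natAbs := by
  obtain ⟨α, β, hα, he⟩ := hm
  have e1 := congrArg Int.natAbs (congrFun he i)
  have e2 := congrArg Int.natAbs (congrFun he i0)
  simp only [Pi.smul_apply, smul_eq_mul, Int.natAbs_mul] at e1 e2
  have hα' : 0 < α.natAbs := Int.natAbs_pos.2 hα
  apply Nat.le_of_mul_le_mul_left _ hα'
  rw [e1, e2, h0]
  exact Nat.mul_le_mul_left _ (le_nrm ν i)

private theorem dep2_le {ι : Type*} [Fintype ι] {ν ρ m : ι → ℤ} {i0 i1 : ι} (hν : ν ≠ 0)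
    (h0 : (ν i0).natAbs = nrm ν)
    (h1 : ∀ i, (ν i0 * ρ i - ρ i0 * ν i).natAbs ≤ (ν i0 * ρ i1 - ρ i0 * ν i1).natAbs)
    (hm : m ∈ Dep2 ν ρ) (i : ι) : (m i).natAbs ≤ 2 * (m i0).natAbs + (m i1).natAbs := by
  obtain ⟨α, β, γ, hα, he⟩ := hm
  have hpos : 0 < nrm ν := Nat.pos_of_ne_zero fun h => hν (nrm_eq_zero.1 h)
  have e : ∀ j, α * (ν i0 * m j - m i0 * ν j) = γ * (ν i0 * ρ j - ρ i0 * ν j) := by
    intro j
    have a1 := congrFun he j
    have a2 := congrFun he i0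
    simp only [Pi.add_apply, Pi.smul_apply, smul_eq_mul] at a1 a2
    linear_combination ν i0 * a1 - ν j * a2
  have hα' : 0 < α.natAbs := Int.natAbs_pos.2 hα
  -- compare the coordinates `i` and `i1`
  have h2 : (ν i0 * m i - m i0 * ν i).natAbs ≤ (ν i0 * m i1 - m i0 * ν i1).natAbs := by
    apply Nat.le_of_mul_le_mul_left _ hα'
    rw [← Int.natAbs_mul, ← Int.natAbs_mul, e, e, Int.natAbs_mul, Int.natAbs_mul]
    exact Nat.mul_le_mul_left _ (h1 i)
  have h3 : (ν i0 * m i1 - m i0 * ν i1).natAbs ≤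
      nrm ν * (m i1).natAbs + (m i0).natAbs * nrm ν := by
    refine (Int.natAbs_sub_le _ _).trans ?_
    rw [Int.natAbs_mul, Int.natAbs_mul, h0]
    exact Nat.add_le_add_left (Nat.mul_le_mul_left _ (le_nrm ν i1)) _
  have h4 : (ν i0 * m i).natAbs ≤ (ν i0 * m i - m i0 * ν i).natAbs + (m i0 * ν i).natAbs := by
    have := Int.natAbs_add_le (ν i0 * m i - m i0 * ν i) (m i0 * ν i)
    rwa [sub_add_cancel] at this
  have h5 : (m i0 * ν i).natAbs ≤ (m i0).natAbs * nrm ν := by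
    rw [Int.natAbs_mul]
    exact Nat.mul_le_mul_left _ (le_nrm ν i)
  rw [Int.natAbs_mul, h0] at h4
  apply Nat.le_of_mul_le_mul_left _ hpos
  nlinarith

private theorem linInd1 {ι : Type*} {ν : ι → ℤ} (hν : ν ≠ 0) : LinearIndependent ℤ ![ν] := by
  rw [Fintype.linearIndependent_iff]
  intro g hg i
  rw [Fin.sum_univ_one] at hg
  simp only [Matrix.cons_val_zero] at hg
  fin_cases i
  exact (smul_eq_zero.1 hg).resolve_right hν

private theorem linInd2 {ι : Type*} {ν ρ : ι → ℤ} (hν : ν ≠ 0) (hρ : ρ ∉ Dep1 ν) :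
    LinearIndependent ℤ ![ν, ρ] := by
  rw [Fintype.linearIndependent_iff]
  intro g hg
  rw [Fin.sum_univ_two] at hg
  simp only [Matrix.cons_val_zero, Matrix.cons_val_one] at hg
  have h1 : g 1 = 0 := by
    by_contra hne
    apply hρ
    refine ⟨g 1, - g 0, hne, ?_⟩
    rw [neg_smul]
    exact eq_neg_of_add_eq_zero_right hg
  rw [h1, zero_smul, add_zero] at hg
  have h0 : g 0 = 0 := (smul_eq_zero.1 hg).resolve_right hν
  intro i
  fin_cases i
  · exact h0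
  · exact h1

private theorem linInd3 {ι : Type*} {ν ρ τ : ι → ℤ} (hν : ν ≠ 0) (hρ : ρ ∉ Dep1 ν)
    (hτ : τ ∉ Dep2 ν ρ) : LinearIndependent ℤ ![ν, ρ, τ] := by
  rw [Fintype.linearIndependent_iff]
  intro g hg
  rw [Fin.sum_univ_three] at hg
  simp only [Matrix.cons_val_zero, Matrix.cons_val_one, Matrix.cons_val_two, Matrix.head_cons,
    Matrix.tail_cons] at hg
  have h2 : g 2 = 0 := by
    by_contra hne
    apply hτ
    refine ⟨g 2, - g 0, - g 1, hne, ?_⟩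
    rw [neg_smul, neg_smul]
    have := eq_neg_of_add_eq_zero_right hg
    rw [this]
    abel
  rw [h2, zero_smul, add_zero] at hg
  have h3 := Fintype.linearIndependent_iff.1 (linInd2 hν hρ) ![g 0, g 1] (by
    rw [Fin.sum_univ_two]
    simpa using hg)
  intro i
  fin_cases i
  · exact h3 0
  · exact h3 1
  · exact h2

/-- One short vector. -/
theorem exists_one {ι : Type*} [Fintype ι] {k : ℕ} (hn : k + 1 ≤ Fintype.card ι)
    {Λ : AddSubgroup (ι → ℤ)} {M : ℝ} (hM : 1 ≤ M)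
    (h : Few k Λ M) : ∃ ν ∈ Λ, ν ≠ 0 ∧ (∀ m ∈ Λ, m ≠ 0 → nrm ν ≤ nrm m) ∧
      (nrm ν : ℝ) ^ (Fintype.card ι - k) ≤ M := by
  obtain ⟨ν, hν, hν0, hmin, hle⟩ := least hM h {0} ∅ (fun _ => 0) (by simpa using hn) 0
    (by simp) (by simp) (by
      intro m _ hm _
      exact hm)
  refine ⟨ν, hν, hν0, fun m hm h0 => hmin m hm h0, ?_⟩
  rcases Nat.lt_or_ge 1 (nrm ν) with h1 | h1
  · have h2 := hle h1
    rw [Finset.card_empty, Nat.sub_zero, Finset.prod_empty, mul_one] at h2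
    exact_mod_cast h2
  · have h2 : (nrm ν : ℝ) ≤ 1 := by exact_mod_cast h1
    exact (pow_le_one₀ (Nat.cast_nonneg _) h2).trans hM

private theorem second {ι : Type*} [Fintype ι] {k : ℕ} (hn : k + 2 ≤ Fintype.card ι)
    {Λ : AddSubgroup (ι → ℤ)} {M : ℝ} (hM : 1 ≤ M)
    (h : Few k Λ M) {ν : ι → ℤ} (hν0 : ν ≠ 0)
    (hmin : ∀ m ∈ Λ, m ≠ 0 → nrm ν ≤ nrm m) :
    ∃ ρ ∈ Λ, ρ ∉ Dep1 ν ∧ (∀ m ∈ Λ, m ∉ Dep1 ν → nrm ρ ≤ nrm m) ∧
      (nrm ν : ℝ) * (nrm ρ : ℝ) ^ (Fintype.card ι - (k + 1)) ≤ M := by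
  set n := Fintype.card ι with hncard
  obtain ⟨i0, hi0⟩ := exists_nrm ν hν0
  have hpos : 0 < nrm ν := Nat.pos_of_ne_zero fun h => hν0 (nrm_eq_zero.1 h)
  have hD0 : ∀ m, m ∉ Dep1 ν → m ≠ 0 := by
    rintro m hm rfl
    exact hm ⟨1, 0, one_ne_zero, by simp⟩
  obtain ⟨ρ, hρ, hρD, hρmin, hle⟩ := least hM h (Dep1 ν) {i0} (fun _ => nrm ν - 1)
    (by
      rw [Finset.card_singleton]
      omega) (nrm ν) (by
      intro i _
      omega) (by
      intro m hm hmD i _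
      have := hmin m hm (hD0 m hmD)
      omega) (by
      intro m hm hmD hle
      by_contra hne
      have h1 : nrm m ≤ nrm ν - 1 := by
        apply nrm_le
        intro i
        exact (dep1_le hi0 hmD i).trans (hle i0 (Finset.mem_singleton_self _))
      have h2 := hmin m hm hne
      omega)
  refine ⟨ρ, hρ, hρD, hρmin, ?_⟩
  have h12 : nrm ν ≤ nrm ρ := hmin ρ hρ (hD0 ρ hρD)
  rcases Nat.lt_or_ge 1 (nrm ρ) with h1 | h1
  · have h2 := hle h1
    rw [Finset.card_singleton, Finset.prod_singleton, Nat.sub_add_cancel (by omega),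
      ← hncard, show n - 1 - k = n - (k + 1) by omega] at h2
    push_cast at h2
    linarith [mul_comm (nrm ν : ℝ) ((nrm ρ : ℝ) ^ (n - (k + 1)))]
  · have h3 : (nrm ρ : ℝ) ≤ 1 := by exact_mod_cast h1
    have h4 : (nrm ν : ℝ) ≤ 1 := by exact_mod_cast h12.trans h1
    have h5 : (nrm ρ : ℝ) ^ (n - (k + 1)) ≤ 1 := pow_le_one₀ (Nat.cast_nonneg _) h3
    calc (nrm ν : ℝ) * (nrm ρ : ℝ) ^ (n - (k + 1)) ≤ 1 * 1 :=
          mul_le_mul h4 h5 (by positivity) zero_le_one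
      _ ≤ M := by linarith

/-- Two independent short vectors. -/
theorem exists_two {ι : Type*} [Fintype ι] {k : ℕ} (hn : k + 2 ≤ Fintype.card ι)
    {Λ : AddSubgroup (ι → ℤ)} {M : ℝ} (hM : 1 ≤ M)
    (h : Few k Λ M) : ∃ ν ∈ Λ, ∃ ρ ∈ Λ, LinearIndependent ℤ ![ν, ρ] ∧ nrm ν ≤ nrm ρ ∧
      (nrm ν : ℝ) ^ (Fintype.card ι - k) ≤ M ∧
      (nrm ν : ℝ) * (nrm ρ : ℝ) ^ (Fintype.card ι - (k + 1)) ≤ M := by
  obtain ⟨ν, hν, hν0, hmin, h1⟩ := exists_one (by omega) hM h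
  obtain ⟨ρ, hρ, hρD, -, h2⟩ := second hn hM h hν0 hmin
  refine ⟨ν, hν, ρ, hρ, linInd2 hν0 hρD, hmin ρ hρ ?_, h1, h2⟩
  rintro rfl
  exact hρD ⟨1, 0, one_ne_zero, by simp⟩

/-- Three independent short vectors. -/
theorem exists_three {ι : Type*} [Fintype ι] {k : ℕ} (hn : k + 3 ≤ Fintype.card ι)
    {Λ : AddSubgroup (ι → ℤ)} {M : ℝ} (hM : 1 ≤ M)
    (h : Few k Λ M) : ∃ ν ∈ Λ, ∃ ρ ∈ Λ, ∃ τ ∈ Λ, LinearIndependent ℤ ![ν, ρ, τ] ∧
      nrm ν ≤ nrm ρ ∧ nrm ρ ≤ nrm τ ∧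
      (nrm ν : ℝ) ^ (Fintype.card ι - k) ≤ M ∧
      (nrm ν : ℝ) * (nrm ρ : ℝ) ^ (Fintype.card ι - (k + 1)) ≤ M ∧
      (nrm ν : ℝ) * (nrm ρ : ℝ) * (nrm τ : ℝ) ^ (Fintype.card ι - (k + 2)) ≤ 8 * M := by
  classical
  set n := Fintype.card ι with hncard
  obtain ⟨ν, hν, hν0, hmin, h1⟩ := exists_one (by omega) hM h
  obtain ⟨ρ, hρ, hρD, hρmin, h2⟩ := second (by omega) hM h hν0 hmin
  have hD0 : ∀ m, m ∉ Dep1 ν → m ≠ 0 := by
    rintro m hm rfl
    exact hm ⟨1, 0, one_ne_zero, by simp⟩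
  have h12 : nrm ν ≤ nrm ρ := hmin ρ hρ (hD0 ρ hρD)
  obtain ⟨i0, hi0⟩ := exists_nrm ν hν0
  have hpos : 0 < nrm ν := Nat.pos_of_ne_zero fun h => hν0 (nrm_eq_zero.1 h)
  have hνi0 : ν i0 ≠ 0 := by
    intro h0
    rw [h0, Int.natAbs_zero] at hi0
    omega
  -- the second pivot
  set W : ι → ℤ := fun i => ν i0 * ρ i - ρ i0 * ν i with hW
  have hWne : W ≠ 0 := by
    intro h0
    apply hρD
    refine ⟨ν i0, ρ i0, hνi0, ?_⟩
    funext i
    have := congrFun h0 i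
    simp only [hW, Pi.zero_apply] at this
    simp only [Pi.smul_apply, smul_eq_mul]
    linarith
  obtain ⟨i1, hi1⟩ := exists_nrm W hWne
  have hW1 : ∀ i, (W i).natAbs ≤ (W i1).natAbs := fun i => by
    rw [hi1]
    exact le_nrm W i
  have hne : i1 ≠ i0 := by
    rintro rfl
    have : W i1 = 0 := by simp only [hW]; ring
    rw [this, Int.natAbs_zero] at hi1
    exact hWne (nrm_eq_zero.1 hi1.symm)
  have hsub : ∀ m, m ∈ Dep1 ν → m ∈ Dep2 ν ρ := by
    rintro m ⟨α, β, hα, he⟩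
    exact ⟨α, β, 0, hα, by rw [he, zero_smul, add_zero]⟩
  obtain ⟨τ, hτ, hτD, hτmin, hle⟩ := least hM h (Dep2 ν ρ) {i0, i1}
    (fun i => if i = i0 then nrm ν / 4 else (nrm ρ - 1) / 2)
    (by
      rw [Finset.card_pair hne.symm]
      omega) (nrm ρ) (by
      intro i _
      split_ifs
      · omega
      · omega) (by
      intro m hm hmD i _
      have h3 : nrm ρ ≤ nrm m := hρmin m hm fun hd => hmD (hsub m hd)
      split_ifs
      · omega
      · omega) (by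
      intro m hm hmD hle
      have h3 := hle i0 (by simp)
      have h4 := hle i1 (by simp)
      simp only [if_true, if_neg hne] at h3 h4
      have h5 : nrm m < nrm ρ := by
        refine lt_of_le_of_lt (nrm_le fun i => dep2_le hν0 hi0 hW1 hmD i) ?_
        omega
      have h6 : m ∈ Dep1 ν := by
        by_contra hd
        have := hρmin m hm hd
        omega
      by_contra hne0
      have h7 : nrm m ≤ nrm ν / 4 := nrm_le fun i => (dep1_le hi0 h6 i).trans h3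
      have h8 := hmin m hm hne0
      omega)
  have h23 : nrm ρ ≤ nrm τ := hρmin τ hτ fun hd => hτD (hsub τ hd)
  refine ⟨ν, hν, ρ, hρ, τ, hτ, linInd3 hν0 hρD hτD, h12, h23, h1, h2, ?_⟩
  rcases Nat.lt_or_ge 1 (nrm τ) with h3 | h3
  · have h4 := hle h3
    rw [Finset.card_pair hne.symm, Finset.prod_pair hne.symm, if_pos rfl, if_neg hne,
      ← hncard, show n - 2 - k = n - (k + 2) by omega] at h4
    push_cast at h4
    have h5 : (nrm ν : ℝ) ≤ 4 * ((nrm ν / 4 : ℕ) + 1) := by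
      have : nrm ν ≤ 4 * (nrm ν / 4 + 1) := by omega
      exact_mod_cast this
    have h6 : (nrm ρ : ℝ) ≤ 2 * (((nrm ρ - 1) / 2 : ℕ) + 1) := by
      have : nrm ρ ≤ 2 * ((nrm ρ - 1) / 2 + 1) := by omega
      exact_mod_cast this
    have h7 : (nrm ν : ℝ) * (nrm ρ : ℝ) ≤
        8 * (((nrm ν / 4 : ℕ) + 1) * (((nrm ρ - 1) / 2 : ℕ) + 1)) := by
      calc (nrm ν : ℝ) * (nrm ρ : ℝ) ≤
            (4 * ((nrm ν / 4 : ℕ) + 1)) * (2 * (((nrm ρ - 1) / 2 : ℕ) + 1)) :=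
            mul_le_mul h5 h6 (Nat.cast_nonneg _) (by positivity)
        _ = _ := by ring
    calc (nrm ν : ℝ) * (nrm ρ : ℝ) * (nrm τ : ℝ) ^ (n - (k + 2)) ≤
          8 * (((nrm ν / 4 : ℕ) + 1) * (((nrm ρ - 1) / 2 : ℕ) + 1)) * (nrm τ : ℝ) ^ (n - (k + 2)) :=
          mul_le_mul_of_nonneg_right h7 (by positivity)
      _ = 8 * ((nrm τ : ℝ) ^ (n - (k + 2)) *
            (((nrm ν / 4 : ℕ) + 1) * (((nrm ρ - 1) / 2 : ℕ) + 1))) := by ring
      _ ≤ 8 * M := by linarith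
  · have h4 : (nrm τ : ℝ) ≤ 1 := by exact_mod_cast h3
    have h5 : (nrm ρ : ℝ) ≤ 1 := by exact_mod_cast h23.trans h3
    have h6 : (nrm ν : ℝ) ≤ 1 := by exact_mod_cast h12.trans (h23.trans h3)
    have h7 : (nrm τ : ℝ) ^ (n - (k + 2)) ≤ 1 := pow_le_one₀ (Nat.cast_nonneg _) h4
    have h8 : (nrm ν : ℝ) * (nrm ρ : ℝ) ≤ 1 * 1 :=
      mul_le_mul h6 h5 (Nat.cast_nonneg _) zero_le_one
    calc (nrm ν : ℝ) * (nrm ρ : ℝ) * (nrm τ : ℝ) ^ (n - (k + 2)) ≤ (1 * 1) * 1 :=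
          mul_le_mul h8 h7 (by positivity) (by norm_num)
      _ ≤ 8 * M := by linarith

end Pool.Agent.RelC
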