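import Pool.Agent.LThree.Defs
import Pool.Agent.RelC.Pigeon

set_option autoImplicit false

/-! Short exact multiplicative relations, from the bound for the number of elements of small
height. -/

namespace Pool.Agent.RelC

open NumberField Height Real Module Pool.Agent.LThree

theorem nrm_eq {ι : Type} [Fintype ι] (u : ι → ℤ) : RelC.nrm u = LThree.nrm u := rfl

theorem mono_add {K : Type} [Field K] {ι : Type} [Fintype ι] {z : ι → K} (hz : ∀ i, z i ≠ 0)
    (u v : ι → ℤ) : mono z (u + v) = mono z u * mono z v := by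
  unfold mono
  rw [← Finset.prod_mul_distrib]
  exact Finset.prod_congr rfl fun i _ => zpow_add₀ (hz i) _ _

theorem mono_neg {K : Type} [Field K] {ι : Type} [Fintype ι] (z : ι → K)
    (u : ι → ℤ) : mono z (-u) = (mono z u)⁻¹ := by
  unfold mono
  rw [← Finset.prod_inv_distrib]
  exact Finset.prod_congr rfl fun i _ => zpow_neg _ _

theorem mono_zero {K : Type} [Field K] {ι : Type} [Fintype ι] (z : ι → K) :
    mono z 0 = 1 := by
  unfold mono
  exact Finset.prod_eq_one fun i _ => zpow_zero _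

theorem mono_ne_zero {K : Type} [Field K] {ι : Type} [Fintype ι] {z : ι → K}
    (hz : ∀ i, z i ≠ 0) (u : ι → ℤ) : mono z u ≠ 0 :=
  Finset.prod_ne_zero_iff.2 fun i _ => zpow_ne_zero _ (hz i)

theorem mono_sub {K : Type} [Field K] {ι : Type} [Fintype ι] {z : ι → K} (hz : ∀ i, z i ≠ 0)
    (u v : ι → ℤ) : mono z (u - v) = mono z u / mono z v := by
  rw [sub_eq_add_neg, mono_add hz, mono_neg, div_eq_mul_inv]

theorem mono_zsmul {K : Type} [Field K] {ι : Type} [Fintype ι] (z : ι → K)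
    (c : ℤ) (u : ι → ℤ) : mono z (c • u) = mono z u ^ c := by
  unfold mono
  rw [← Finset.prod_zpow]
  refine Finset.prod_congr rfl fun i _ => ?_
  rw [Pi.smul_apply, smul_eq_mul, mul_comm, zpow_mul]

/-- The group of the exact relations. -/
def relLat {K : Type} [Field K] {ι : Type} [Fintype ι] (z : ι → K) (hz : ∀ i, z i ≠ 0) :
    AddSubgroup (ι → ℤ) where
  carrier := {u | mono z u = 1}
  add_mem' := by
    intro a b ha hb
    simp only [Set.mem_ofPred_eq] at ha hb ⊢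
    rw [mono_add hz, ha, hb, one_mul]
  zero_mem' := mono_zero z
  neg_mem' := by
    intro a ha
    simp only [Set.mem_ofPred_eq] at ha ⊢
    rw [mono_neg, ha, inv_one]

theorem mem_relLat {K : Type} [Field K] {ι : Type} [Fintype ι] {z : ι → K}
    {hz : ∀ i, z i ≠ 0} {u : ι → ℤ} : u ∈ relLat z hz ↔ mono z u = 1 := Iff.rfl

/-- The height of a monomial. -/
theorem height_mono_le {K : Type} [Field K] [NumberField K] {ι : Type} [Fintype ι] (z : ι → K)
    {A : ℝ} (hA : ∀ i, logHeight₁ (z i) ≤ A) (u : ι → ℤ) {B : ℕ}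
    (hu : ∀ i, (u i).natAbs ≤ B) : logHeight₁ (mono z u) ≤ Fintype.card ι * B * A := by
  unfold mono
  refine (logHeight₁_prod_le _ _).trans ?_
  have h1 : ∀ i ∈ (Finset.univ : Finset ι), logHeight₁ (z i ^ u i) ≤ B * A := by
    intro i _
    rw [logHeight₁_zpow]
    have h2 : ((u i).natAbs : ℝ) ≤ B := by exact_mod_cast hu i
    exact mul_le_mul h2 (hA i) (zero_le_logHeight₁ _) (Nat.cast_nonneg _)
  refine (Finset.sum_le_sum h1).trans ?_
  rw [Finset.sum_const, Finset.card_univ, nsmul_eq_mul, mul_assoc]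

/-- The boxes meet few classes modulo the exact relations. -/
theorem few_of_count {k : ℕ} (hC : Count k) {ε : ℝ} (hε : 0 < ε) (H : ℝ) (s : ℕ) :
    ∃ C : ℝ, 1 ≤ C ∧ ∀ (K : Type) [Field K] [NumberField K] (ι : Type) [Fintype ι]
      (z : ι → K) (hz : ∀ i, z i ≠ 0), Fintype.card ι ≤ s → RankLe k z →
      (∀ i, logHeight₁ (z i) ≤ H * finrank ℚ K) →
      Few k (relLat z hz) (C * (finrank ℚ K : ℝ) ^ (1 + ε)) := by
  obtain ⟨C0, hC0, hcount⟩ := hC ε hε
  set H' := max H 1 with hH'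
  have hH1 : 1 ≤ H' := le_max_right _ _
  have hHH : H ≤ H' := le_max_left _ _
  refine ⟨max 1 (C0 * ((s + 1) * H') ^ k), le_max_left _ _, ?_⟩
  intro K _ _ ι _ z hz hs hrk hht B hB T hT hcard
  have hD : (0 : ℝ) < finrank ℚ K := by exact_mod_cast finrank_pos
  have hBR : (1 : ℝ) ≤ B := by exact_mod_cast hB
  set X : ℝ := (s + 1) * B * H' with hX
  have hX1 : 1 ≤ X := by
    have h1 : (1 : ℝ) ≤ s + 1 := by
      have : (0 : ℝ) ≤ s := Nat.cast_nonneg _
      linarith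
    calc (1 : ℝ) = 1 * 1 * 1 := by norm_num
      _ ≤ _ := by
        rw [hX]
        gcongr
  obtain ⟨hfin, hle⟩ := hcount K ι z hz hrk X hX1
  set S := {g : K | (∃ u : ι → ℤ, g = mono z u) ∧ logHeight₁ g ≤ X * finrank ℚ K} with hS
  have hmaps : ∀ u ∈ T, mono z u ∈ S := by
    intro u hu
    refine ⟨⟨u, rfl⟩, ?_⟩
    have h1 := height_mono_le z hht u (B := B) (fun i => by
      have := hT u hu i
      omega)
    refine h1.trans ?_
    rw [hX]
    have h2 : ((Fintype.card ι : ℕ) : ℝ) ≤ s + 1 := by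
      have : ((Fintype.card ι : ℕ) : ℝ) ≤ s := by exact_mod_cast hs
      linarith
    calc (Fintype.card ι : ℝ) * B * (H * finrank ℚ K) ≤ (Fintype.card ι : ℝ) * B *
          (H' * finrank ℚ K) := by gcongr
      _ ≤ (s + 1) * B * (H' * finrank ℚ K) := by gcongr
      _ = _ := by ring
  have hnotinj : ¬ Set.InjOn (mono z) (T : Set (ι → ℤ)) := by
    intro hinj
    have h1 : T.card ≤ Nat.card S := by
      classical
      have h2 : (T.image (mono z)).card = T.card := Finset.card_image_of_injOn hinj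
      rw [← h2, Nat.card_coe_set_eq]
      rw [← Set.ncard_coe_finset]
      apply Set.ncard_le_ncard _ hfin
      intro g hg
      rw [Finset.mem_coe, Finset.mem_image] at hg
      obtain ⟨u, hu, rfl⟩ := hg
      exact hmaps u hu
    have h3 : (T.card : ℝ) ≤ C0 * X ^ k * (finrank ℚ K : ℝ) ^ (1 + ε) := by
      refine le_trans ?_ hle
      exact_mod_cast h1
    have h4 : C0 * X ^ k * (finrank ℚ K : ℝ) ^ (1 + ε) =
        (C0 * ((s + 1) * H') ^ k) * (finrank ℚ K : ℝ) ^ (1 + ε) * (B : ℝ) ^ k := by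
      have h6 : X = ((s + 1) * H') * B := by rw [hX]; ring
      rw [h6, mul_pow]
      ring
    have h5 : (C0 * ((s + 1) * H') ^ k) * (finrank ℚ K : ℝ) ^ (1 + ε) * (B : ℝ) ^ k ≤
        max 1 (C0 * ((s + 1) * H') ^ k) * (finrank ℚ K : ℝ) ^ (1 + ε) * (B : ℝ) ^ k := by
      gcongr
      exact le_max_right _ _
    linarith
  rw [Set.InjOn] at hnotinj
  push Not at hnotinj
  obtain ⟨a, ha, b, hb, hab, hne⟩ := hnotinj
  refine ⟨a, ha, b, hb, hne, ?_⟩
  rw [mem_relLat, mono_sub hz, hab, div_self (mono_ne_zero hz b)]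

/-- One short exact relation. -/
theorem one_relation {k : ℕ} (hC : Count k) {ε : ℝ} (hε : 0 < ε) (H : ℝ) (s : ℕ) :
    ∃ C : ℝ, 1 ≤ C ∧ ∀ (K : Type) [Field K] [NumberField K] (ι : Type) [Fintype ι]
      (z : ι → K), (∀ i, z i ≠ 0) → Fintype.card ι ≤ s → k + 1 ≤ Fintype.card ι → RankLe k z →
      (∀ i, logHeight₁ (z i) ≤ H * finrank ℚ K) →
      ∃ u : ι → ℤ, u ≠ 0 ∧ mono z u = 1 ∧
        (LThree.nrm u : ℝ) ^ (Fintype.card ι - k) ≤ C * (finrank ℚ K : ℝ) ^ (1 + ε) := by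
  obtain ⟨C, hC1, h⟩ := few_of_count hC hε H s
  refine ⟨C, hC1, fun K _ _ ι _ z hz hs hk hrk hht => ?_⟩
  have hD : (1 : ℝ) ≤ finrank ℚ K := by exact_mod_cast (finrank_pos (R := ℚ) (M := K))
  have hM : 1 ≤ C * (finrank ℚ K : ℝ) ^ (1 + ε) :=
    one_le_mul_of_one_le_of_one_le hC1 (Real.one_le_rpow hD (by linarith))
  obtain ⟨u, hu, hu0, -, hle⟩ := exists_one hk hM (h K ι z hz hs hrk hht)
  exact ⟨u, hu0, hu, hle⟩

/-- Two independent short exact relations. -/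
theorem two_relations {k : ℕ} (hC : Count k) {ε : ℝ} (hε : 0 < ε) (H : ℝ) (s : ℕ) :
    ∃ C : ℝ, 1 ≤ C ∧ ∀ (K : Type) [Field K] [NumberField K] (ι : Type) [Fintype ι]
      (z : ι → K), (∀ i, z i ≠ 0) → Fintype.card ι ≤ s → k + 2 ≤ Fintype.card ι → RankLe k z →
      (∀ i, logHeight₁ (z i) ≤ H * finrank ℚ K) →
      ∃ u v : ι → ℤ, LinearIndependent ℤ ![u, v] ∧ mono z u = 1 ∧ mono z v = 1 ∧
        LThree.nrm u ≤ LThree.nrm v ∧
        (LThree.nrm u : ℝ) * (LThree.nrm v : ℝ) ^ (Fintype.card ι - (k + 1)) ≤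
          C * (finrank ℚ K : ℝ) ^ (1 + ε) := by
  obtain ⟨C, hC1, h⟩ := few_of_count hC hε H s
  refine ⟨C, hC1, fun K _ _ ι _ z hz hs hk hrk hht => ?_⟩
  have hD : (1 : ℝ) ≤ finrank ℚ K := by exact_mod_cast (finrank_pos (R := ℚ) (M := K))
  have hM : 1 ≤ C * (finrank ℚ K : ℝ) ^ (1 + ε) :=
    one_le_mul_of_one_le_of_one_le hC1 (Real.one_le_rpow hD (by linarith))
  obtain ⟨u, hu, v, hv, hind, h12, -, hle⟩ := exists_two hk hM (h K ι z hz hs hrk hht)
  exact ⟨u, v, hind, hu, hv, h12, hle⟩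

/-- Three independent short exact relations. -/
theorem three_relations {k : ℕ} (hC : Count k) {ε : ℝ} (hε : 0 < ε) (H : ℝ) (s : ℕ) :
    ∃ C : ℝ, 1 ≤ C ∧ ∀ (K : Type) [Field K] [NumberField K] (ι : Type) [Fintype ι]
      (z : ι → K), (∀ i, z i ≠ 0) → Fintype.card ι ≤ s → k + 3 ≤ Fintype.card ι → RankLe k z →
      (∀ i, logHeight₁ (z i) ≤ H * finrank ℚ K) →
      ∃ u v w : ι → ℤ, LinearIndependent ℤ ![u, v, w] ∧
        mono z u = 1 ∧ mono z v = 1 ∧ mono z w = 1 ∧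
        LThree.nrm u ≤ LThree.nrm v ∧ LThree.nrm v ≤ LThree.nrm w ∧
        (LThree.nrm u : ℝ) * (LThree.nrm v : ℝ) *
          (LThree.nrm w : ℝ) ^ (Fintype.card ι - (k + 2)) ≤
          C * (finrank ℚ K : ℝ) ^ (1 + ε) := by
  obtain ⟨C, hC1, h⟩ := few_of_count hC hε H s
  refine ⟨8 * C, by linarith, fun K _ _ ι _ z hz hs hk hrk hht => ?_⟩
  have hD : (1 : ℝ) ≤ finrank ℚ K := by exact_mod_cast (finrank_pos (R := ℚ) (M := K))
  have hM : 1 ≤ C * (finrank ℚ K : ℝ) ^ (1 + ε) :=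
    one_le_mul_of_one_le_of_one_le hC1 (Real.one_le_rpow hD (by linarith))
  obtain ⟨u, hu, v, hv, w, hw, hind, h12, h23, -, -, hle⟩ :=
    exists_three hk hM (h K ι z hz hs hrk hht)
  refine ⟨u, v, w, hind, hu, hv, hw, h12, h23, ?_⟩
  rw [mul_assoc 8]
  exact hle

private theorem le_rpow_of_pow_le {x M : ℝ} (hx : 0 ≤ x) (hM : 0 ≤ M) (a b : ℕ) (ha : 0 < a)
    (h : x ^ a ≤ M ^ b) : x ≤ M ^ ((b : ℝ) / a) := by
  have ha' : (0 : ℝ) < a := by exact_mod_cast ha
  have h1 : x = (x ^ a) ^ ((1 : ℝ) / a) := by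
    rw [← Real.rpow_natCast, ← Real.rpow_mul hx, mul_one_div_cancel ha'.ne', Real.rpow_one]
  rw [h1]
  have h2 : M ^ ((b : ℝ) / a) = (M ^ b) ^ ((1 : ℝ) / a) := by
    rw [← Real.rpow_natCast, ← Real.rpow_mul hM]
    congr 1
    ring
  rw [h2]
  exact Real.rpow_le_rpow (by positivity) h (by positivity)

private theorem rpow_const_mul_le {C D e t : ℝ} (hC : 1 ≤ C) (hD : 1 ≤ D) (ht1 : t ≤ 1) :
    (C * D ^ e) ^ t ≤ C * D ^ (e * t) := by
  have hC0 : 0 ≤ C := by linarith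
  have hD0 : 0 ≤ D := by linarith
  rw [Real.mul_rpow hC0 (Real.rpow_nonneg hD0 _), ← Real.rpow_mul hD0]
  apply mul_le_mul_of_nonneg_right _ (Real.rpow_nonneg hD0 _)
  calc C ^ t ≤ C ^ (1 : ℝ) := Real.rpow_le_rpow_of_exponent_le hC ht1
    _ = C := Real.rpow_one C

/-- One short exact relation between `k + 2` numbers generating a group of rank at most `k`. -/
theorem one_relation' {k : ℕ} (hC : Count k) {ε : ℝ} (hε : 0 < ε) (H : ℝ) :
    ∃ C : ℝ, 1 ≤ C ∧ ∀ (K : Type) [Field K] [NumberField K] (ι : Type) [Fintype ι]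
      (z : ι → K), (∀ i, z i ≠ 0) → Fintype.card ι = k + 2 → RankLe k z →
      (∀ i, logHeight₁ (z i) ≤ H * finrank ℚ K) →
      ∃ u : ι → ℤ, u ≠ 0 ∧ mono z u = 1 ∧
        (LThree.nrm u : ℝ) ≤ C * (finrank ℚ K : ℝ) ^ ((1 + ε) * (1 / 2)) := by
  obtain ⟨C, hC1, h⟩ := one_relation hC hε H (k + 2)
  refine ⟨C, hC1, fun K _ _ ι _ z hz hs hrk hht => ?_⟩
  have hD : (1 : ℝ) ≤ finrank ℚ K := by exact_mod_cast (finrank_pos (R := ℚ) (M := K))
  obtain ⟨u, hu0, hu, hle⟩ := h K ι z hz hs.le (by omega) hrk hht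
  refine ⟨u, hu0, hu, ?_⟩
  rw [hs, show k + 2 - k = 2 by omega] at hle
  have hM : 0 ≤ C * (finrank ℚ K : ℝ) ^ (1 + ε) :=
    mul_nonneg (by linarith) (Real.rpow_nonneg (by linarith) _)
  have h2 := le_rpow_of_pow_le (Nat.cast_nonneg (LThree.nrm u)) hM 2 1 two_pos
    (by rwa [pow_one])
  refine h2.trans ?_
  have h3 := rpow_const_mul_le (e := 1 + ε) (t := 1 / 2) hC1 hD (by norm_num)
  simpa using h3

/-- Two short exact relations between `k + 3` numbers generating a group of rank at most `k`. -/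
theorem two_relations' {k : ℕ} (hC : Count k) {ε : ℝ} (hε : 0 < ε) (H : ℝ) :
    ∃ C : ℝ, 1 ≤ C ∧ ∀ (K : Type) [Field K] [NumberField K] (ι : Type) [Fintype ι]
      (z : ι → K), (∀ i, z i ≠ 0) → Fintype.card ι = k + 3 → RankLe k z →
      (∀ i, logHeight₁ (z i) ≤ H * finrank ℚ K) →
      ∃ u v : ι → ℤ, LinearIndependent ℤ ![u, v] ∧ mono z u = 1 ∧ mono z v = 1 ∧
        (LThree.nrm u : ℝ) * LThree.nrm v ≤ C * (finrank ℚ K : ℝ) ^ ((1 + ε) * (2 / 3)) := by
  obtain ⟨C, hC1, h⟩ := two_relations hC hε H (k + 3)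
  refine ⟨C, hC1, fun K _ _ ι _ z hz hs hrk hht => ?_⟩
  have hD : (1 : ℝ) ≤ finrank ℚ K := by exact_mod_cast (finrank_pos (R := ℚ) (M := K))
  obtain ⟨u, v, hind, hu, hv, h12, hle⟩ := h K ι z hz hs.le (by omega) hrk hht
  refine ⟨u, v, hind, hu, hv, ?_⟩
  rw [hs, show k + 3 - (k + 1) = 2 by omega] at hle
  set a : ℝ := (LThree.nrm u : ℝ) with ha
  set b : ℝ := (LThree.nrm v : ℝ) with hb
  have ha0 : 0 ≤ a := Nat.cast_nonneg _
  have hb0 : 0 ≤ b := Nat.cast_nonneg _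
  have hab : a ≤ b := by
    rw [ha, hb]
    exact_mod_cast h12
  set M := C * (finrank ℚ K : ℝ) ^ (1 + ε) with hM'
  have hM : 0 ≤ M := mul_nonneg (by linarith) (Real.rpow_nonneg (by linarith) _)
  have h1 : (a * b) ^ 3 ≤ M ^ 2 := by
    have h3 : a ^ 2 * b ≤ M := by
      calc a ^ 2 * b = (a * b) * a := by ring
        _ ≤ (a * b) * b := by gcongr
        _ = a * b ^ 2 := by ring
        _ ≤ M := hle
    calc (a * b) ^ 3 = (a * b ^ 2) * (a ^ 2 * b) := by ring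
      _ ≤ M * M := mul_le_mul hle h3 (by positivity) hM
      _ = M ^ 2 := by ring
  have h2 := le_rpow_of_pow_le (by positivity) hM 3 2 (by norm_num) h1
  refine h2.trans ?_
  have h3 := rpow_const_mul_le (e := 1 + ε) (t := 2 / 3) hC1 hD (by norm_num)
  simpa using h3

/-- Three short exact relations between `k + 4` numbers generating a group of rank at most `k`. -/
theorem three_relations' {k : ℕ} (hC : Count k) {ε : ℝ} (hε : 0 < ε) (H : ℝ) :
    ∃ C : ℝ, 1 ≤ C ∧ ∀ (K : Type) [Field K] [NumberField K] (ι : Type) [Fintype ι]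
      (z : ι → K), (∀ i, z i ≠ 0) → Fintype.card ι = k + 4 → RankLe k z →
      (∀ i, logHeight₁ (z i) ≤ H * finrank ℚ K) →
      ∃ u v w : ι → ℤ, LinearIndependent ℤ ![u, v, w] ∧
        mono z u = 1 ∧ mono z v = 1 ∧ mono z w = 1 ∧
        (LThree.nrm u : ℝ) * LThree.nrm v * LThree.nrm w ≤
          C * (finrank ℚ K : ℝ) ^ ((1 + ε) * (3 / 4)) := by
  obtain ⟨C, hC1, h⟩ := three_relations hC hε H (k + 4)
  refine ⟨C, hC1, fun K _ _ ι _ z hz hs hrk hht => ?_⟩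
  have hD : (1 : ℝ) ≤ finrank ℚ K := by exact_mod_cast (finrank_pos (R := ℚ) (M := K))
  obtain ⟨u, v, w, hind, hu, hv, hw, h12, h23, hle⟩ := h K ι z hz hs.le (by omega) hrk hht
  refine ⟨u, v, w, hind, hu, hv, hw, ?_⟩
  rw [hs, show k + 4 - (k + 2) = 2 by omega] at hle
  set a : ℝ := (LThree.nrm u : ℝ) with ha
  set b : ℝ := (LThree.nrm v : ℝ) with hb
  set c : ℝ := (LThree.nrm w : ℝ) with hc
  have ha0 : 0 ≤ a := Nat.cast_nonneg _
  have hb0 : 0 ≤ b := Nat.cast_nonneg _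
  have hc0 : 0 ≤ c := Nat.cast_nonneg _
  have hab : a ≤ b := by
    rw [ha, hb]
    exact_mod_cast h12
  have hbc : b ≤ c := by
    rw [hb, hc]
    exact_mod_cast h23
  set M := C * (finrank ℚ K : ℝ) ^ (1 + ε) with hM'
  have hM : 0 ≤ M := mul_nonneg (by linarith) (Real.rpow_nonneg (by linarith) _)
  have h1 : (a * b * c) ^ 4 ≤ M ^ 3 := by
    have h3 : (a * b * c) ^ 4 ≤ (a * b * c ^ 2) ^ 3 := by
      calc (a * b * c) ^ 4 = (a * b) ^ 3 * c ^ 4 * (a * b) := by ring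
        _ ≤ (a * b) ^ 3 * c ^ 4 * (c * c) := by
          gcongr
          exact hab.trans hbc
        _ = (a * b * c ^ 2) ^ 3 := by ring
    refine h3.trans ?_
    gcongr
  have h2 := le_rpow_of_pow_le (by positivity) hM 4 3 (by norm_num) h1
  refine h2.trans ?_
  have h3 := rpow_const_mul_le (e := 1 + ε) (t := 3 / 4) hC1 hD (by norm_num)
  simpa using h3

end Pool.Agent.RelC
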