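import Pool.Agent.RelC.Orbit
import Pool.Agent.RelC.Rel

set_option autoImplicit false

/-! Points of powers of the line with as many exact relations as coordinates: the degree is
bounded by the sizes of the relations, or the point is a specialisation of a nonconstant point
with the same relations. -/

namespace Pool.Agent.RelC

open MvPolynomial Module Pool.Agent.LThree

theorem eval₂_relPoly {ι : Type} [Fintype ι] {K : Type} [Field K] (f : ℚ →+* K) (x : ι → K)
    (u : ι ⊕ ι → ℤ) : eval₂ f x (relPoly u) =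
      (∏ i, x i ^ (u (Sum.inl i)).toNat * (1 - x i) ^ (u (Sum.inr i)).toNat) -
      ∏ i, x i ^ (-u (Sum.inl i)).toNat * (1 - x i) ^ (-u (Sum.inr i)).toNat := by
  unfold relPoly
  rw [← coe_eval₂Hom]
  simp only [map_sub, map_prod, map_mul, map_pow, map_one, eval₂Hom_X']

theorem relPoly_eq_zero_iff {ι : Type} [Fintype ι] {K : Type} [Field K] (f : ℚ →+* K) (x : ι → K)
    (h0 : ∀ i, x i ≠ 0) (h1 : ∀ i, x i ≠ 1) (u : ι ⊕ ι → ℤ) :
    eval₂ f x (relPoly u) = 0 ↔ mono (co x) u = 1 := by
  rw [eval₂_relPoly, sub_eq_zero]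
  have h1' : ∀ i, 1 - x i ≠ 0 := fun i => sub_ne_zero.2 (Ne.symm (h1 i))
  have hz : ∀ (z : K), z ≠ 0 → ∀ a : ℤ, z ^ a = z ^ a.toNat / z ^ (-a).toNat := by
    intro z hz a
    rw [← zpow_natCast, ← zpow_natCast, ← zpow_sub₀ hz]
    congr 1
    omega
  have hmono : mono (co x) u =
      (∏ i, x i ^ (u (Sum.inl i)).toNat * (1 - x i) ^ (u (Sum.inr i)).toNat) /
      ∏ i, x i ^ (-u (Sum.inl i)).toNat * (1 - x i) ^ (-u (Sum.inr i)).toNat := by
    unfold mono co
    rw [Fintype.prod_sum_type]
    simp only [Sum.elim_inl, Sum.elim_inr]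
    rw [← Finset.prod_mul_distrib, ← Finset.prod_div_distrib]
    refine Finset.prod_congr rfl fun i _ => ?_
    rw [hz _ (h0 i), hz _ (h1' i), div_mul_div_comm]
  have hne : (∏ i, x i ^ (-u (Sum.inl i)).toNat * (1 - x i) ^ (-u (Sum.inr i)).toNat) ≠ 0 :=
    Finset.prod_ne_zero_iff.2 fun i _ => mul_ne_zero (pow_ne_zero _ (h0 i)) (pow_ne_zero _ (h1' i))
  rw [hmono, div_eq_one_iff_eq hne]

theorem totalDegree_relPoly {ι : Type} [Fintype ι] (u : ι ⊕ ι → ℤ) :
    (relPoly u).totalDegree ≤ Fintype.card ι * (2 * LThree.nrm u) := by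
  classical
  have hn : ∀ j, (u j).natAbs ≤ LThree.nrm u := fun j =>
    Finset.le_sup (f := fun i => (u i).natAbs) (Finset.mem_univ j)
  have h1 : ∀ i : ι, (1 - X i : MvPolynomial ι ℚ).totalDegree ≤ 1 := by
    intro i
    refine (totalDegree_sub _ _).trans ?_
    rw [totalDegree_one, totalDegree_X]
    simp
  have key : ∀ (a b : ι → ℕ), (∀ i, a i ≤ LThree.nrm u) → (∀ i, b i ≤ LThree.nrm u) →
      (∏ i, (X i ^ a i * (1 - X i) ^ b i : MvPolynomial ι ℚ)).totalDegree ≤
        Fintype.card ι * (2 * LThree.nrm u) := by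
    intro a b ha hb
    refine (totalDegree_finsetProd _ _).trans ?_
    rw [← Finset.card_univ, ← smul_eq_mul]
    refine Finset.sum_le_card_nsmul _ _ _ fun i _ => ?_
    refine (totalDegree_mul _ _).trans ?_
    have h2 : (X i ^ a i : MvPolynomial ι ℚ).totalDegree ≤ a i := by
      refine (totalDegree_pow _ _).trans ?_
      rw [totalDegree_X, mul_one]
    have h3 : ((1 - X i) ^ b i : MvPolynomial ι ℚ).totalDegree ≤ b i := by
      refine (totalDegree_pow _ _).trans ?_
      calc b i * (1 - X i : MvPolynomial ι ℚ).totalDegree ≤ b i * 1 :=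
            Nat.mul_le_mul_left _ (h1 i)
        _ = b i := mul_one _
    have := ha i
    have := hb i
    omega
  unfold relPoly
  refine (totalDegree_sub _ _).trans (max_le (key _ _ ?_ ?_) (key _ _ ?_ ?_)) <;>
    (intro i; first
      | (have := hn (Sum.inl i); omega)
      | (have := hn (Sum.inr i); omega))

/-- A point of `L ^ n` generating the number field `K`, with `n` exact relations: the degree of
`K` is bounded by the product of the sizes of the relations, or the point is a specialisation of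
a nonconstant point with the same relations. -/
theorem degree_or_generic {n : ℕ} (K : Type) [Field K] [NumberField K] (x : Fin n → K)
    (hx : IntermediateField.adjoin ℚ (Set.range x) = ⊤) (h0 : ∀ i, x i ≠ 0) (h1 : ∀ i, x i ≠ 1)
    (u : Fin n → (Fin n ⊕ Fin n → ℤ)) (hu : ∀ j, mono (co x) (u j) = 1) :
    finrank ℚ K ≤ ∏ j, (n * (2 * LThree.nrm (u j)) + 1) ∨
      ∃ (Ω : Type) (_ : Field Ω) (_ : Algebra ℂ Ω) (ξ : Fin n → Ω),
        (∀ i, ξ i ≠ 0) ∧ (∀ i, ξ i ≠ 1) ∧ (∃ i, Transcendental ℂ (ξ i)) ∧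
        (∀ j, mono (co ξ) (u j) = 1) ∧
        ∀ w : Fin n ⊕ Fin n → ℤ, mono (co ξ) w = 1 → mono (co x) w = 1 := by
  rcases orbit_or_generic K x hx (fun j => relPoly (u j)) (fun j => by
      rw [aeval_def]
      exact (relPoly_eq_zero_iff _ x h0 h1 (u j)).2 (hu j))
    (fun j => n * (2 * LThree.nrm (u j)) + 1) (fun j => by
      have := totalDegree_relPoly (u j)
      rw [Fintype.card_fin] at this
      omega) with h | ⟨φ, Ω, _, _, ξ, hξ, htr, hsp⟩
  · exact Or.inl h
  · right
    have hξ0 : ∀ i, ξ i ≠ 0 := by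
      intro i hi
      have h2 := hsp (X i) (by rw [aeval_X, hi])
      rw [eval_X] at h2
      exact h0 i ((map_eq_zero φ).1 h2)
    have hξ1 : ∀ i, ξ i ≠ 1 := by
      intro i hi
      have h2 := hsp (X i - 1) (by rw [map_sub, aeval_X, map_one, hi, sub_self])
      rw [map_sub, eval_X, map_one, sub_eq_zero] at h2
      exact h1 i (φ.injective (by rw [h2, map_one]))
    have hφ0 : ∀ i, φ (x i) ≠ 0 := fun i => (map_ne_zero φ).2 (h0 i)
    have hφ1 : ∀ i, φ (x i) ≠ 1 := fun i h => h1 i (φ.injective (by rw [h, map_one]))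
    refine ⟨Ω, inferInstance, inferInstance, ξ, hξ0, hξ1, htr, fun j => ?_, fun w hw => ?_⟩
    · have h2 := hξ j
      rw [aeval_def, eval₂_map] at h2
      exact (relPoly_eq_zero_iff _ ξ hξ0 hξ1 (u j)).1 h2
    · have h2 := hsp (map (algebraMap ℚ ℂ) (relPoly w)) (by
        rw [aeval_def, eval₂_map]
        exact (relPoly_eq_zero_iff _ ξ hξ0 hξ1 w).2 hw)
      rw [eval_map] at h2
      have h3 := (relPoly_eq_zero_iff _ _ hφ0 hφ1 w).1 h2
      have h4 : mono (co fun i => φ (x i)) w = φ (mono (co x) w) := by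
        unfold mono co
        rw [map_prod]
        refine Finset.prod_congr rfl fun i _ => ?_
        rw [map_zpow₀]
        rcases i with i | i
        · rfl
        · simp only [Sum.elim_inr, map_sub, map_one]
      rw [h4] at h3
      exact φ.injective (by rw [h3, map_one])

end Pool.Agent.RelC
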